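import Mathlib
import Pool.Agent.H16.W.JYDef
import Pool.Agent.H16.W.JEnd

set_option autoImplicit false
open Finset

/-! # Route W, J6, odd row of the Y worlds: the row behind the mark of `P` crosses the string

`midG` : 71's base world `G0Y` is solid in the middle (helper16's `Mid`). `G0_reach`, `G0_cnt` : connections and
passages do not depend on the row `y0`, on either side of the row of the string. `gY_row`, `gY_mid` : the value
`gY` with the rows `4` and `-5` and the string in the row `0` is the same. -/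

namespace Pool.Agent.H94.W

open Pool.Agent.H61.W Pool.Agent.H6.W Pool.Agent.H58.W Pool.Agent.H21.W Pool.Agent.H50.W
open Pool.Agent.H82.W Pool.Agent.H13.W Pool.Agent.H16.W
open Pool.Agent.H47.W (hz vt)
open Pool.Agent.H45.W (JW JOk DD BG)
open Pool.Agent.H71.W hiding InQ_col dgt_row
open Pool.Agent.H19.W (cx cy lt_cc cx_lt cy_lt)
open Pool.Agent.H33.Q1 (lt tt TL ct mem_TL lt_odd)

variable {δ σ : ℝ} {b : JBox} {h : ℕ} {M : Finset (Bool × ℕ)}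
  {L : Finset (ℤ × ℤ)} {o s bse : Bool} {x1 y0 y0' xs Yd : ℤ}

/-- deleted tiles of the base world -/
lemma mem_DG {e : ℤ × ℤ} (ho : (e.1 + e.2) % 2 = 1) : e ∈ lt '' (strD (xs, Yd) ∪ slR y0 x1) ↔
    (cy e = Yd ∧ xs ≤ cx e) ∨ (cy e = y0 ∧ cx e < x1) := by
  rw [Set.image_union, Set.mem_union, mem_strD ho, mem_slR ho]

/-- states of the base world -/
lemma mem_wG {ω : Finset (ℤ × ℤ)} {e : ℤ × ℤ} : e ∈ w0Y b h o s x1 y0 xs Yd ω ∪ L ↔
    Xor (e ∈ cfg b h o ω) (e ∈ fUY b h s x1 y0 xs Yd) ∨ e ∈ L := by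
  unfold w0Y
  rw [mem_union, mem_symmDiff]
  rfl

section mk

variable (N : MkH δ σ b h x1)
include N

/-- **71's base world is solid in the middle.** -/
theorem midG {cl : Cl} {ω : Finset (ℤ × ℤ)} (hcl : cl.u 0 = !cl.l 0)
    (hω : BC (b.B h) (blk (cpl b (2 * h))) ω) (hy1 : -8 ≤ y0) (hy2 : y0 ≤ 5) (hYd1 : -8 ≤ Yd)
    (hYd2 : Yd ≤ 7) (hd : y0 + 2 ≤ Yd ∨ Yd + 2 ≤ y0) (hxs : -(b.X * (2 * h : ℤ)) ≤ xs)
    (hxs1 : xs ≠ x1) (hxs2 : xs ≠ x1 + 1) :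
    Mid (Lam b (2 * h) M) (lt '' (strD (xs, Yd) ∪ slR y0 x1))
      (w0Y b h o s x1 y0 xs Yd ω ∪ WlS b (2 * h) cl y0) (-(b.X * (2 * h : ℤ)) - 3) (x1 + 1) (-9) 9
      (kp b (2 * h) (cw s cl) o ω) s x1 y0 xs Yd := by
  have hn := N.hn
  have hX := N.Xn
  have hmX := N.mX
  have hx1l := N.x1l
  have hx1r := N.x1r
  have hten := N.ten
  have htH := N.tH
  refine N.mid_of (ω := ω) hy1 hy2 hYd1 hYd2 hd hxs hxs1 hxs2 ?_ ?_ ?_
  · intro x y g1 g2 g3 g4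
    rw [mem_DG (vt_odd _ _), cx_vt, cy_vt]
    exact Or.comm
  · intro x y g1 g2 g3 g4 hD
    have hI : ¬ InQ b (2 * h) x y := by
      rw [InQ_band N.ok hn (by linarith) (by linarith)]
      rintro ⟨g5, -⟩; linarith
    have hB : vt x y ∉ b.B h := by
      rw [mem_B N.hh, cx_vt, cy_vt]; exact fun g => hI g.2
    have hLam : vt x y ∈ Lam b (2 * h) M := by
      rw [mem_Lam_band N.ok hn (by rw [cy_vt]; linarith) (by rw [cy_vt]; linarith), cx_vt]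
      exact ⟨vt_odd _ _, g1, by linarith⟩
    have hP : vt x y ∉ b.Pl h := fun g => hB (Pl_sub N.ok N.hh N.mn (le_of_lt N.thk) g)
    have hc : vt x y ∉ cfg b h o ω := by
      rw [mem_cfg]
      rintro (⟨g, -⟩ | ⟨-, g⟩)
      · exact hP g
      · exact hB (hω.1 g)
    have hf : vt x y ∉ fUY b h s x1 y0 xs Yd := by
      rw [mem_fUY]
      exact fun g => hB g.1
    rw [mem_wG]
    have e1 : vt x y ∈ WlS b (2 * h) cl y0 ↔ lcS b (2 * h) cl y0 x y = true := by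
      rw [mem_WlS' N.ok N.hh hLam (by rw [cx_vt, cy_vt]; exact hI), cx_vt, cy_vt]
    have e2 : lcS b (2 * h) cl y0 x y = (if y0 < y then cl.u 0 else cl.l 0) := by
      unfold lcS
      rw [if_pos ⟨g2, by linarith, by linarith⟩]
    rw [e1, e2]
    simp only [hc, hf, Xor, false_and, or_false, false_or]
    unfold cw
    rw [hcl]
    by_cases hy : y0 < y
    · rw [if_pos hy, decide_eq_true hy, decide_eq_false (by linarith : ¬ y ≤ y0)]
      cases s <;> simp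
    · rw [if_neg hy, decide_eq_false hy, decide_eq_true (by linarith : y ≤ y0)]
      cases s <;> simp
  · intro x y g1 g2 g3 g4 hD
    obtain ⟨hB, hc⟩ := N.plate g1 (by linarith) g3 g4
    obtain ⟨hB0, hc0⟩ := N.plate g1 (by linarith) (y := 0) (by norm_num) (by norm_num)
    have hL : vt x y ∉ WlS b (2 * h) cl y0 := fun g => WlS_notMem g N.hh hB
    have hex : ∃ i, cpl b (2 * h) (vt x y) = some i := ⟨_, hc⟩
    rw [mem_wG, mem_fUY, mem_cfg, cx_vt, cy_vt]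
    have hk : ¬ x < -(b.X * (2 * h : ℤ)) := by linarith
    unfold kp
    rw [if_neg hk]
    by_cases hp : pin b (2 * h) x < b.m
    · have hP : vt x y ∈ b.Pl h := (mem_Pl' N.ok.M0 N.hh).2 ⟨vt_odd _ _, _, hp, hc⟩
      rw [if_pos hp]
      simp only [hB, hP, hL, hex, not_true_eq_false, true_and, false_and, or_false]
    · have hP : ∀ y', cpl b (2 * h) (vt x y') = some (pin b (2 * h) x) → vt x y' ∉ b.Pl h := by
        intro y' hc' g
        obtain ⟨-, i, hi, hi2⟩ := (mem_Pl' N.ok.M0 N.hh).1 g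
        rw [hc', Option.some.injEq] at hi2
        omega
      have hP1 := hP y hc
      rw [if_neg hp]
      have hbc : vt x y ∈ ω ↔ lt (x, 0) ∈ ω := by
        refine hω.2 _ hB _ hB0 ?_
        show blk (cpl b (2 * h)) (vt x y) = blk (cpl b (2 * h)) (vt x 0)
        rw [blk_some hc, blk_some hc0]
      simp only [hB, hP1, hL, hex, hbc, not_false_eq_true, true_and, false_and, or_false, false_or,
        decide_eq_true_eq]

/-- the tiles outside of the rectangle agree -/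
lemma out_G {cl : Cl} {ω : Finset (ℤ × ℤ)} (h1 : -8 ≤ y0) (h2 : y0 ≤ 5)
    (h1' : -8 ≤ y0') (h2' : y0' ≤ 5) (x y : ℤ)
    (ho : ¬ (-(b.X * (2 * h : ℤ)) - 3 ≤ x ∧ x < x1 + 1 ∧ -9 ≤ y ∧ y < 9)) :
    (vt x y ∈ Lam b (2 * h) M ↔ vt x y ∈ Lam b (2 * h) M) ∧
    (vt x y ∈ Lam b (2 * h) M →
      (vt x y ∈ lt '' (strD (xs, Yd) ∪ slR y0 x1) ↔ vt x y ∈ lt '' (strD (xs, Yd) ∪ slR y0' x1)) ∧
      (vt x y ∉ lt '' (strD (xs, Yd) ∪ slR y0 x1) →
        (vt x y ∈ w0Y b h o s x1 y0 xs Yd ω ∪ WlS b (2 * h) cl y0 ↔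
          vt x y ∈ w0Y b h o s x1 y0' xs Yd ω ∪ WlS b (2 * h) cl y0'))) := by
  have hn := N.hn
  have hX := N.Xn
  have hmX := N.mX
  have hx1l := N.x1l
  have hx1r := N.x1r
  refine ⟨Iff.rfl, fun hL => ?_⟩
  have hcol := Lam_col N.ok hn hL
  rw [cx_vt] at hcol
  have hcase : x < x1 + 1 → y < -9 ∨ 9 ≤ y := by
    intro g
    by_contra hc
    push Not at hc
    exact ho ⟨hcol.1, g, hc.1, hc.2⟩
  refine ⟨?_, fun _ => ?_⟩
  · rw [mem_DG (vt_odd _ _), mem_DG (vt_odd _ _), cx_vt, cy_vt]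
    have e1 : ¬ (y = y0 ∧ x < x1) := by
      rintro ⟨g1, g2⟩
      rcases hcase (by linarith) with g | g <;> linarith
    have e2 : ¬ (y = y0' ∧ x < x1) := by
      rintro ⟨g1, g2⟩
      rcases hcase (by linarith) with g | g <;> linarith
    simp only [e1, e2]
  · rw [mem_wG, mem_wG, mem_fUY, mem_fUY, cx_vt, cy_vt]
    have e1 : fA s x1 y0 x y ↔ fA s x1 y0' x y := by
      by_cases g : x < x1
      · exact MkH.fA_out h1 h2 h1' h2' (hcase (by linarith))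
      · unfold fA; simp [g]
    rw [e1]
    refine or_congr_right ?_
    by_cases hB : vt x y ∈ b.B h
    · exact ⟨fun g => absurd hB (WlS_notMem g N.hh), fun g => absurd hB (WlS_notMem g N.hh)⟩
    · have hI : ¬ InQ b (2 * h) (cx (vt x y)) (cy (vt x y)) := fun g => hB ((mem_B N.hh).2 ⟨vt_odd _ _, g⟩)
      rw [mem_WlS' N.ok N.hh hL hI, mem_WlS' N.ok N.hh hL hI, cx_vt, cy_vt]
      by_cases g : x < x1 + 1
      · rw [MkH.lcS_out h1 h2 h1' h2' (hcase g)]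
      · have : ∀ y0, lcS b (2 * h) cl y0 x y = lcol b (2 * h) cl x y := by
          intro y0
          unfold lcS
          rw [if_neg (by rintro ⟨g1, -⟩; linarith)]
        rw [this, this]

/-- **The value of the base world does not depend on the row `y0`**, on either side of the string. -/
theorem Vy_G0 {cl : Cl} {ω : Finset (ℤ × ℤ)} (hcl : cl.u 0 = !cl.l 0)
    (hω : BC (b.B h) (blk (cpl b (2 * h))) ω) (h1 : -8 ≤ y0) (h2 : y0 ≤ 5)
    (h1' : -8 ≤ y0') (h2' : y0' ≤ 5) (hYd1 : -8 ≤ Yd) (hYd2 : Yd ≤ 7)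
    (hd : y0 + 2 ≤ Yd ∨ Yd + 2 ≤ y0) (hd' : y0' + 2 ≤ Yd ∨ Yd + 2 ≤ y0')
    (hxs : -(b.X * (2 * h : ℤ)) ≤ xs) (hxs1 : xs < x1) (q q0 : Bool × ℕ)
    (hun : ∀ t ∈ fq b (2 * h) q0,
      ¬ ((G0Y b h M (WlS b (2 * h) cl y0) o s x1 y0 xs Yd ω).Reachable (zc (xs, Yd)) (vt x1 y0) ∧
        (G0Y b h M (WlS b (2 * h) cl y0) o s x1 y0 xs Yd ω).Reachable (zc (xs, Yd)) t)) :
    Vy b (2 * h) q q0 (G0Y b h M (WlS b (2 * h) cl y0) o s x1 y0 xs Yd ω) (zc (xs, Yd)) (vt x1 y0) x1 y0 =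
      Vy b (2 * h) q q0 (G0Y b h M (WlS b (2 * h) cl y0') o s x1 y0' xs Yd ω) (zc (xs, Yd)) (vt x1 y0')
        x1 y0' := by
  have hH : 10 ≤ b.H * (2 * h : ℤ) := le_trans N.ten N.tH
  have m1 := midG (M := M) (o := o) (s := s) N hcl hω h1 h2 hYd1 hYd2 hd hxs (by omega) (by omega)
  have m2 := midG (M := M) (o := o) (s := s) N hcl hω h1' h2' hYd1 hYd2 hd' hxs (by omega) (by omega)
  have ou := out_G (M := M) (xs := xs) (Yd := Yd) (o := o) (s := s) (cl := cl) (ω := ω) N h1 h2 h1' h2'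
  have hz' : CC (-9) 9 x1 y0 y0' xs Yd (x1 + 1) (zc (xs, Yd)) (zc (xs, Yd)) :=
    Or.inr (Or.inr ⟨by omega, rfl, rfl⟩)
  have hm : CC (-9) 9 x1 y0 y0' xs Yd (x1 + 1) (vt x1 y0) (vt x1 y0') := Or.inr (Or.inl ⟨rfl, rfl⟩)
  have hf : ∀ {q : Bool × ℕ}, ∀ t ∈ fq b (2 * h) q, CC (-9) 9 x1 y0 y0' xs Yd (x1 + 1) t t :=
    fun t ht => Or.inl ⟨far_fq N.hn hH ht, rfl⟩
  unfold G0Y at hun ⊢
  refine Vy_congr (fun t ht => ?_) ?_ (fun g => ?_)
  · exact Mid.reach m1 m2 ou hz' (hf t ht)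
  · exact Mid.reach m1 m2 ou hz' hm
  · unfold cq
    rw [Mid.cnt_eq m1 m2 ou (Y := y0) (Y' := y0') (by linarith) (by linarith) (by linarith)
      (by linarith) (fun t ht => far_fq N.hn hH ht) (fun t ht gt => hun t ht ⟨g, g.trans gt⟩)
      (fun _ t ht gt => hun t ht ⟨g, gt⟩)]

/-- 45's hypotheses for the base world -/
lemma jokG (hM : ∀ q ∈ M, q.2 < b.K) (hc : par M.card = false) (h1 : -8 ≤ y0) (h2 : y0 ≤ 5)
    (hYd1 : -8 ≤ Yd) (hYd2 : Yd ≤ 7) (hd : y0 ≠ Yd) (hxs : -(b.X * (2 * h : ℤ)) ≤ xs) (hxs1 : xs < x1) :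
    JOk b (2 * h) M (some (xs, Yd)) (some (x1, y0)) := by
  have hn := N.hn
  have hX := N.Xn
  have hmX := N.mX
  have hx1l := N.x1l
  have hx1r := N.x1r
  have hH : 10 ≤ b.H * (2 * h : ℤ) := le_trans N.ten N.tH
  refine ⟨BG.of_ok N.ok, hn, hM, ?_, ?_, ?_, by rw [hc]; rfl⟩
  · intro v' hv
    rw [Option.mem_def, Option.some.injEq] at hv
    rw [← hv]
    show InQ b (2 * h) xs Yd
    rw [InQ_band N.ok hn (by linarith) (by linarith)]
    exact ⟨hxs, by linarith⟩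
  · intro s' hs
    rw [Option.mem_def, Option.some.injEq] at hs
    rw [← hs]
    exact ⟨⟨by show -(b.X * (2 * h : ℤ)) < x1; linarith, by show x1 < b.X * (2 * h : ℤ); linarith⟩,
      by show -(b.H * (2 * h : ℤ)) ≤ y0; linarith, by show y0 < b.H * (2 * h : ℤ); linarith⟩
  · intro v' hv s' hs h3
    rw [Option.mem_def, Option.some.injEq] at hs hv
    rw [← hs, ← hv] at h3
    exact absurd h3.symm hd

/-- **45's structure for the base world.** -/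
theorem jwG (hM : ∀ q ∈ M, q.2 < b.K) (hc : par M.card = false) (h1 : -8 ≤ y0) (h2 : y0 ≤ 5)
    (hYd1 : -8 ≤ Yd) (hYd2 : Yd ≤ 7) (hd : y0 ≠ Yd) (hxs : -(b.X * (2 * h : ℤ)) ≤ xs) (hxs1 : xs < x1)
    {ω : Finset (ℤ × ℤ)} (hω : ω ⊆ b.B h) :
    JW b (2 * h) M (some (xs, Yd)) (some (x1, y0)) bse (Lam b (2 * h) M)
      (w0Y b h o s x1 y0 xs Yd ω ∪ WlS b (2 * h) (colM bse M (some Yd)) y0) := by
  refine JW_S (v := (xs, Yd)) N.hh (jokG N hM hc h1 h2 hYd1 hYd2 hd hxs hxs1) fun e he => ?_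
  have hP : e ∉ b.Pl h := fun g => he (Pl_sub N.ok N.hh N.mn (le_of_lt N.thk) g)
  have hω' : e ∉ ω := fun g => he (hω g)
  rw [mem_wG, mem_cfg, mem_fUY]
  simp only [hP, hω', he, Xor, false_and, and_false, or_false, false_or, not_false_eq_true]

/-- not both the mark of `P` and a mark -/
theorem nbG (hM : ∀ q ∈ M, q.2 < b.K) (hc : par M.card = false) (h1 : -8 ≤ y0) (h2 : y0 ≤ 5)
    (hYd1 : -8 ≤ Yd) (hYd2 : Yd ≤ 7) (hd : y0 ≠ Yd) (hxs : -(b.X * (2 * h : ℤ)) ≤ xs) (hxs1 : xs < x1)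
    {ω : Finset (ℤ × ℤ)} (hω : ω ⊆ b.B h) {q : Bool × ℕ} (hq : q ∈ M) {t : ℤ × ℤ}
    (ht : t ∈ fq b (2 * h) q) :
    ¬ ((G0Y b h M (LY b h M bse y0 Yd) o s x1 y0 xs Yd ω).Reachable (zc (xs, Yd)) (vt x1 y0) ∧
      (G0Y b h M (LY b h M bse y0 Yd) o s x1 y0 xs Yd ω).Reachable (zc (xs, Yd)) t) := by
  have W := jwG (bse := bse) (o := o) (s := s) N hM hc h1 h2 hYd1 hYd2 hd hxs hxs1 hω
  have hG : G0Y b h M (LY b h M bse y0 Yd) o s x1 y0 xs Yd ω =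
      SG (Lam b (2 * h) M) (lt '' DD (some (xs, Yd)) (some (x1, y0)))
        (w0Y b h o s x1 y0 xs Yd ω ∪ WlS b (2 * h) (colM bse M (some Yd)) y0) := by
    rw [DD_S]; rfl
  rw [hG]
  rintro ⟨g1, g2⟩
  exact W.zc_not_both rfl rfl hq (RF_fq.2 ⟨t, ht, g2⟩) g1

/-- **The value `gY` does not depend on the row `y0`**, on either side of the string. -/
theorem gY_row (hM : ∀ q ∈ M, q.2 < b.K) (hc : par M.card = false) (h1 : -8 ≤ y0) (h2 : y0 ≤ 5)
    (h1' : -8 ≤ y0') (h2' : y0' ≤ 5) (hYd1 : -8 ≤ Yd) (hYd2 : Yd ≤ 7)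
    (hd : y0 + 2 ≤ Yd ∨ Yd + 2 ≤ y0) (hd' : y0' + 2 ≤ Yd ∨ Yd + 2 ≤ y0')
    (hxs : -(b.X * (2 * h : ℤ)) ≤ xs) (hxs1 : xs < x1) (bse o s : Bool) (q : Bool × ℕ) {q0 : Bool × ℕ}
    (hq0 : q0 ∈ M) :
    gY b h M bse o s x1 y0 xs Yd q q0 = gY b h M bse o s x1 y0' xs Yd q q0 := by
  unfold gY
  rw [← blk_cpl]
  refine EB_bc fun ω hω => ?_
  have hcl : (colM bse M (some Yd)).u 0 = !(colM bse M (some Yd)).l 0 := by
    have g := Pool.Agent.H45.W.colM_foot (base := bse) (M := M) (ex := some Yd)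
    rw [hc] at g
    revert g
    cases (colM bse M (some Yd)).u 0 <;> cases (colM bse M (some Yd)).l 0 <;> simp
  exact Vy_G0 N hcl hω h1 h2 h1' h2' hYd1 hYd2 hd hd' hxs hxs1 q q0
    fun t ht => nbG N hM hc h1 h2 hYd1 hYd2 (by omega) hxs hxs1 hω.1 hq0 ht

/-- **The row behind the mark of `P` crosses the string.** -/
theorem gY_mid (hM : ∀ q ∈ M, q.2 < b.K) (hc : par M.card = false) (hxs : -(b.X * (2 * h : ℤ)) < xs)
    (hxm : xs ≤ -(b.m * b.M * (2 * h) : ℤ)) {bse o s : Bool} {q q0 : Bool × ℕ} (_hq : q ∈ M)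
    (hq0 : q0 ∈ M) :
    gY b h M bse o s x1 4 xs 0 q q0 = gY b h M bse o s x1 (-5) xs 0 q q0 :=
  gY_row N hM hc (by norm_num) (by norm_num) (by norm_num) (by norm_num) (by norm_num) (by norm_num)
    (Or.inr (by norm_num)) (Or.inl (by norm_num)) hxs.le (lt_of_le_of_lt hxm N.x1l) bse o s q hq0

end mk

end Pool.Agent.H94.W
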