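import Mathlib
import Pool.Agent.H21.W.TileSG

set_option autoImplicit false

/-! # Interfaces through a slit, step by step

`H` : any graph which contains the steps in question (`Stp D w H x y` : all steps of the tile `(x, y)`).
`up_end`, `lo_end` : the last step of the interface along a vertical line at the upper (lower) corner of a gap;
`gap_nat` : the interface of a gap, `gap_del` : through a deleted row, `gap_mark` : up to the end at the mark
`eW (lt (x, Y))`. `pair_loop` : in a solid column of the deleted row the strand is a small loop. -/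

namespace Pool.Agent.H94.W

open Pool.Agent.H75.Perc Pool.Agent.H75.TwoArm Pool.Agent.H13.W Pool.Agent.H33.Q1 Pool.Agent.H99.W
open Pool.Agent.H21.W

variable {D : Set (ℤ × ℤ)} {w : Finset (ℤ × ℤ)} {H : SimpleGraph (ℤ × ℤ)} {x y y1 y2 Y : ℤ} {p : Bool}

/-- all steps of the tile `(x, y)` belong to `H` -/
def Stp (D : Set (ℤ × ℤ)) (w : Finset (ℤ × ℤ)) (H : SimpleGraph (ℤ × ℤ)) (x y : ℤ) : Prop :=
  ∀ c d, TJ D w (lt (x, y)) c d → H.Adj c d

lemma al_s (h : lt (x, y) ∈ w ↔ p = true) (h2 : p = true ↔ (x + y) % 2 = 0) : Al w x y := by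
  unfold Al; rw [h]; exact h2

lemma be_s (h : lt (x, y) ∈ w ↔ p = true) (h2 : ¬ (p = true ↔ (x + y) % 2 = 0)) : ¬ Al w x y := by
  unfold Al; rw [h]; exact h2

/-! ### The interface along a vertical line -/

/-- the tiles of a vertical line -/
def Lin (x y1 y2 : ℤ) : Set (ℤ × ℤ) :=
  {e | ∃ y, y1 ≤ y ∧ y < y2 ∧ (e = lt (x - 1, y) ∨ e = lt (x, y))}

lemma lin_le (hs : ∀ y, y1 ≤ y → y < y2 → Stp D w H (x - 1) y ∧ Stp D w H x y) :
    SG (Lin x y1 y2) D w ≤ H := by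
  rintro c d ⟨e, ⟨y, h1, h2, rfl | rfl⟩, h⟩
  · exact (hs y h1 h2).1 _ _ h
  · exact (hs y h1 h2).2 _ _ h

/-- the interface between `p` (left) and `!p` (right) -/
lemma lad_H (h12 : y1 ≤ y2) (hs : ∀ y, y1 ≤ y → y < y2 → Stp D w H (x - 1) y ∧ Stp D w H x y)
    (hD : ∀ y, y1 ≤ y → y < y2 → lt (x - 1, y) ∉ D ∧ lt (x, y) ∉ D)
    (hw : ∀ y, y1 ≤ y → y < y2 → (lt (x - 1, y) ∈ w ↔ p = true) ∧ (lt (x, y) ∈ w ↔ p = false)) :
    H.Reachable (lad x y1 (ladt p x y1)) (lad x y2 (ladt p x y2)) :=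
  (ladder_v (Λ := Lin x y1 y2) h12 (fun y h1 h2 => ⟨⟨y, h1, h2, Or.inl rfl⟩, ⟨y, h1, h2, Or.inr rfl⟩⟩)
    hD hw).mono (lin_le hs)

/-- end of the interface at the upper corner `(x, y2)` of a gap, colours `p` (left) and `!p` (right) -/
def eU (p : Bool) (x y2 : ℤ) : ℤ × ℤ := if p = false then eS (lt (x - 1, y2)) else eW (lt (x, y2 - 1))

/-- end of the interface at the lower corner `(x, y1)` of a gap -/
def eL (p : Bool) (x y1 : ℤ) : ℤ × ℤ := if p = false then eS (lt (x - 1, y1)) else eW (lt (x, y1))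

lemma eE_lt' (x y : ℤ) : eE (lt (x - 1, y)) = eW (lt (x, y)) := by rw [eE_lt, sub_add_cancel]

lemma eN_lt' (x y : ℤ) : eN (lt (x, y - 1)) = eS (lt (x, y)) := by rw [eN_lt, sub_add_cancel]

/-- the steps of the wall tile `(x, y)` which do not touch its north side -/
def StpN (D : Set (ℤ × ℤ)) (w : Finset (ℤ × ℤ)) (H : SimpleGraph (ℤ × ℤ)) (x y : ℤ) : Prop :=
  ∀ c d, TJ D w (lt (x, y)) c d → c ≠ eN (lt (x, y)) → d ≠ eN (lt (x, y)) → H.Adj c d

/-- the steps of the wall tile `(x, y)` which do not touch its south side -/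
def StpS (D : Set (ℤ × ℤ)) (w : Finset (ℤ × ℤ)) (H : SimpleGraph (ℤ × ℤ)) (x y : ℤ) : Prop :=
  ∀ c d, TJ D w (lt (x, y)) c d → c ≠ eS (lt (x, y)) → d ≠ eS (lt (x, y)) → H.Adj c d

/-- last step at the upper corner -/
lemma up_end (he : (x + y2) % 2 = 0) (s1 : Stp D w H (x - 1) (y2 - 1)) (s2 : StpN D w H x (y2 - 1))
    (d1 : lt (x - 1, y2 - 1) ∉ D) (d2 : lt (x, y2 - 1) ∉ D)
    (w1 : lt (x - 1, y2 - 1) ∈ w ↔ p = true) (w2 : lt (x, y2 - 1) ∈ w ↔ p = false) :
    H.Reachable (lad x (y2 - 1) (ladt p x (y2 - 1))) (eU p x y2) := by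
  have e1 : ladt p x (y2 - 1) = p := by
    unfold ladt
    rw [decide_eq_true (by omega)]; cases p <;> rfl
  rw [e1]
  cases p
  · have a1 : ¬ Al w (x - 1) (y2 - 1) := be_s w1 (by simp; omega)
    have a2 : ¬ Al w x (y2 - 1) := by
      unfold Al
      simp only [iff_true] at w2
      intro h
      have := h.1 w2
      omega
    have t1 := (TJ_be d1 a1).2
    have t2 := (TJ_be d2 a2).1
    rw [eE_lt', eN_lt'] at t1
    have n1 := sides_ne (lt (x, y2 - 1))
    exact (s2 _ _ t2.symm n1.2.2.2.2.1 n1.2.2.1).reachable.trans (s1 _ _ t1.symm).reachable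
  · have a1 : Al w (x - 1) (y2 - 1) := al_s w1 (by simp; omega)
    have t1 := (TJ_al d1 a1).2
    rw [eE_lt'] at t1
    exact (s1 _ _ t1).reachable

/-- first step at the lower corner -/
lemma lo_end (he : (x + y1) % 2 = 0) (s1 : Stp D w H (x - 1) y1) (s2 : StpS D w H x y1)
    (d1 : lt (x - 1, y1) ∉ D) (d2 : lt (x, y1) ∉ D)
    (w1 : lt (x - 1, y1) ∈ w ↔ p = true) (w2 : lt (x, y1) ∈ w ↔ p = false) :
    H.Reachable (eL p x y1) (lad x (y1 + 1) (ladt p x (y1 + 1))) := by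
  have e1 : ladt p x (y1 + 1) = p := by
    unfold ladt
    rw [decide_eq_true (by omega)]; cases p <;> rfl
  rw [e1]
  cases p
  · have a1 : Al w (x - 1) y1 := al_s w1 (by simp; omega)
    have a2 : Al w x y1 := by
      unfold Al
      simp only [iff_true] at w2
      exact ⟨fun _ => he, fun _ => w2⟩
    have t1 := (TJ_al d1 a1).2
    have t2 := (TJ_al d2 a2).1
    rw [eE_lt'] at t1
    rw [eN_lt] at t2
    have n1 := sides_ne (lt (x, y1))
    exact (s1 _ _ t1).reachable.trans (s2 _ _ t2 n1.1 (by rw [← eN_lt]; exact n1.2.2.2.2.1.symm)).reachable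
  · have a1 : ¬ Al w (x - 1) y1 := be_s w1 (by simp; omega)
    have t1 := (TJ_be d1 a1).2
    rw [eE_lt', eN_lt] at t1
    exact (s1 _ _ t1.symm).reachable

/-- **Gap without deleted row.** Rows `y1 ≤ y < y2`, colours `p` (left), `!p` (right). -/
theorem gap_nat (he1 : (x + y1) % 2 = 0) (he2 : (x + y2) % 2 = 0) (h12 : y1 + 1 < y2)
    (hs : ∀ y, y1 < y → y < y2 - 1 → Stp D w H x y) (hs' : ∀ y, y1 ≤ y → y < y2 → Stp D w H (x - 1) y)
    (s1 : StpS D w H x y1) (s2 : StpN D w H x (y2 - 1))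
    (hD : ∀ y, y1 ≤ y → y < y2 → lt (x - 1, y) ∉ D ∧ lt (x, y) ∉ D)
    (hw : ∀ y, y1 ≤ y → y < y2 → (lt (x - 1, y) ∈ w ↔ p = true) ∧ (lt (x, y) ∈ w ↔ p = false)) :
    H.Reachable (eL p x y1) (eU p x y2) := by
  have k1 := lo_end he1 (hs' y1 le_rfl (by omega)) s1 (hD y1 le_rfl (by omega)).1
    (hD y1 le_rfl (by omega)).2 (hw y1 le_rfl (by omega)).1 (hw y1 le_rfl (by omega)).2
  have k2 := up_end he2 (hs' (y2 - 1) (by omega) (by omega)) s2 (hD (y2 - 1) (by omega) (by omega)).1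
    (hD (y2 - 1) (by omega) (by omega)).2 (hw (y2 - 1) (by omega) (by omega)).1
    (hw (y2 - 1) (by omega) (by omega)).2
  refine (k1.trans ?_).trans k2
  exact lad_H (by omega) (fun y h1 h2 => ⟨hs' y (by omega) (by omega), hs y (by omega) h2⟩)
    (fun y h1 h2 => hD y (by omega) (by omega)) (fun y h1 h2 => hw y (by omega) (by omega))

/-- from the lower corner up to the row `Y` -/
theorem gap_low (he1 : (x + y1) % 2 = 0) (hY : y1 < Y)
    (hs : ∀ y, y1 < y → y < Y → Stp D w H x y) (hs' : ∀ y, y1 ≤ y → y < Y → Stp D w H (x - 1) y)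
    (s1 : StpS D w H x y1)
    (hD : ∀ y, y1 ≤ y → y < Y → lt (x - 1, y) ∉ D ∧ lt (x, y) ∉ D)
    (hw : ∀ y, y1 ≤ y → y < Y → (lt (x - 1, y) ∈ w ↔ p = true) ∧ (lt (x, y) ∈ w ↔ p = false)) :
    H.Reachable (eL p x y1) (lad x Y (ladt p x Y)) := by
  have k1 := lo_end he1 (hs' y1 le_rfl (by omega)) s1 (hD y1 le_rfl (by omega)).1
    (hD y1 le_rfl (by omega)).2 (hw y1 le_rfl (by omega)).1 (hw y1 le_rfl (by omega)).2
  refine k1.trans ?_
  exact lad_H (by omega) (fun y h1 h2 => ⟨hs' y (by omega) (by omega), hs y (by omega) h2⟩)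
    (fun y h1 h2 => hD y (by omega) (by omega)) (fun y h1 h2 => hw y (by omega) (by omega))

/-- from the row `Y` up to the upper corner -/
theorem gap_up (he2 : (x + y2) % 2 = 0) (hY : Y < y2)
    (hs : ∀ y, Y ≤ y → y < y2 - 1 → Stp D w H x y) (hs' : ∀ y, Y ≤ y → y < y2 → Stp D w H (x - 1) y)
    (s2 : StpN D w H x (y2 - 1))
    (hD : ∀ y, Y ≤ y → y < y2 → lt (x - 1, y) ∉ D ∧ lt (x, y) ∉ D)
    (hw : ∀ y, Y ≤ y → y < y2 → (lt (x - 1, y) ∈ w ↔ p = true) ∧ (lt (x, y) ∈ w ↔ p = false)) :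
    H.Reachable (lad x Y (ladt p x Y)) (eU p x y2) := by
  have k2 := up_end he2 (hs' (y2 - 1) (by omega) (by omega)) s2 (hD (y2 - 1) (by omega) (by omega)).1
    (hD (y2 - 1) (by omega) (by omega)).2 (hw (y2 - 1) (by omega) (by omega)).1
    (hw (y2 - 1) (by omega) (by omega)).2
  refine SimpleGraph.Reachable.trans ?_ k2
  exact lad_H (by omega) (fun y h1 h2 => ⟨hs' y (by omega) (by omega), hs y (by omega) (by omega)⟩)
    (fun y h1 h2 => hD y (by omega) (by omega)) (fun y h1 h2 => hw y (by omega) (by omega))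

/-- one step through the deleted row -/
lemma del_H {t : Bool} (s1 : Stp D w H (x - 1) Y) (s2 : Stp D w H x Y)
    (d1 : lt (x - 1, Y) ∈ D) (d2 : lt (x, Y) ∈ D) : H.Reachable (lad x Y t) (lad x (Y + 1) t) :=
  (lad_del (Λ := Lin x Y (Y + 1)) ⟨Y, le_rfl, by omega, Or.inl rfl⟩ ⟨Y, le_rfl, by omega, Or.inr rfl⟩ d1
    d2).mono (lin_le fun y h1 h2 => by
      have e : y = Y := by omega
      rw [e]; exact ⟨s1, s2⟩)

/-- **The strand of a mark behind which the row `Y` is deleted**: it comes from below if the lower colours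
differ (`p` left, `q` right) and from above otherwise (left colour `!p`). -/
theorem mark_low {q : Bool} (hpq : p ≠ q)
    (s1 : Stp D w H (x - 1) Y) (s2 : Stp D w H x Y) (s3 : Stp D w H (x - 1) (Y + 1))
    (s4 : Stp D w H x (Y + 1)) (d1 : lt (x - 1, Y) ∈ D) (d2 : lt (x, Y) ∉ D)
    (d3 : lt (x - 1, Y + 1) ∉ D) (d4 : lt (x, Y + 1) ∉ D) (w2 : lt (x, Y) ∈ w ↔ q = true)
    (w3 : lt (x - 1, Y + 1) ∈ w ↔ p = false) (w4 : lt (x, Y + 1) ∈ w ↔ q = true) :
    H.Reachable (lad x Y (ladt p x Y)) (eW (lt (x, Y))) := by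
  have hq : q = !p := by cases p <;> cases q <;> simp_all
  subst hq
  cases ht : ladt p x Y
  · -- the right tile
    have ht' : ¬ (p = true ↔ (x + Y) % 2 = 1) := by rw [← ladt_true, ht]; simp
    have a2 : ¬ Al w x Y := by
      refine be_s w2 ?_
      cases p <;> simp at ht' ⊢ <;> omega
    exact (s2 _ _ (TJ_be d2 a2).1.symm).reachable
  · have ht' : p = true ↔ (x + Y) % 2 = 1 := by rw [← ladt_true, ht]
    have a3 : Al w (x - 1) (Y + 1) := by
      unfold Al; rw [w3]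
      cases p <;> simp at ht' ⊢ <;> omega
    have a4 : ¬ Al w x (Y + 1) := by
      refine be_s w4 ?_
      cases p <;> simp at ht' ⊢ <;> omega
    have a2 : Al w x Y := by
      refine al_s w2 ?_
      cases p <;> simp at ht' ⊢ <;> omega
    have t1 := TJ_del (w := w) d1
    have t3 := (TJ_al d3 a3).2
    have t4 := (TJ_be d4 a4).1
    have t2 := (TJ_al d2 a2).1
    rw [eN_lt] at t1 t2
    rw [eE_lt'] at t3
    exact (((s1 _ _ t1).reachable.trans (s3 _ _ t3).reachable).trans (s4 _ _ t4).reachable).trans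
      (s2 _ _ t2.symm).reachable

theorem mark_up {q : Bool} (hpq : p = q)
    (s1 : Stp D w H (x - 1) Y) (s2 : Stp D w H x Y) (s3 : Stp D w H (x - 1) (Y - 1))
    (s4 : Stp D w H x (Y - 1)) (d1 : lt (x - 1, Y) ∈ D) (d2 : lt (x, Y) ∉ D)
    (d3 : lt (x - 1, Y - 1) ∉ D) (d4 : lt (x, Y - 1) ∉ D) (w2 : lt (x, Y) ∈ w ↔ q = true)
    (w3 : lt (x - 1, Y - 1) ∈ w ↔ p = true) (w4 : lt (x, Y - 1) ∈ w ↔ q = true) :
    H.Reachable (lad x (Y + 1) (ladt (!p) x (Y + 1))) (eW (lt (x, Y))) := by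
  subst hpq
  rw [ladt_succ, ladt_not, Bool.not_not]
  cases ht : ladt p x Y
  · have ht' : ¬ (p = true ↔ (x + Y) % 2 = 1) := by rw [← ladt_true, ht]; simp
    have a2 : Al w x Y := by
      refine al_s w2 ?_
      cases p <;> simp at ht' ⊢ <;> omega
    have t2 := (TJ_al d2 a2).1
    rw [eN_lt] at t2
    exact (s2 _ _ t2.symm).reachable
  · have ht' : p = true ↔ (x + Y) % 2 = 1 := by rw [← ladt_true, ht]
    have a3 : ¬ Al w (x - 1) (Y - 1) := by
      refine be_s w3 ?_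
      cases p <;> simp at ht' ⊢ <;> omega
    have a4 : Al w x (Y - 1) := by
      refine al_s w4 ?_
      cases p <;> simp at ht' ⊢ <;> omega
    have a2 : ¬ Al w x Y := by
      refine be_s w2 ?_
      cases p <;> simp at ht' ⊢ <;> omega
    have t1 := TJ_del (w := w) d1
    have t3 := (TJ_be d3 a3).2
    have t4 := (TJ_al d4 a4).1
    have t2 := (TJ_be d2 a2).1
    rw [eN_lt] at t1
    rw [eE_lt', eN_lt'] at t3
    rw [eN_lt'] at t4
    exact (((s1 _ _ t1.symm).reachable.trans (s3 _ _ t3).reachable).trans (s4 _ _ t4).reachable).trans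
      (s2 _ _ t2.symm).reachable

end Pool.Agent.H94.W
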