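import Mathlib
import Pool.Agent.H29.W.RoomG

set_option autoImplicit false

/-! # Room and outside: the connections between the names

`G` a graph of degree at most two (the world), `R ≤ G` the room graph, `I` a set closed under `R` (the sides
which a strand of the room can visit), `p : N → I` the names: the only points of `I` with a step outside of
`R`. `m : N → N` = the outside pattern: `p a` and `p (m a)` are joined outside of the room; `m a = a`: the
strand from `p a` to the outside does not exist or leads to an end which is not in `I`.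
`Pas.reach` : `p a` and `p b` are joined in `G` iff they are joined by a chain of links of `R` and of `m`.
`Pas.reach_out` : points outside of `I`. -/

namespace Pool.Agent.H94.W

open Pool.Agent.H99.W Pool.Agent.H29.W

variable {α N : Type*} {G R : SimpleGraph α} {I : Set α} {p : N → α} {m : N → N}

/-- the steps of `G` which are not steps of the room graph inside `I` -/
def OG (G R : SimpleGraph α) (I : Set α) : SimpleGraph α where
  Adj c d := G.Adj c d ∧ ¬ (R.Adj c d ∧ c ∈ I ∧ d ∈ I)
  symm := ⟨fun _ _ h => ⟨h.1.symm, fun h' => h.2 ⟨h'.1.symm, h'.2.2, h'.2.1⟩⟩⟩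
  loopless := ⟨fun u h => G.loopless.irrefl u h.1⟩

/-- the steps of the room graph inside `I` -/
def IG (R : SimpleGraph α) (I : Set α) : SimpleGraph α where
  Adj c d := R.Adj c d ∧ c ∈ I ∧ d ∈ I
  symm := ⟨fun _ _ h => ⟨h.1.symm, h.2.2, h.2.1⟩⟩
  loopless := ⟨fun u h => R.loopless.irrefl u h.1⟩

lemma OG_le : OG G R I ≤ G := fun _ _ h => h.1
lemma IG_le : IG R I ≤ R := fun _ _ h => h.1

lemma OG_deg (h : Deg2 G) : Deg2 (OG G R I) := fun v a b c ha hb hc => h v a b c ha.1 hb.1 hc.1

lemma OG_end {x : α} (h : IsEnd G x) : IsEnd (OG G R I) x := fun a b ha hb => h a b ha.1 hb.1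

/-- a link: of the room graph or of the outside pattern -/
def Lk (R : SimpleGraph α) (p : N → α) (m : N → N) (a b : N) : Prop :=
  R.Reachable (p a) (p b) ∨ b = m a

/-- chains of links -/
def Ch (R : SimpleGraph α) (p : N → α) (m : N → N) : N → N → Prop := Relation.ReflTransGen (Lk R p m)

/-- **Room and outside.** -/
structure Pas (G R : SimpleGraph α) (I : Set α) (p : N → α) (m : N → N) : Prop where
  deg : Deg2 G
  le : R ≤ G
  mem : ∀ a, p a ∈ I
  inj : ∀ a b, p a = p b → a = b
  cl : ∀ c d, c ∈ I → R.Adj c d → d ∈ I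
  ext : ∀ c d, c ∈ I → G.Adj c d → ¬ R.Adj c d → c ∈ Set.range p
  nb : ∀ a, ∃ d, R.Adj (p a) d
  arc : ∀ a, m a ≠ a → (OG G R I).Reachable (p a) (p (m a))
  fix : ∀ a, m a = a → (∀ d, ¬ (OG G R I).Adj (p a) d) ∨
    ∃ e, e ∉ I ∧ IsEnd G e ∧ (OG G R I).Reachable (p a) e

namespace Pas

variable (H : Pas G R I p m)
include H

lemma sup : IG R I ⊔ OG G R I = G := by
  ext c d
  rw [SimpleGraph.sup_adj]
  constructor
  · rintro (h | h)
    · exact H.le h.1
    · exact h.1
  · intro h
    by_cases h' : R.Adj c d ∧ c ∈ I ∧ d ∈ I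
    · exact Or.inl h'
    · exact Or.inr ⟨h, h'⟩

/-- a step of the outside from a point of `I` starts at a name -/
lemma exit {c d : α} (hc : c ∈ I) (h : (OG G R I).Adj c d) : c ∈ Set.range p :=
  H.ext c d hc h.1 fun h' => h.2 ⟨h', hc, H.cl c d hc h'⟩

/-- the names are ends of the outside -/
lemma isEnd_name (a : N) : IsEnd (OG G R I) (p a) := by
  obtain ⟨d, hd⟩ := H.nb a
  intro x y hx hy
  rcases H.deg _ _ _ _ (H.le hd) hx.1 hy.1 with h | h | h
  · exact absurd ⟨h ▸ hd, H.mem a, H.cl _ _ (H.mem a) (h ▸ hd)⟩ hx.2
  · exact absurd ⟨h ▸ hd, H.mem a, H.cl _ _ (H.mem a) (h ▸ hd)⟩ hy.2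
  · exact h

/-- two names which are joined outside -/
lemma out_link {a b : N} (h : (OG G R I).Reachable (p a) (p b)) : b = a ∨ b = m a := by
  by_cases hm : m a = a
  · left
    rcases H.fix a hm with h1 | ⟨e, he, hend, h1⟩
    · by_contra hne
      have hne' : p a ≠ p b := fun h' => hne (H.inj _ _ h').symm
      obtain ⟨d, hd⟩ := exists_adj_of_reach h.symm hne'.symm
      exact h1 _ hd
    · have hne : p a ≠ e := fun h' => he (h' ▸ H.mem a)
      rcases ends_two (OG_deg H.deg) (H.isEnd_name a) (OG_end hend) (H.isEnd_name b) h1 h hne with h2 | h2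
      · exact H.inj _ _ h2
      · exact absurd (h2 ▸ H.mem b) he
  · have hne : p a ≠ p (m a) := fun h' => hm (H.inj _ _ h').symm
    rcases ends_two (OG_deg H.deg) (H.isEnd_name a) (H.isEnd_name (m a)) (H.isEnd_name b)
      (H.arc a hm) h hne with h2 | h2
    · exact Or.inl (H.inj _ _ h2)
    · exact Or.inr (H.inj _ _ h2)

/-- **The connections between the names.** -/
theorem reach {a b : N} : G.Reachable (p a) (p b) ↔ Ch R p m a b := by
  constructor
  · intro h
    have hS : ∀ v x y, (IG R I).Adj v x → (OG G R I).Adj v y → v ∈ Set.range p :=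
      fun v x y hx hy => H.exit hx.2.1 hy
    rw [← H.sup, reach_sup_iff hS ⟨a, rfl⟩ ⟨b, rfl⟩] at h
    have key : ∀ x, Relation.ReflTransGen (fun a b => a ∈ Set.range p ∧ b ∈ Set.range p ∧
        ((IG R I).Reachable a b ∨ (OG G R I).Reachable a b)) (p a) x → ∀ c, p c = x →
        Ch R p m a c := by
      intro x hx
      induction hx with
      | refl =>
        intro c hc
        rw [H.inj _ _ hc]
        exact Relation.ReflTransGen.refl
      | @tail x1 x2 _ hs ih =>
        intro c hc
        obtain ⟨⟨c1, hc1⟩, -, h3⟩ := hs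
        have h4 := ih c1 hc1
        rw [← hc1, ← hc] at h3
        rcases h3 with h3 | h3
        · exact h4.tail (Or.inl (h3.mono IG_le))
        · rcases H.out_link h3 with h5 | h5
          · rw [h5]; exact h4
          · exact h4.tail (Or.inr h5)
    exact key _ h b rfl
  · intro h
    induction h with
    | refl => exact SimpleGraph.Reachable.refl _
    | @tail b c _ hs ih =>
      refine ih.trans ?_
      rcases hs with h | h
      · exact h.mono H.le
      · subst h
        by_cases hm : m b = b
        · rw [hm]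
        · exact (H.arc b hm).mono OG_le

/-- **Points outside of `I`.** -/
theorem reach_out {a : N} {c : α} (hc : c ∉ I) :
    G.Reachable (p a) c ↔ ∃ b, Ch R p m a b ∧ (OG G R I).Reachable (p b) c := by
  constructor
  · rintro ⟨q⟩
    have key : ∀ (u v : α) (_ : G.Walk u v), v ∉ I → (u ∉ I → (OG G R I).Reachable u v ∨
        ∃ b, G.Reachable u (p b) ∧ (OG G R I).Reachable (p b) v) ∧
        (u ∈ I → ∃ b, G.Reachable u (p b) ∧ (OG G R I).Reachable (p b) v) := by
      intro u v q
      induction q with
      | nil => exact fun hv => ⟨fun _ => Or.inl (SimpleGraph.Reachable.refl _), fun h => absurd h hv⟩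
      | @cons u u1 v h _ ih =>
        intro hv
        obtain ⟨i1, i2⟩ := ih hv
        constructor
        · intro hu
          by_cases hu1 : u1 ∈ I
          · obtain ⟨b, k1, k2⟩ := i2 hu1
            exact Or.inr ⟨b, h.reachable.trans k1, k2⟩
          · have ho : (OG G R I).Adj u u1 := ⟨h, fun h' => hu h'.2.1⟩
            rcases i1 hu1 with k | ⟨b, k1, k2⟩
            · exact Or.inl (ho.reachable.trans k)
            · exact Or.inr ⟨b, h.reachable.trans k1, k2⟩
        · intro hu
          by_cases hu1 : u1 ∈ I
          · obtain ⟨b, k1, k2⟩ := i2 hu1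
            exact ⟨b, h.reachable.trans k1, k2⟩
          · have ho : (OG G R I).Adj u u1 := ⟨h, fun h' => hu1 h'.2.2⟩
            obtain ⟨b, rfl⟩ := H.exit hu ho
            rcases i1 hu1 with k | ⟨b', k1, k2⟩
            · exact ⟨b, SimpleGraph.Reachable.refl _, ho.reachable.trans k⟩
            · exact ⟨b', h.reachable.trans k1, k2⟩
    obtain ⟨b, k1, k2⟩ := (key _ _ q hc).2 (H.mem a)
    exact ⟨b, H.reach.1 k1, k2⟩
  · rintro ⟨b, k1, k2⟩
    exact (H.reach.2 k1).trans (k2.mono OG_le)

/-- an end which is not in `I` and which is not the outside end of a name is joined to no name -/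
theorem not_out {a : N} {c : α} (hc : c ∉ I) (he : IsEnd G c)
    (h : ∀ b, m b = b → ¬ (OG G R I).Reachable (p b) c) : ¬ G.Reachable (p a) c := by
  rw [H.reach_out hc]
  rintro ⟨b, -, k⟩
  by_cases hm : m b = b
  · exact h b hm k
  · have hne : p b ≠ p (m b) := fun h' => hm (H.inj _ _ h').symm
    rcases ends_two (OG_deg H.deg) (H.isEnd_name b) (H.isEnd_name (m b)) (OG_end he)
      (H.arc b hm) k hne with h2 | h2
    · exact hc (h2 ▸ H.mem b)
    · exact hc (h2 ▸ H.mem (m b))

/-- the outside end of a name -/
theorem reach_end {a b : N} {e : α} (he : (OG G R I).Reachable (p b) e) :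
    G.Reachable (p a) e ↔ Ch R p m a b := by
  rw [← H.reach]
  exact ⟨fun h => h.trans (he.mono OG_le).symm, fun h => h.trans (he.mono OG_le)⟩

end Pas

/-! ### The arcs as edges -/

/-- the graph of the arcs between the names -/
def AG (p : N → α) (m : N → N) : SimpleGraph α := SimpleGraph.fromRel fun x y => ∃ a, x = p a ∧ y = p (m a)

/-- **Room graph with arcs = chains of links.** -/
theorem reach_AG (inj : ∀ a b, p a = p b → a = b) (inv : ∀ a, m (m a) = a) {a b : N} :
    (R ⊔ AG p m).Reachable (p a) (p b) ↔ Ch R p m a b := by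
  have hadj : ∀ x y, (AG p m).Adj x y → ∃ a, x = p a ∧ y = p (m a) := by
    intro x y h
    unfold AG at h
    rw [SimpleGraph.fromRel_adj] at h
    rcases h with ⟨-, h | ⟨a, h1, h2⟩⟩
    · exact h
    · exact ⟨m a, h2, by rw [inv, h1]⟩
  constructor
  · intro h
    have hS : ∀ v x y, R.Adj v x → (AG p m).Adj v y → v ∈ Set.range p := fun v x y _ hy => by
      obtain ⟨a, h1, -⟩ := hadj _ _ hy
      exact ⟨a, h1.symm⟩
    rw [reach_sup_iff hS ⟨a, rfl⟩ ⟨b, rfl⟩] at h
    have key : ∀ x, Relation.ReflTransGen (fun a b => a ∈ Set.range p ∧ b ∈ Set.range p ∧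
        (R.Reachable a b ∨ (AG p m).Reachable a b)) (p a) x → ∀ c, p c = x → Ch R p m a c := by
      intro x hx
      induction hx with
      | refl =>
        intro c hc
        rw [inj _ _ hc]
        exact Relation.ReflTransGen.refl
      | @tail x1 x2 _ hs ih =>
        intro c hc
        obtain ⟨⟨c1, hc1⟩, -, h3⟩ := hs
        have h4 := ih c1 hc1
        rw [← hc1, ← hc] at h3
        rcases h3 with h3 | h3
        · exact h4.tail (Or.inl h3)
        · obtain ⟨q⟩ := h3
          have walk : ∀ (u v : α) (_ : (AG p m).Walk u v), ∀ c1, u = p c1 → ∀ c, v = p c →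
              Ch R p m c1 c := by
            intro u v q
            induction q with
            | nil =>
              intro c1 h1 c h2
              rw [inj _ _ (h1.symm.trans h2)]
              exact Relation.ReflTransGen.refl
            | @cons u u1 v h _ ih =>
              intro c1 h1 c h2
              obtain ⟨a', k1, k2⟩ := hadj _ _ h
              have : a' = c1 := inj _ _ (k1.symm.trans h1)
              subst this
              exact Relation.ReflTransGen.head (Or.inr rfl) (ih _ k2 _ h2)
          exact h4.trans (walk _ _ q c1 rfl c rfl)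
    exact key _ h b rfl
  · intro h
    induction h with
    | refl => exact SimpleGraph.Reachable.refl _
    | @tail b c _ hs ih =>
      refine ih.trans ?_
      rcases hs with h | h
      · exact h.mono le_sup_left
      · subst h
        by_cases hm : p b = p (m b)
        · rw [← hm]
        · refine SimpleGraph.Adj.reachable ?_
          rw [SimpleGraph.sup_adj]
          right
          unfold AG
          rw [SimpleGraph.fromRel_adj]
          exact ⟨hm, Or.inl ⟨b, rfl, rfl⟩⟩

end Pool.Agent.H94.W
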