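import Mathlib
import Pool.Agent.H94.W.Pas
import Pool.Agent.H94.W.JLad
import Pool.Agent.H45.W.Ends
import Pool.Agent.H25.W.JY0
import Pool.Agent.H21.W.RoomIn
import Pool.Agent.H29.W.RoomP

set_option autoImplicit false
open Finset

/-! # The room of a world: from the local facts of helper29 to `Pas`

`RmA C c0 n v ω A` : what is used of the room graph: `A` = the sides which a strand of the room can visit.
`IW s A` : the same sides in the world (moved by `s` rows). `pas_of` : room and outside, given the arcs. -/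

namespace Pool.Agent.H94.W

open Pool.Agent.H75.Perc Pool.Agent.H75.TwoArm Pool.Agent.H13.W Pool.Agent.H33.Q1 Pool.Agent.H99.W
open Pool.Agent.H21.W Pool.Agent.H20.W Pool.Agent.H45.W
open Pool.Agent.H54.W (CD)
open Pool.Agent.H25.W (Na Nm crn MkF mem_MkF)

/-- the side `c` has an end point which is a corner of the tile `(x, y)` -/
def Tch (c : ℤ × ℤ) (x y : ℤ) : Prop := ∃ P, ev P ∧ sq c P ∧ ∃ c', sq c' (lt (x, y)) ∧ sq c' P

/-- **What is used of the room graph.** -/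
structure RmA (C : CD) (c0 : Bool) (n : ℤ) (v : ℤ × ℤ) (ω : Finset (ℤ × ℤ)) (A : Set (ℤ × ℤ)) : Prop where
  mem : ∀ a, crn C c0 n v a ∈ A
  inj : ∀ a b, crn C c0 n v a = crn C c0 n v b → a = b
  cl : ∀ c d, c ∈ A → (GR C c0 n v ω).Adj c d → d ∈ A
  nb : ∀ a, ∃ d, (GR C c0 n v ω).Adj (crn C c0 n v a) d
  ext : ∀ c ∈ A, ∀ e, od e → sq c e → e ∉ LR C n (crz c0 v.2) → c ∈ Set.range (crn C c0 n v)
  pt : ∀ c ∈ A, ∃ x y, RP C n x y ∧ Tch c x y

/-- the visited sides in the world -/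
def IW (s : ℤ) (A : Set (ℤ × ℤ)) : Set (ℤ × ℤ) := {c | tr s (-s) c ∈ A}

/-- the named corners in the world -/
def pW (C : CD) (c0 : Bool) (n s : ℤ) (v : ℤ × ℤ) (a : Na C c0) : ℤ × ℤ := tr (-s) s (crn C c0 n v a)

variable {C : CD} {c0 : Bool} {n s : ℤ} {v : ℤ × ℤ} {ω w : Finset (ℤ × ℤ)} {A Λ D : Set (ℤ × ℤ)}
  {cr : ℤ → Bool} {x y : ℤ} {c d e : ℤ × ℤ}

lemma tr_back (s : ℤ) (c : ℤ × ℤ) : tr s (-s) (tr (-s) s c) = c := by
  unfold tr; refine Prod.ext ?_ ?_ <;> simp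

lemma tr_forth (s : ℤ) (c : ℤ × ℤ) : tr (-s) s (tr s (-s) c) = c := by
  unfold tr; refine Prod.ext ?_ ?_ <;> simp

lemma mem_IW : tr (-s) s c ∈ IW s A ↔ c ∈ A := by unfold IW; rw [Set.mem_ofPred_eq, tr_back]

/-- the room graph in the world -/
def RG (C : CD) (c0 : Bool) (n s : ℤ) (v : ℤ × ℤ) (D : Set (ℤ × ℤ)) (w ω : Finset (ℤ × ℤ)) :
    SimpleGraph (ℤ × ℤ) :=
  SG (RoomIn.part C n s (crz c0 v.2)) D (w ∪ trF (-s) s ω)

/-- the world -/
def WG (Λ D : Set (ℤ × ℤ)) (s : ℤ) (w ω : Finset (ℤ × ℤ)) : SimpleGraph (ℤ × ℤ) :=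
  SG Λ D (w ∪ trF (-s) s ω)

section

variable (h : RoomIn C n s (crz c0 v.2) v.1 v.2 Λ D w) (hω : ω ⊆ ER C n)

include h hω

/-- the room graph, moved -/
lemma RG_adj : (RG C c0 n s v D w ω).Adj (tr (-s) s c) (tr (-s) s d) ↔ (GR C c0 n v ω).Adj c d :=
  (h.sym hω).adj

lemma RG_adj' : (RG C c0 n s v D w ω).Adj c d ↔ (GR C c0 n v ω).Adj (tr s (-s) c) (tr s (-s) d) := by
  rw [← RG_adj h hω, tr_forth, tr_forth]

lemma RG_reach : (RG C c0 n s v D w ω).Reachable (tr (-s) s c) (tr (-s) s d) ↔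
    (GR C c0 n v ω).Reachable c d := h.reach hω

omit hω in
lemma RG_le : RG C c0 n s v D w ω ≤ WG Λ D s w ω := by
  rintro c d ⟨e, he, h1⟩
  exact ⟨e, h.part_sub he, h1⟩

omit h hω in
/-- a step through a tile outside of the room graph is not a step of the room graph -/
lemma not_RG (he : e ∉ RoomIn.part C n s (crz c0 v.2)) (h1 : TJ D (w ∪ trF (-s) s ω) e c d) :
    ¬ (RG C c0 n s v D w ω).Adj c d := by
  rintro ⟨e', he', h2⟩
  obtain ⟨a1, a2, a3⟩ := TJ.sqs h1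
  obtain ⟨b1, b2, b3⟩ := TJ.sqs h2
  by_cases hee : e = e'
  · exact he (hee ▸ he')
  · exact h1.ne (side_uniq a1 b1 hee a2 b2 a3 b3)

omit h hω in
/-- the steps of a tile outside of the room graph -/
lemma stp_of (hΛ : lt (x, y) ∈ Λ) (he : lt (x, y) ∉ RoomIn.part C n s (crz c0 v.2)) :
    Stp D (w ∪ trF (-s) s ω) (OG (WG Λ D s w ω) (RG C c0 n s v D w ω) (IW s A)) x y :=
  fun _ _ h1 => ⟨⟨_, hΛ, h1⟩, fun h2 => not_RG he h1 h2.1⟩

omit h hω in
/-- the steps of a wall tile which do not touch its inner side -/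
lemma stpN_of (hΛ : lt (x, y) ∈ Λ) (hD : lt (x, y) ∉ D) (hS : eS (lt (x, y)) ∉ IW s A) :
    StpN D (w ∪ trF (-s) s ω) (OG (WG Λ D s w ω) (RG C c0 n s v D w ω) (IW s A)) x y := by
  intro c d h1 hc hd
  refine ⟨⟨_, hΛ, h1⟩, fun h2 => ?_⟩
  by_cases ha : Al (w ∪ trF (-s) s ω) x y
  · rcases (TJ_iff_al hD ha).1 h1 with ⟨-, k⟩ | ⟨k, -⟩ | ⟨k, -⟩ | ⟨-, k⟩
    · exact hd k
    · exact hc k
    · exact hS (k ▸ h2.2.1)
    · exact hS (k ▸ h2.2.2)
  · rcases (TJ_iff_be hD ha).1 h1 with ⟨-, k⟩ | ⟨k, -⟩ | ⟨k, -⟩ | ⟨-, k⟩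
    · exact hS (k ▸ h2.2.2)
    · exact hS (k ▸ h2.2.1)
    · exact hc k
    · exact hd k

omit h hω in
lemma stpS_of (hΛ : lt (x, y) ∈ Λ) (hD : lt (x, y) ∉ D) (hS : eN (lt (x, y)) ∉ IW s A) :
    StpS D (w ∪ trF (-s) s ω) (OG (WG Λ D s w ω) (RG C c0 n s v D w ω) (IW s A)) x y := by
  intro c d h1 hc hd
  refine ⟨⟨_, hΛ, h1⟩, fun h2 => ?_⟩
  by_cases ha : Al (w ∪ trF (-s) s ω) x y
  · rcases (TJ_iff_al hD ha).1 h1 with ⟨-, k⟩ | ⟨k, -⟩ | ⟨k, -⟩ | ⟨-, k⟩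
    · exact hS (k ▸ h2.2.2)
    · exact hS (k ▸ h2.2.1)
    · exact hc k
    · exact hd k
  · rcases (TJ_iff_be hD ha).1 h1 with ⟨-, k⟩ | ⟨k, -⟩ | ⟨k, -⟩ | ⟨-, k⟩
    · exact hd k
    · exact hc k
    · exact hS (k ▸ h2.2.1)
    · exact hS (k ▸ h2.2.2)

variable (R : RmA C c0 n v ω A)

include R

/-- **a named corner one of whose tiles is not passed has no outside step** -/
lemma fix_of {a : Na C c0} (he : od e) (hs : sq (pW C c0 n s v a) e)
    (hn : ∀ d, e ∈ Λ → ¬ TJ D (w ∪ trF (-s) s ω) e (pW C c0 n s v a) d) :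
    ∀ d, ¬ (OG (WG Λ D s w ω) (RG C c0 n s v D w ω) (IW s A)).Adj (pW C c0 n s v a) d := by
  rintro d ⟨⟨e', he', h1⟩, h2⟩
  apply h2
  obtain ⟨d', hd'⟩ := R.nb a
  rw [← RG_adj h hω] at hd'
  obtain ⟨e2, he2, h3⟩ := hd'
  obtain ⟨a1, a2, -⟩ := TJ.sqs h1
  obtain ⟨b1, b2, -⟩ := TJ.sqs h3
  have k1 : e' = ot (pW C c0 n s v a) e := by
    rcases lab_cases' he hs a1 a2 with k | k
    · exact absurd (k ▸ h1) (hn d (k ▸ he'))
    · exact k
  have k2 : e2 = ot (pW C c0 n s v a) e := by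
    rcases lab_cases' he hs b1 b2 with k | k
    · exact absurd (k ▸ h3) (hn _ (k ▸ h.part_sub he2))
    · exact k
  have hR : (RG C c0 n s v D w ω).Adj (pW C c0 n s v a) d := ⟨e', by rw [k1, ← k2]; exact he2, h1⟩
  refine ⟨hR, mem_IW.2 (R.mem a), ?_⟩
  have h4 := (RG_adj' h hω).1 hR
  exact R.cl _ _ (mem_IW.2 (R.mem a)) h4

/-- **Room and outside of a world.** -/
theorem pas_of {m : Na C c0 → Na C c0}
    (arc : ∀ a, m a ≠ a → (OG (WG Λ D s w ω) (RG C c0 n s v D w ω) (IW s A)).Reachable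
      (pW C c0 n s v a) (pW C c0 n s v (m a)))
    (fix : ∀ a, m a = a → (∀ d, ¬ (OG (WG Λ D s w ω) (RG C c0 n s v D w ω) (IW s A)).Adj
      (pW C c0 n s v a) d) ∨ ∃ e, e ∉ IW s A ∧ IsEnd (WG Λ D s w ω) e ∧
        (OG (WG Λ D s w ω) (RG C c0 n s v D w ω) (IW s A)).Reachable (pW C c0 n s v a) e) :
    Pas (WG Λ D s w ω) (RG C c0 n s v D w ω) (IW s A) (pW C c0 n s v) m where
  deg := SG_deg2
  le := RG_le h
  mem a := mem_IW.2 (R.mem a)
  inj a b hab := R.inj a b (tr_injective _ _ hab)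
  cl c d hc hR := R.cl _ _ hc ((RG_adj' h hω).1 hR)
  ext c d hc hG hR := by
    obtain ⟨e, he, h1⟩ := hG
    have hp : e ∉ RoomIn.part C n s (crz c0 v.2) := fun h2 => hR ⟨e, h2, h1⟩
    obtain ⟨a1, a2, -⟩ := TJ.sqs h1
    have h2 : tr s (-s) e ∉ LR C n (crz c0 v.2) := by
      intro h3
      apply hp
      unfold RoomIn.part
      rw [mem_trS]
      have : tr (- -s) (-s) e = tr s (-s) e := by rw [neg_neg]
      rw [this]; exact h3
    have h3 : od (tr s (-s) e) := by unfold od tr at *; simp only; omega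
    have h4 : sq (tr s (-s) c) (tr s (-s) e) := by
      unfold Pool.Agent.H45.W.sq tr at *; simp only; omega
    obtain ⟨a, ha⟩ := R.ext _ hc _ h3 h4 h2
    exact ⟨a, by unfold pW; rw [ha, tr_forth]⟩
  nb a := by
    obtain ⟨d, hd⟩ := R.nb a
    exact ⟨_, (RG_adj h hω).2 hd⟩
  arc := arc
  fix := fix

omit R in
/-- the chains in the world are those of the room graph -/
lemma ch_iff {m : Na C c0 → Na C c0} {a b : Na C c0} :
    Ch (RG C c0 n s v D w ω) (pW C c0 n s v) m a b ↔ Ch (GR C c0 n v ω) (crn C c0 n v) m a b := by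
  have : Lk (RG C c0 n s v D w ω) (pW C c0 n s v) m = Lk (GR C c0 n v ω) (crn C c0 n v) m := by
    funext a b
    unfold Lk pW
    rw [RG_reach h hω]
  unfold Ch
  rw [this]

end

/-! ### Arcs between the marks -/

/-- a map of the marks as a map of the names -/
noncomputable def thm (C : CD) (c0 : Bool) (m : ℤ → ℤ) : Na C c0 → Na C c0
  | none => none
  | some k => if h : m k.1 ∈ MkF C c0 then some ⟨m k.1, h⟩ else some k

/-- `m` is an involution of the marks -/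
structure Inv (C : CD) (c0 : Bool) (m : ℤ → ℤ) : Prop where
  mm : ∀ k, Mk C c0 k → Mk C c0 (m k)
  inv : ∀ k, Mk C c0 k → m (m k) = k

lemma thm_some {m : ℤ → ℤ} (hm : Inv C c0 m) (k : Nm C c0) :
    thm C c0 m (some k) = some ⟨m k.1, (mem_MkF C c0).2 (hm.mm _ ((mem_MkF C c0).1 k.2))⟩ := by
  have h1 : m k.1 ∈ MkF C c0 := (mem_MkF C c0).2 (hm.mm _ ((mem_MkF C c0).1 k.2))
  change (if h : m k.1 ∈ MkF C c0 then some ⟨m k.1, h⟩ else some k) = _
  rw [dif_pos h1]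

lemma thm_inv {m : ℤ → ℤ} (hm : Inv C c0 m) (a : Na C c0) : thm C c0 m (thm C c0 m a) = a := by
  cases a with
  | none => rfl
  | some k =>
    rw [thm_some hm, thm_some hm]
    simp only [Option.some.injEq]
    exact Subtype.ext (hm.inv _ ((mem_MkF C c0).1 k.2))

/-- the arcs as a graph -/
def ArG (C : CD) (c0 : Bool) (n : ℤ) (m : ℤ → ℤ) : SimpleGraph (ℤ × ℤ) :=
  SimpleGraph.fromRel fun a b => ∃ k, Mk C c0 k ∧ a = nm C c0 n k ∧ b = nm C c0 n (m k)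

/-- **room graph with arcs** -/
theorem arc_reach (inj : ∀ a b, crn C c0 n v a = crn C c0 n v b → a = b) {m : ℤ → ℤ} (hm : Inv C c0 m)
    {a b : Na C c0} :
    (GR C c0 n v ω ⊔ ArG C c0 n m).Reachable (crn C c0 n v a) (crn C c0 n v b) ↔
      Ch (GR C c0 n v ω) (crn C c0 n v) (thm C c0 m) a b := by
  have e : ArG C c0 n m = AG (crn C c0 n v) (thm C c0 m) := by
    ext x y
    unfold ArG AG
    rw [SimpleGraph.fromRel_adj, SimpleGraph.fromRel_adj]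
    have key : ∀ x y : ℤ × ℤ, x ≠ y → ((∃ k, Mk C c0 k ∧ x = nm C c0 n k ∧ y = nm C c0 n (m k)) ↔
        ∃ a : Na C c0, x = crn C c0 n v a ∧ y = crn C c0 n v (thm C c0 m a)) := by
      intro x y hne
      constructor
      · rintro ⟨k, hk, rfl, rfl⟩
        refine ⟨some ⟨k, (mem_MkF C c0).2 hk⟩, rfl, ?_⟩
        rw [thm_some hm]
        rfl
      · rintro ⟨a, rfl, rfl⟩
        cases a with
        | none => exact absurd rfl hne
        | some k =>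
          refine ⟨k.1, (mem_MkF C c0).1 k.2, rfl, ?_⟩
          rw [thm_some hm]
          rfl
    constructor
    · rintro ⟨hne, h⟩
      exact ⟨hne, h.imp (key x y hne).1 (key y x hne.symm).1⟩
    · rintro ⟨hne, h⟩
      exact ⟨hne, h.imp (key x y hne).2 (key y x hne.symm).2⟩
  rw [e]
  exact reach_AG inj (thm_inv hm)

/-! ### helper29's facts -/

open Pool.Agent.H29.W in
/-- **The room graph.** -/
theorem rmA_of (hn : 8 ≤ n) (he : n % 2 = 0) (hr0 : 0 < v.2) (hr1 : v.2 + 1 < n * C.H)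
    (hx0 : n * C.A (v.2 / n) ≤ v.1) (hx1 : v.1 ≤ n * C.W) (hω : ω ⊆ ER C n) :
    RmA C c0 n v ω (Inn C n (crz c0 v.2) v.1 v.2 c0 ω) := by
  have hc : CrOk (crz c0 v.2) c0 v.2 := by
    refine ⟨fun y hy => ?_, fun y hy => ?_⟩
    · unfold crz; rw [if_pos hy]
    · unfold crz; rw [if_neg (by omega)]
  have hW := wld_room hn he hc hr0 hr1 hx0 hx1 hω
  have hMk : ∀ k : Nm C c0, Mk C c0 k.1 := fun k => (mem_MkF C c0).1 k.2
  refine ⟨?_, ?_, ?_, ?_, ?_, ?_⟩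
  · intro a
    cases a with
    | none => exact z_mem hn hr0 hr1 hx0 hx1
    | some k => exact nm_mem hn he hc hr0 hr1 hx0 hω (hMk k)
  · intro a b e
    cases a with
    | none =>
      cases b with
      | none => rfl
      | some k => exact absurd e.symm (nm_ne_z hn hc hr0 hr1 hx0 hx1 (hMk k))
    | some k =>
      cases b with
      | none => exact absurd e (nm_ne_z hn hc hr0 hr1 hx0 hx1 (hMk k))
      | some k' =>
        have := nm_inj hn (by omega) (hMk k) (hMk k') e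
        rw [Subtype.ext this]
  · intro c d hc' h
    exact hW.closed hc' h
  · intro a
    cases a with
    | none =>
      obtain ⟨t1, t2, -⟩ := z_tiles (C := C) (cr := crz c0 v.2) hn hr0 hr1 hx0 hx1
      obtain ⟨d, hd⟩ := exists_nb (D := DR v.1 v.2) (w := WR0 C n (crz c0 v.2) ∪ ω) (od_lt (v.1 - 1) v.2)
        (sq_eW_left v.1 v.2) (Or.inl fun h => by have := (mem_DR.1 h).2; omega)
      exact ⟨d, lt (v.1 - 1, v.2), mem_LR.2 t2, hd⟩
    | some k =>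
      obtain ⟨i, j, x, y, T⟩ := nm_tiles hn hc hr0 hr1 hx0 (hMk k)
      obtain ⟨o, ho, hoL, s1, s2, s3, s4⟩ := T.sides
      obtain ⟨d, hd⟩ := exists_nb (D := DR v.1 v.2) (w := WR0 C n (crz c0 v.2) ∪ ω) (od_lt x y) s1
        (Or.inl fun h => T.nd (mem_DR.1 h))
      exact ⟨d, lt (x, y), mem_LR.2 T.rt, hd⟩
  · intro c hc' e ho hs he'
    obtain ⟨k, hk, h1⟩ := F2 hn hr0 hr1 hx0 hx1 hc' ho hs he'
    exact ⟨some ⟨k, (mem_MkF C c0).2 hk⟩, h1.symm⟩
  · intro c hc'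
    rcases hc' with ⟨e, ⟨x, y, rfl, h1⟩, h2⟩ | ⟨P, h1, h2, ⟨e, ⟨x, y, rfl, h3⟩, c', h4, h5⟩, -⟩
    · obtain ⟨P, k1, k2, -⟩ := exists_pt c 0 (Or.inl rfl)
      exact ⟨x, y, h1, P, k1, k2, c, h2, k2⟩
    · exact ⟨x, y, h3, P, h1, h2, c', h4, h5⟩

end Pool.Agent.H94.W
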