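import Mathlib
import Pool.Agent.H94.W.JKey0
import Pool.Agent.H21.W.JIn
import Pool.Agent.H61.W.JNam

set_option autoImplicit false
open Finset

/-! # The tiles along the line of a gap

`gx b n k = - (k + 1) M n`, `gy b n k = (τ + k) n` : the corners of the gap between the plates `k` and `k + 1` (the foot
for `k + 1 = nP`) are `(gx, gy)` and `(gx, - gy)`. -/

namespace Pool.Agent.H94.W

open Pool.Agent.H75.Perc Pool.Agent.H75.TwoArm Pool.Agent.H13.W Pool.Agent.H33.Q1 Pool.Agent.H99.W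
open Pool.Agent.H6.W Pool.Agent.H21.W Pool.Agent.H20.W Pool.Agent.H45.W Pool.Agent.H61.W
open Pool.Agent.H54.W (CD)

variable {b : JBox} {δ σ : ℝ} {n x y x' y' : ℤ} {k : ℕ} {c : ℤ × ℤ}

/-! ### End points of sides -/

lemma Tch.near {e : ℤ × ℤ} (h : Tch c x' y') (he : e = lt (x, y)) (hs : sq c e) :
    (x - 1 ≤ x' ∧ x' ≤ x + 1) ∧ y - 1 ≤ y' ∧ y' ≤ y + 1 := by
  obtain ⟨P, h1, h2, c', h3, h4⟩ := h
  subst he
  have o1 := lt_odd (x, y)
  have o2 := lt_odd (x', y')
  have k1 := sides_at o1 h1 hs h2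
  have k2 := sides_at o2 h1 h3 h4
  unfold lt at k1 k2
  simp only at k1 k2
  rcases k1 with ⟨k1, -⟩ | ⟨k1, -⟩ | ⟨k1, -⟩ | ⟨k1, -⟩ <;>
    rcases k2 with ⟨k2, -⟩ | ⟨k2, -⟩ | ⟨k2, -⟩ | ⟨k2, -⟩ <;>
    (rw [k1] at k2; simp only [Prod.mk.injEq] at k2; omega)

lemma Tch.near_S (h : Tch (eS (lt (x, y))) x' y') :
    (x - 1 ≤ x' ∧ x' ≤ x + 1) ∧ y - 1 ≤ y' ∧ y' ≤ y := by
  have h1 := h.near rfl (sq_eS (lt (x, y)))
  have h2 := h.near (x := x) (y := y - 1) (e := lt (x, y - 1)) rfl (by rw [← eN_lt']; exact sq_eN _)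
  omega

lemma Tch.near_N (h : Tch (eN (lt (x, y))) x' y') :
    (x - 1 ≤ x' ∧ x' ≤ x + 1) ∧ y ≤ y' ∧ y' ≤ y + 1 := by
  rw [eN_lt] at h
  have := h.near_S
  omega

/-! ### The gap -/

/-- abscissa of the gap -/
def gx (b : JBox) (n : ℤ) (k : ℕ) : ℤ := -(((k : ℤ) + 1) * b.M * n)

/-- height of the upper corner of the gap -/
def gy (b : JBox) (n : ℤ) (k : ℕ) : ℤ := ((b.τ : ℤ) + k) * n

section

variable (hb : b.Ok δ σ) (hd : δ ≤ 1) (hn : 0 < n)

include hb hd

lemma Ar_slit {Y : ℤ} (hk : k < nP b) (hY : dst Y < b.τ + k) : -((k : ℤ) * b.M) ≤ Ar b Y := by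
  have ht := thick hb hd
  have hM : (0 : ℤ) < b.M := by exact_mod_cast hb.M0
  unfold Ar
  rw [ArD_slit (by omega) (by omega)]
  have : (((dst Y - b.τ + 1).toNat : ℕ) : ℤ) * b.M ≤ k * b.M :=
    mul_le_mul_of_nonneg_right (by omega) hM.le
  linarith

lemma Ar_slit' {Y : ℤ} (hk : k < nP b) (hY : dst Y < b.τ + k + 1) : -(((k : ℤ) + 1) * b.M) ≤ Ar b Y := by
  have ht := thick hb hd
  have hM : (0 : ℤ) < b.M := by exact_mod_cast hb.M0
  rcases lt_or_ge (k + 1) (nP b) with h | h
  · have := Ar_slit (k := k + 1) (Y := Y) hb hd h (by push_cast; omega)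
    push_cast at this
    exact this
  · have hX := X_eq hb
    have e : (nP b : ℤ) = k + 1 := by omega
    rw [← e, ← hX]
    exact Ar_ge hb (by unfold Ht; omega)

include hn

lemma gy_pos (hk : k < nP b) : 0 < gy b n k ∧ n ≤ gy b n k := by
  have hτ : (0 : ℤ) < b.τ := by exact_mod_cast hb.τ0
  unfold gy
  constructor
  · positivity
  · nlinarith

/-- rows of the slit at the gap -/
lemma dst_gy {j : ℤ} (h1 : -(gy b n k + j * n) ≤ y) (h2 : y < gy b n k + j * n) :
    dst (y / n) < b.τ + k + j := by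
  rw [dst_lt, Int.le_ediv_iff_mul_le hn, Int.ediv_lt_iff_lt_mul hn]
  unfold gy at h1 h2
  constructor
  · linarith
  · linarith

/-- no room tiles in the slit -/
lemma gap_far (hk : k < nP b) (h1 : -gy b n k ≤ y) (h2 : y < gy b n k) (hR : InR b n x y) :
    gx b n k + b.M * n ≤ x := by
  have h3 := ((inR_iff hb hd hn).1 hR).2.1
  have h4 := dst_gy (b := b) (j := 0) (k := k) hb hd hn (y := y) (by linarith) (by linarith)
  have h5 := Ar_slit hb hd hk (Y := y / n) (by omega)
  unfold gx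
  nlinarith

/-- room tiles next to the slit -/
lemma gap_near (hn2 : 2 ≤ n) (hk : k < nP b) (h1 : -gy b n k - 2 ≤ y) (h2 : y < gy b n k + 2) (hR : InR b n x y) :
    gx b n k ≤ x := by
  have h3 := ((inR_iff hb hd hn).1 hR).2.1
  have h4 := dst_gy (b := b) (j := 1) (k := k) hb hd hn (y := y) (by linarith) (by linarith)
  have h5 := Ar_slit' hb hd hk (Y := y / n) (by omega)
  unfold gx
  nlinarith

/-- the tiles right of the line are in the plate `k` -/
lemma gap_right (hk : k < nP b) (h1 : -gy b n k ≤ y) (h2 : y < gy b n k) (h3 : gx b n k ≤ x)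
    (h4 : x < gx b n k + b.M * n) : InQ b n x y ∧ chn 0 b.M b.τ (x / n, y / n) = some k := by
  have hM : (0 : ℤ) < b.M := by exact_mod_cast hb.M0
  have ht := thick hb hd
  have hX := X_eq hb
  have h5 := dst_gy (b := b) (j := 0) (k := k) hb hd hn (y := y) (by linarith) (by linarith)
  have hkX : ((k : ℤ) + 1) * b.M ≤ b.X := by
    rw [hX]; exact mul_le_mul_of_nonneg_right (by omega) hM.le
  have hkX' : (((k : ℤ) + 1) * b.M) * n ≤ b.X * n := mul_le_mul_of_nonneg_right hkX hn.le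
  have h0 : (0 : ℤ) ≤ k * b.M * n := by positivity
  unfold gx at h3 h4
  have e1 : (((k : ℤ) + 1) * b.M) * n = k * b.M * n + b.M * n := by ring
  refine ⟨?_, ?_⟩
  · rw [inQ_iff hb hn, if_pos (by omega)]
    refine ⟨by unfold Ht; omega, ?_, ?_⟩
    · have : 0 < n * (b.X : ℤ) := by
        have := X_pos hb
        positivity
      linarith
    · linarith
  · rw [chn_some hb.M0]
    refine ⟨⟨?_, ?_⟩, ?_⟩
    · simp only [zero_sub]
      rw [Int.le_ediv_iff_mul_le hn]
      linarith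
    · simp only [zero_sub]
      rw [Int.ediv_lt_iff_lt_mul hn]
      linarith
    · rw [pix_le, ← dst_lt]
      simp only
      omega

/-- the tiles left of the line are in the plate `k + 1` -/
lemma gap_left (hk : k + 1 < nP b) (h1 : -gy b n k ≤ y) (h2 : y < gy b n k) (h3 : gx b n k - b.M * n ≤ x)
    (h4 : x < gx b n k) : InQ b n x y ∧ chn 0 b.M b.τ (x / n, y / n) = some (k + 1) := by
  have e : gx b n (k + 1) = gx b n k - b.M * n := by unfold gx; push_cast; ring
  have e2 : gy b n (k + 1) = gy b n k + n := by unfold gy; push_cast; ring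
  exact gap_right hb hd hn hk (by omega) (by omega) (by omega) (by omega)

/-- the tiles left of the foot are in the outer layer -/
lemma foot_left (hn2 : 2 ≤ n) (hk : k + 1 = nP b) (h1 : -gy b n k ≤ y) (h2 : y < gy b n k) (h3 : gx b n k - 3 ≤ x)
    (h4 : x < gx b n k) : Ly b n x y ∧ ¬ InQ b n x y := by
  have hM : (0 : ℤ) < b.M := by exact_mod_cast hb.M0
  have hX := X_eq hb
  have ht := thick hb hd
  have h5 := dst_gy (b := b) (j := 0) (k := k) hb hd hn (y := y) (by linarith) (by linarith)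
  have eX : gx b n k = -(n * b.X) := by
    unfold gx; rw [hX, ← hk]; push_cast; ring
  have hQ : ¬ InQ b n x y := by
    rw [inQ_iff hb hn, if_pos (by omega)]
    rintro ⟨-, -, h6⟩
    omega
  refine ⟨⟨hQ, gx b n k - x, 0, ?_, by norm_num, ?_⟩, hQ⟩
  · rw [abs_le]; omega
  · have := (gap_right hb hd hn (k := k) (x := gx b n k) (by omega) h1 h2 le_rfl (by nlinarith)).1
    rw [add_zero, show x + (gx b n k - x) = gx b n k by ring]
    exact this

/-- colours of the layer at the foot -/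
lemma foot_col {cl : Cl} (hk : k + 1 = nP b) (h1 : -gy b n k ≤ y) (h2 : y < gy b n k) (h4 : x < gx b n k) :
    lcol b n cl x y = if 0 ≤ y then cl.u 0 else cl.l 0 := by
  have hM : (0 : ℤ) < b.M := by exact_mod_cast hb.M0
  have hX := X_eq hb
  have ht := thick hb hd
  have h5 := dst_gy (b := b) (j := 0) (k := k) hb hd hn (y := y) (by linarith) (by linarith)
  have h0 : (0 : ℤ) ≤ (k + 1) * b.M * n := by positivity
  have hxX : x < n * b.X := by
    have : 0 < n * (b.X : ℤ) := by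
      have := X_pos hb
      positivity
    unfold gx at h4
    linarith
  rw [lcol_row hn hxX]
  by_cases h : 0 ≤ y
  · rw [if_pos h, if_pos ((nonneg_div hn).2 h)]
    rw [dst_pos ((nonneg_div hn).2 h)] at h5
    have : (y / n - b.H).toNat = 0 := by omega
    rw [this, Nat.min_zero]
  · rw [if_neg h, if_neg (fun h' => h ((nonneg_div hn).1 h'))]
    rw [dst_npos (fun h' => h ((nonneg_div hn).1 h'))] at h5
    have : (-1 - y / n - b.H).toNat = 0 := by omega
    rw [this, Nat.min_zero]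

/-- the tiles of the corners of the marks are far away -/
lemma dgt_far (hk : k < nP b) (h1 : -gy b n k ≤ y) (h2 : y < gy b n k) (q : Bool × ℕ) :
    (x, y) ≠ dgt b n q := by
  have ht := thick hb hd
  have hM : (0 : ℤ) < b.M := by exact_mod_cast hb.M0
  intro h
  have h3 := congrArg Prod.snd h
  unfold dgt cpt at h3
  simp only at h3
  have h4 : ((b.τ : ℤ) + k) * n ≤ b.H * n := mul_le_mul_of_nonneg_right (by omega) hn.le
  have h5 : (b.H : ℤ) * n + n ≤ ((b.H : ℤ) + q.2 + 1) * n := by nlinarith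
  unfold gy at h1 h2
  split_ifs at h3 <;> omega

end

end Pool.Agent.H94.W
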