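import Mathlib
import Pool.Agent.H94.W.JGap

set_option autoImplicit false
open Finset

/-! # The outside of the room of the junction box: strands along the gaps

A world `(Λ, D, w)` with `RoomIn` for `cdJ` and the colours `c`, `cl` of all tiles (`JWO`). `arc_nat` : the two
corners of a gap with two colours are joined outside of the room; `arc_del` : the same through a deleted
row; `arc_mark` : the corner of the gap with the mark is joined to the end of the deleted row. -/

namespace Pool.Agent.H94.W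

open Pool.Agent.H75.Perc Pool.Agent.H75.TwoArm Pool.Agent.H13.W Pool.Agent.H33.Q1 Pool.Agent.H99.W
open Pool.Agent.H6.W Pool.Agent.H21.W Pool.Agent.H20.W Pool.Agent.H45.W Pool.Agent.H61.W
open Pool.Agent.H54.W (CD)

variable {b : JBox} {δ σ : ℝ} {n x y : ℤ} {i : ℕ} {c : Bool → ℕ → Bool} {cl : Cl}

/-- colours of all plate tiles and layer tiles -/
structure JWO (b : JBox) (n : ℤ) (c : Bool → ℕ → Bool) (cl : Cl) (D : Set (ℤ × ℤ)) (w : Finset (ℤ × ℤ)) :
    Prop where
  plate : ∀ x y j, InQ b n x y → chn 0 b.M b.τ (x / n, y / n) = some j → lt (x, y) ∉ D →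
    (lt (x, y) ∈ w ↔ c (decide (0 ≤ y)) j = true)
  outer : ∀ x y, Ly b n x y → lt (x, y) ∉ D → (lt (x, y) ∈ w ↔ lcol b n cl x y = true)

/-- colour of the half `t` of the plate `i` or of the wall at the foot -/
def cw (b : JBox) (c : Bool → ℕ → Bool) (cl : Cl) (t : Bool) (i : ℕ) : Bool :=
  Pool.Agent.H61.W.cf b (c t) (if t then cl.u else cl.l) i

lemma cw_lt (h : i < nP b) (t : Bool) : cw b c cl t i = c t i := by unfold cw Pool.Agent.H61.W.cf; rw [if_pos h]

section

variable (hb : b.Ok δ σ) (hd : δ ≤ 1) (hn : 0 < n)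

include hb hd hn

/-- the colours left of the line of a gap -/
lemma col_left {D : Set (ℤ × ℤ)} {w : Finset (ℤ × ℤ)} (O : JWO b n c cl D w) (hn2 : 2 ≤ n) (hi : i < nP b)
    (h1 : -gy b n i ≤ y) (h2 : y < gy b n i) (hD : lt (gx b n i - 1, y) ∉ D) :
    lt (gx b n i - 1, y) ∈ w ↔ cw b c cl (decide (0 ≤ y)) (i + 1) = true := by
  have hM : (0 : ℤ) < b.M := by exact_mod_cast hb.M0
  have hMn : 0 < b.M * n := by positivity
  rcases lt_or_ge (i + 1) (nP b) with h3 | h3
  · obtain ⟨q1, q2⟩ := gap_left hb hd hn h3 h1 h2 (x := gx b n i - 1) (by omega) (by omega)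
    rw [O.plate _ _ _ q1 q2 hD, cw_lt h3]
  · obtain ⟨q1, q2⟩ := foot_left hb hd hn hn2 (k := i) (by omega) h1 h2 (x := gx b n i - 1) (by omega)
      (by omega)
    rw [O.outer _ _ q1 hD, foot_col hb hd hn (by omega) h1 h2 (by omega)]
    unfold cw Pool.Agent.H61.W.cf
    rw [if_neg (show ¬ i + 1 < nP b by omega)]
    by_cases h : 0 ≤ y <;> simp [h]

/-- the colours right of the line of a gap -/
lemma col_right {D : Set (ℤ × ℤ)} {w : Finset (ℤ × ℤ)} (O : JWO b n c cl D w) (hi : i < nP b)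
    (h1 : -gy b n i ≤ y) (h2 : y < gy b n i) (hD : lt (gx b n i, y) ∉ D) :
    lt (gx b n i, y) ∈ w ↔ cw b c cl (decide (0 ≤ y)) i = true := by
  have hM : (0 : ℤ) < b.M := by exact_mod_cast hb.M0
  have hMn : 0 < b.M * n := by positivity
  obtain ⟨q1, q2⟩ := gap_right hb hd hn hi h1 h2 (x := gx b n i) (by omega) (by omega)
  rw [O.plate _ _ _ q1 q2 hD, cw_lt hi]

/-- the tiles at the line of a gap belong to the graph -/
lemma lam_left {M : Finset (Bool × ℕ)} (hn2 : 2 ≤ n) (hi : i < nP b) (h1 : -gy b n i ≤ y) (h2 : y < gy b n i) :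
    lt (gx b n i - 1, y) ∈ Lam b n M := by
  have hM : (0 : ℤ) < b.M := by exact_mod_cast hb.M0
  have hMn : 0 < b.M * n := by positivity
  refine ⟨_, _, rfl, ?_⟩
  rcases lt_or_ge (i + 1) (nP b) with h3 | h3
  · exact Or.inl (gap_left hb hd hn h3 h1 h2 (x := gx b n i - 1) (by omega) (by omega)).1
  · exact Or.inr ⟨(foot_left hb hd hn hn2 (k := i) (by omega) h1 h2 (x := gx b n i - 1) (by omega)
      (by omega)).1, fun q _ => dgt_far hb hd hn hi h1 h2 q⟩

lemma lam_right {M : Finset (Bool × ℕ)} (hi : i < nP b) (h1 : -gy b n i ≤ y) (h2 : y < gy b n i) :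
    lt (gx b n i, y) ∈ Lam b n M := by
  have hM : (0 : ℤ) < b.M := by exact_mod_cast hb.M0
  have hMn : 0 < b.M * n := by positivity
  exact ⟨_, _, rfl, Or.inl (gap_right hb hd hn hi h1 h2 (x := gx b n i) (by omega) (by omega)).1⟩

/-- the colours of `fillR` at the corners of a gap -/
lemma fill_corner (hi : i < nP b) :
    fillR b n c cl (gx b n i) (gy b n i - 1) = cw b c cl true i ∧
    fillR b n c cl (gx b n i - 1) (gy b n i) = cw b c cl true (i + 1) ∧
    fillR b n c cl (gx b n i) (-gy b n i) = cw b c cl false i ∧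
    fillR b n c cl (gx b n i - 1) (-gy b n i - 1) = cw b c cl false (i + 1) := by
  have hM : (0 : ℤ) < b.M := by exact_mod_cast hb.M0
  have hMn : 0 < b.M * n := by positivity
  have ht := thick hb hd
  have hτ : (0 : ℤ) < b.τ := by exact_mod_cast hb.τ0
  have hX := X_eq hb
  have hg := gy_pos (n := n) hb hd hn hi
  have d1 : (gy b n i - 1) / n = b.τ + i - 1 := by
    unfold gy
    rw [show ((b.τ : ℤ) + i) * n - 1 = (n - 1) + n * (b.τ + i - 1) by ring,
      Int.add_mul_ediv_left _ _ hn.ne', Int.ediv_eq_zero_of_lt (by omega) (by omega), zero_add]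
  have d2 : gy b n i / n = b.τ + i := by unfold gy; rw [Int.mul_ediv_cancel _ hn.ne']
  have d3 : (-gy b n i) / n = -(b.τ + i) := by
    unfold gy; rw [← neg_mul, Int.mul_ediv_cancel _ hn.ne']
  have d4 : (-gy b n i - 1) / n = -(b.τ + i) - 1 := by
    unfold gy
    rw [show -(((b.τ : ℤ) + i) * n) - 1 = (n - 1) + n * (-(b.τ + i) - 1) by ring,
      Int.add_mul_ediv_left _ _ hn.ne', Int.ediv_eq_zero_of_lt (by omega) (by omega), zero_add]
  have e1 : dst (b.τ + i - 1 : ℤ) = b.τ + i - 1 := dst_pos (by omega)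
  have e2 : dst (b.τ + i : ℤ) = b.τ + i := dst_pos (by omega)
  have e3 : dst (-(b.τ + i) : ℤ) = b.τ + i - 1 := by rw [dst_npos (by omega)]; ring
  have e4 : dst (-(b.τ + i) - 1 : ℤ) = b.τ + i := by rw [dst_npos (by omega)]; ring
  have a1 : ArD b (b.τ + i - 1) = -((i : ℤ) * b.M) := by
    rw [ArD_slit (by omega) (by omega)]
    have : ((b.τ : ℤ) + i - 1 - b.τ + 1).toNat = i := by omega
    rw [this]
  have a2 : ArD b (b.τ + i) = -(((i : ℤ) + 1) * b.M) := by
    rcases lt_or_ge (i + 1) (nP b) with h | h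
    · rw [ArD_slit (by omega) (by omega)]
      have : ((b.τ : ℤ) + i - b.τ + 1).toNat = i + 1 := by omega
      rw [this]; push_cast; ring
    · rw [ArD_wall (by omega) (by omega), hX]
      have : nP b = i + 1 := by omega
      rw [this]; push_cast; ring
  have b1 : ∀ cc v, clD b cc v (b.τ + i - 1) = cc i := by
    intro cc v
    rw [clD_slit (by omega) (by omega)]
    have : ((b.τ : ℤ) + i - 1 - b.τ + 1).toNat = i := by omega
    rw [this]
  have b2 : ∀ cc v, clD b cc v (b.τ + i) = Pool.Agent.H61.W.cf b cc v (i + 1) := by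
    intro cc v
    unfold Pool.Agent.H61.W.cf
    split_ifs with h
    · rw [clD_slit (by omega) (by omega)]
      have : ((b.τ : ℤ) + i - b.τ + 1).toNat = i + 1 := by omega
      rw [this]
    · rw [clD_wall (by omega) (by omega)]
  have hHt : Ht b = b.H + b.K := rfl
  have hgH : gy b n i + n ≤ n * Ht b := by
    unfold gy
    have : ((b.τ : ℤ) + i + 1) * n ≤ Ht b * n := mul_le_mul_of_nonneg_right (by omega) hn.le
    nlinarith
  have gxe : gx b n i = n * -(((i : ℤ) + 1) * b.M) := by unfold gx; ring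
  have gxe' : gx b n i + b.M * n = n * -((i : ℤ) * b.M) := by unfold gx; ring
  refine ⟨?_, ?_, ?_, ?_⟩
  · unfold fillR
    rw [if_neg (by omega), if_neg (by omega), d1]
    unfold Ar clJ
    rw [e1, a1, if_pos (by omega), b1, decide_eq_true (by omega), cw_lt hi]
  · unfold fillR
    rw [if_neg (by omega), if_neg (by omega), d2]
    unfold Ar clJ
    rw [e2, a2, if_pos (by omega), b2, decide_eq_true (by omega), if_pos (by omega)]
    rfl
  · unfold fillR
    rw [if_neg (by omega), if_neg (by omega), d3]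
    unfold Ar clJ
    rw [e3, a1, if_pos (by omega), b1, decide_eq_false (by omega), cw_lt hi]
  · unfold fillR
    rw [if_neg (by omega), if_neg (by omega), d4]
    unfold Ar clJ
    rw [e4, a2, if_pos (by omega), b2, decide_eq_false (by omega), if_neg (by omega)]
    rfl

/-- **the left tiles of a gap are not in the room graph** -/
lemma not_left (hn2 : 2 ≤ n) (hc : c true 0 = c false 0) (hi : i < nP b) (h1 : -gy b n i ≤ y)
    (h2 : y < gy b n i)
    (hU : y = gy b n i - 1 → cw b c cl true i ≠ cw b c cl true (i + 1))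
    (hL : y = -gy b n i → cw b c cl false i ≠ cw b c cl false (i + 1)) :
    ¬ RTJ hb hd hc n cl (gx b n i - 1) y := by
  intro h
  have hM : (0 : ℤ) < b.M := by exact_mod_cast hb.M0
  have hMn : 2 ≤ b.M * n := by nlinarith
  have far : ∀ x y, -gy b n i ≤ y → y < gy b n i → x < gx b n i + b.M * n → ¬ InR b n x y :=
    fun x y k1 k2 k3 k4 => by have := gap_far hb hd hn hi k1 k2 k4; omega
  have near : ∀ x y, -gy b n i - 2 ≤ y → y < gy b n i + 2 → x < gx b n i → ¬ InR b n x y :=
    fun x y k1 k2 k3 k4 => by have := gap_near hb hd hn hn2 hi k1 k2 k4; omega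
  obtain ⟨a, a', k1, k2, k3, k4, k5⟩ := h.dia hb hd hn hc (near _ _ (by omega) (by omega) (by omega))
    (far _ _ h1 h2 (by omega)) (near _ _ (by omega) (by omega) (by omega))
    (near _ _ (by omega) (by omega) (by omega)) (near _ _ (by omega) (by omega) (by omega))
  have ha : a = 1 := by
    rcases k1 with k1 | k1
    · exact k1
    · exact absurd k3 (near _ _ (by omega) (by omega) (by omega))
  subst ha
  obtain ⟨f1, f2, f3, f4⟩ := fill_corner (c := c) (cl := cl) hb hd hn hi
  rw [sub_add_cancel] at k3 k4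
  rcases k2 with rfl | rfl
  · have hy : y = gy b n i - 1 := by
      by_contra hne
      exact far _ _ (by omega) (by omega) (by omega) k3
    rw [hy, sub_add_cancel, f2] at k5
    rw [hy, f1] at k4
    exact hU hy (k4.trans k5.symm)
  · have hy : y = -gy b n i := by
      by_contra hne
      exact far _ _ (by omega) (by omega) (by omega) k3
    rw [hy, ← sub_eq_add_neg, f4] at k5
    rw [hy, f3] at k4
    exact hL hy (k4.trans k5.symm)

/-- the right tiles of a gap off the banks are not in the room graph -/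
lemma not_right (hn2 : 2 ≤ n) (hc : c true 0 = c false 0) (hi : i < nP b) (h1 : -gy b n i < y)
    (h2 : y < gy b n i - 1) : ¬ RTJ hb hd hc n cl (gx b n i) y := by
  intro h
  have hM : (0 : ℤ) < b.M := by exact_mod_cast hb.M0
  have hMn : 2 ≤ b.M * n := by nlinarith
  obtain ⟨a, a', k1, k2, k3, k4, k5⟩ := h.near hb hd hn hc
  have := gap_far hb hd hn hi (y := y + a') (by omega) (by omega) k5
  omega

end

/-! ### The world -/

section world

variable (hb : b.Ok δ σ) (hd : δ ≤ 1) (hn : 8 ≤ n) (hc : c true 0 = c false 0) {c0 : Bool} {v : ℤ × ℤ}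
  {M : Finset (Bool × ℕ)} {D : Set (ℤ × ℤ)} {w ω : Finset (ℤ × ℤ)} {A : Set (ℤ × ℤ)}

/-- the room of the junction box in the world -/
abbrev CJ (b : JBox) (c : Bool → ℕ → Bool) (cl : Cl) (hb : b.Ok δ σ) (hd : δ ≤ 1)
    (hc : c true 0 = c false 0) : CD := cdJ b c cl.u cl.l hb hd hc

include hb hd hn in
omit hn in
lemma mem_partJ (hcr : (fun y => cl.cr (y - n * Ht b)) = crz c0 v.2) :
    lt (x, y) ∈ RoomIn.part (CJ b c cl hb hd hc) n (-(n * Ht b)) (crz c0 v.2) ↔ RTJ hb hd hc n cl x y := by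
  have e : y = (y + n * Ht b) + -(n * Ht b) := by ring
  conv_lhs => rw [e]
  rw [RoomIn.mem_part]
  unfold RTJ
  rw [hcr]

include hn in
/-- the labels of the room do not matter outside -/
lemma mem_wω (hω : ω ⊆ ER (CJ b c cl hb hd hc) n) (hR : ¬ InR b n x y) :
    lt (x, y) ∈ w ∪ trF (-(-(n * Ht b))) (-(n * Ht b)) ω ↔ lt (x, y) ∈ w := by
  rw [mem_union, or_iff_left]
  intro h1
  rw [mem_trF] at h1
  apply hR
  have e : tr (- -(-(n * Ht b))) (- -(n * Ht b)) (lt (x, y)) = lt (x, y + n * Ht b) := by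
    have := tr_lt (n * Ht b) x y
    rw [← this]
    unfold tr
    refine Prod.ext ?_ ?_ <;> simp
  rw [e] at h1
  exact (rp_iff hb hd (by omega) hc).1 ((mem_ER (by omega)).1 (hω h1))

include hn in
/-- the visited sides touch the room -/
lemma IW_pt (R : RmA (CJ b c cl hb hd hc) c0 n v ω A) {d : ℤ × ℤ} (h : d ∈ IW (-(n * Ht b)) A) :
    ∃ x y, InR b n x y ∧ Tch d x y := by
  obtain ⟨x, y, h1, P, h2, h3, c', h4, h5⟩ := R.pt _ h
  refine ⟨x, y + -(n * Ht b), ?_, tr (n * Ht b) (-(n * Ht b)) P, ?_, ?_,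
    tr (n * Ht b) (-(n * Ht b)) c', ?_, ?_⟩
  · rw [← rp_iff hb hd (by omega) hc (u := cl.u) (l := cl.l), neg_add_cancel_right]
    exact h1
  · unfold ev tr at *; simp only; omega
  · unfold Pool.Agent.H45.W.sq tr at *; simp only at *; omega
  · unfold Pool.Agent.H45.W.sq tr lt at *; simp only at *; omega
  · unfold Pool.Agent.H45.W.sq tr at *; simp only at *; omega

include hn in
/-- the outer side of the upper bank tile at a gap is not visited -/
lemma not_IW_S (R : RmA (CJ b c cl hb hd hc) c0 n v ω A) (hi : i < nP b) :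
    eS (lt (gx b n i, gy b n i - 1)) ∉ IW (-(n * Ht b)) A := by
  intro h
  have hM : (0 : ℤ) < b.M := by exact_mod_cast hb.M0
  have hMn : 2 ≤ b.M * n := by nlinarith
  have hg := gy_pos (n := n) hb hd (by omega) hi
  obtain ⟨x, y, h1, h2⟩ := IW_pt hb hd hn hc R h
  have h3 := h2.near_S
  have := gap_far hb hd (by omega) hi (y := y) (by omega) (by omega) h1
  omega

include hn in
lemma not_IW_N (R : RmA (CJ b c cl hb hd hc) c0 n v ω A) (hi : i < nP b) :
    eN (lt (gx b n i, -gy b n i)) ∉ IW (-(n * Ht b)) A := by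
  intro h
  have hM : (0 : ℤ) < b.M := by exact_mod_cast hb.M0
  have hMn : 2 ≤ b.M * n := by nlinarith
  have hg := gy_pos (n := n) hb hd (by omega) hi
  obtain ⟨x, y, h1, h2⟩ := IW_pt hb hd hn hc R h
  have h3 := h2.near_N
  have := gap_far hb hd (by omega) hi (y := y) (by omega) (by omega) h1
  omega

/-- the outside of the room in the world -/
abbrev OJ (b : JBox) (n : ℤ) (M : Finset (Bool × ℕ)) (C : CD) (c0 : Bool) (v : ℤ × ℤ) (D : Set (ℤ × ℤ))
    (w ω : Finset (ℤ × ℤ)) (A : Set (ℤ × ℤ)) : SimpleGraph (ℤ × ℤ) :=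
  OG (WG (Lam b n M) D (-(n * Ht b)) w ω) (RG C c0 n (-(n * Ht b)) v D w ω) (IW (-(n * Ht b)) A)

section arcs

variable (he : n % 2 = 0) (hcr : (fun y => cl.cr (y - n * Ht b)) = crz c0 v.2)
  (hω : ω ⊆ ER (CJ b c cl hb hd hc) n) (R : RmA (CJ b c cl hb hd hc) c0 n v ω A) (O : JWO b n c cl D w)
  (hi : i < nP b)

include hn hcr hi

lemma stp_left (h1 : -gy b n i ≤ y) (h2 : y < gy b n i)
    (hU : y = gy b n i - 1 → cw b c cl true i ≠ cw b c cl true (i + 1))
    (hL : y = -gy b n i → cw b c cl false i ≠ cw b c cl false (i + 1)) :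
    Stp D (w ∪ trF (-(-(n * Ht b))) (-(n * Ht b)) ω) (OJ b n M (CJ b c cl hb hd hc) c0 v D w ω A)
      (gx b n i - 1) y :=
  stp_of (lam_left hb hd (by omega) (by omega) hi h1 h2)
    (fun h => not_left hb hd (by omega) (by omega) hc hi h1 h2 hU hL ((mem_partJ hb hd hc hcr).1 h))

lemma stp_right (h1 : -gy b n i < y) (h2 : y < gy b n i - 1) :
    Stp D (w ∪ trF (-(-(n * Ht b))) (-(n * Ht b)) ω) (OJ b n M (CJ b c cl hb hd hc) c0 v D w ω A)
      (gx b n i) y :=
  stp_of (lam_right hb hd (by omega) hi (by omega) (by omega))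
    (fun h => not_right hb hd (by omega) (by omega) hc hi h1 h2 ((mem_partJ hb hd hc hcr).1 h))

omit hcr in
include hω O in
/-- colours at the line -/
lemma cols (h1 : -gy b n i ≤ y) (h2 : y < gy b n i) :
    (lt (gx b n i - 1, y) ∉ D → (lt (gx b n i - 1, y) ∈ w ∪ trF (-(-(n * Ht b))) (-(n * Ht b)) ω ↔
      cw b c cl (decide (0 ≤ y)) (i + 1) = true)) ∧
    (lt (gx b n i, y) ∉ D → (lt (gx b n i, y) ∈ w ∪ trF (-(-(n * Ht b))) (-(n * Ht b)) ω ↔
      cw b c cl (decide (0 ≤ y)) i = true)) := by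
  have hM : (0 : ℤ) < b.M := by exact_mod_cast hb.M0
  have hMn : 2 ≤ b.M * n := by nlinarith
  have far : ∀ x, x < gx b n i + b.M * n → ¬ InR b n x y :=
    fun x k3 k4 => by have := gap_far hb hd (by omega) hi h1 h2 k4; omega
  constructor
  · intro hD
    rw [mem_wω hb hd hn hc hω (far _ (by omega))]
    exact col_left hb hd (by omega) O (by omega) hi h1 h2 hD
  · intro hD
    rw [mem_wω hb hd hn hc hω (far _ (by omega))]
    exact col_right hb hd (by omega) O hi h1 h2 hD

omit hn hcr hi in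
lemma gpar (he : n % 2 = 0) : (gx b n i + -gy b n i) % 2 = 0 ∧ (gx b n i + gy b n i) % 2 = 0 := by
  obtain ⟨m, rfl⟩ := Int.dvd_of_emod_eq_zero he
  have e1 : gx b (2 * m) i = 2 * -(((i : ℤ) + 1) * b.M * m) := by unfold gx; ring
  have e2 : gy b (2 * m) i = 2 * (((b.τ : ℤ) + i) * m) := by unfold gy; ring
  omega

include he hω R O

/-- **A gap with two colours, no deleted row.** -/
theorem arc_nat {p : Bool} (c1 : cw b c cl true (i + 1) = p) (c2 : cw b c cl false (i + 1) = p)
    (c3 : cw b c cl true i = !p) (c4 : cw b c cl false i = !p)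
    (hD : ∀ y, -gy b n i ≤ y → y < gy b n i → lt (gx b n i - 1, y) ∉ D ∧ lt (gx b n i, y) ∉ D) :
    (OJ b n M (CJ b c cl hb hd hc) c0 v D w ω A).Reachable (eL p (gx b n i) (-gy b n i))
      (eU p (gx b n i) (gy b n i)) := by
  have hg := gy_pos (n := n) hb hd (by omega) hi
  obtain ⟨g1, g2⟩ := gpar (b := b) (i := i) he
  have hne : ∀ t, cw b c cl t i ≠ cw b c cl t (i + 1) := by
    intro t
    cases t
    · rw [c2, c4]; cases p <;> simp
    · rw [c1, c3]; cases p <;> simp
  refine gap_nat g1 g2 (by omega) (fun y h1 h2 => stp_right hb hd hn hc hcr hi h1 h2)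
    (fun y h1 h2 => stp_left hb hd hn hc hcr hi h1 h2 (fun _ => hne _) (fun _ => hne _))
    (stpS_of (lam_right hb hd (by omega) hi le_rfl (by omega)) (hD _ le_rfl (by omega)).2
      (not_IW_N hb hd hn hc R hi))
    (stpN_of (lam_right hb hd (by omega) hi (by omega) (by omega)) (hD _ (by omega) (by omega)).2
      (not_IW_S hb hd hn hc R hi)) hD (fun y h1 h2 => ?_)
  obtain ⟨k1, k2⟩ := cols hb hd hn hc hω O hi h1 h2
  rw [k1 (hD y h1 h2).1, k2 (hD y h1 h2).2]
  by_cases h : 0 ≤ y
  · rw [decide_eq_true h, c1, c3]; cases p <;> simp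
  · rw [decide_eq_false h, c2, c4]; cases p <;> simp

/-- lower half of a gap -/
theorem half_low {p : Bool} {Y : ℤ} (hY : Y = 0 ∨ Y = -1) (c2 : cw b c cl false (i + 1) = p)
    (c4 : cw b c cl false i = !p)
    (hD : ∀ y, -gy b n i ≤ y → y < Y → lt (gx b n i - 1, y) ∉ D ∧ lt (gx b n i, y) ∉ D) :
    (OJ b n M (CJ b c cl hb hd hc) c0 v D w ω A).Reachable (eL p (gx b n i) (-gy b n i))
      (lad (gx b n i) Y (ladt p (gx b n i) Y)) := by
  have hg := gy_pos (n := n) hb hd (by omega) hi
  obtain ⟨g1, g2⟩ := gpar (b := b) (i := i) he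
  have hne : cw b c cl false i ≠ cw b c cl false (i + 1) := by
    rw [c2, c4]; cases p <;> simp
  refine gap_low g1 (by omega) (fun y h1 h2 => stp_right hb hd hn hc hcr hi h1 (by omega))
    (fun y h1 h2 => stp_left hb hd hn hc hcr hi h1 (by omega) (fun _ => by omega) (fun _ => hne))
    (stpS_of (lam_right hb hd (by omega) hi le_rfl (by omega)) (hD _ le_rfl (by omega)).2
      (not_IW_N hb hd hn hc R hi)) hD (fun y h1 h2 => ?_)
  obtain ⟨k1, k2⟩ := cols hb hd hn hc hω O hi h1 (by omega)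
  rw [k1 (hD y h1 h2).1, k2 (hD y h1 h2).2, decide_eq_false (by omega), c2, c4]
  cases p <;> simp

/-- upper half of a gap -/
theorem half_up {p : Bool} {Y : ℤ} (hY : Y = 0 ∨ Y = -1) (c1 : cw b c cl true (i + 1) = p)
    (c3 : cw b c cl true i = !p)
    (hD : ∀ y, Y < y → y < gy b n i → lt (gx b n i - 1, y) ∉ D ∧ lt (gx b n i, y) ∉ D) :
    (OJ b n M (CJ b c cl hb hd hc) c0 v D w ω A).Reachable
      (lad (gx b n i) (Y + 1) (ladt p (gx b n i) (Y + 1))) (eU p (gx b n i) (gy b n i)) := by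
  have hg := gy_pos (n := n) hb hd (by omega) hi
  obtain ⟨g1, g2⟩ := gpar (b := b) (i := i) he
  have hne : cw b c cl true i ≠ cw b c cl true (i + 1) := by
    rw [c1, c3]; cases p <;> simp
  refine gap_up g2 (by omega) (fun y h1 h2 => stp_right hb hd hn hc hcr hi (by omega) h2)
    (fun y h1 h2 => stp_left hb hd hn hc hcr hi (by omega) h2 (fun _ => hne) (fun _ => by omega))
    (stpN_of (lam_right hb hd (by omega) hi (by omega) (by omega)) (hD _ (by omega) (by omega)).2
      (not_IW_S hb hd hn hc R hi)) (fun y h1 h2 => hD y (by omega) h2) (fun y h1 h2 => ?_)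
  obtain ⟨k1, k2⟩ := cols hb hd hn hc hω O hi (y := y) (by omega) h2
  rw [k1 (hD y (by omega) h2).1, k2 (hD y (by omega) h2).2, decide_eq_true (by omega), c1, c3]
  cases p <;> simp

/-- **A gap behind the mark**: the row `Y` is deleted, the upper colours are the negations of the lower ones.
Both corners and the sides of the deleted row on the line are joined. -/
theorem arc_del {p : Bool} {Y : ℤ} (hY : Y = 0 ∨ Y = -1) (c1 : cw b c cl true (i + 1) = !p)
    (c2 : cw b c cl false (i + 1) = p) (c3 : cw b c cl true i = p) (c4 : cw b c cl false i = !p)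
    (d1 : lt (gx b n i - 1, Y) ∈ D) (d2 : lt (gx b n i, Y) ∈ D)
    (hD : ∀ y, -gy b n i ≤ y → y < gy b n i → y ≠ Y → lt (gx b n i - 1, y) ∉ D ∧ lt (gx b n i, y) ∉ D) :
    (OJ b n M (CJ b c cl hb hd hc) c0 v D w ω A).Reachable (eL p (gx b n i) (-gy b n i))
      (lad (gx b n i) Y (ladt p (gx b n i) Y)) ∧
    (OJ b n M (CJ b c cl hb hd hc) c0 v D w ω A).Reachable (eL p (gx b n i) (-gy b n i))
      (eU (!p) (gx b n i) (gy b n i)) := by
  have hg := gy_pos (n := n) hb hd (by omega) hi
  have h1 := half_low (M := M) hb hd hn hc he hcr hω R O hi hY c2 c4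
    (fun y k1 k2 => hD y k1 (by omega) (by omega))
  have h2 := half_up (M := M) hb hd hn hc he hcr hω R O hi hY c1 (by rw [c3]; simp)
    (fun y k1 k2 => hD y (by omega) k2 (by omega))
  have h3 := del_H (D := D) (w := w ∪ trF (-(-(n * Ht b))) (-(n * Ht b)) ω)
    (H := OJ b n M (CJ b c cl hb hd hc) c0 v D w ω A) (t := ladt p (gx b n i) Y)
    (stp_left hb hd hn hc hcr hi (y := Y) (by omega) (by omega) (fun _ => by omega) (fun _ => by omega))
    (stp_right hb hd hn hc hcr hi (y := Y) (by omega) (by omega)) d1 d2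
  rw [ladt_succ, ladt_not, Bool.not_not] at h2
  exact ⟨h1, (h1.trans h3).trans h2⟩

/-- **The gap with the mark**: the row `Y` is deleted to the left of the line. -/
theorem arc_mark {p q : Bool} {Y : ℤ} (hY : Y = 0 ∨ Y = -1) (c1 : cw b c cl true (i + 1) = !p)
    (c2 : cw b c cl false (i + 1) = p) (c3 : cw b c cl true i = q) (c4 : cw b c cl false i = q)
    (d1 : lt (gx b n i - 1, Y) ∈ D) (d2 : lt (gx b n i, Y) ∉ D)
    (hD : ∀ y, -gy b n i ≤ y → y < gy b n i → y ≠ Y → lt (gx b n i - 1, y) ∉ D ∧ lt (gx b n i, y) ∉ D) :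
    (p ≠ q → (OJ b n M (CJ b c cl hb hd hc) c0 v D w ω A).Reachable (eL p (gx b n i) (-gy b n i))
      (eW (lt (gx b n i, Y)))) ∧
    (p = q → (OJ b n M (CJ b c cl hb hd hc) c0 v D w ω A).Reachable (eU (!p) (gx b n i) (gy b n i))
      (eW (lt (gx b n i, Y)))) := by
  have hg := gy_pos (n := n) hb hd (by omega) hi
  have sl : ∀ y, -gy b n i < y → y < gy b n i - 1 → Stp D (w ∪ trF (-(-(n * Ht b))) (-(n * Ht b)) ω)
      (OJ b n M (CJ b c cl hb hd hc) c0 v D w ω A) (gx b n i - 1) y := fun y k1 k2 =>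
    stp_left hb hd hn hc hcr hi (by omega) (by omega) (fun _ => by omega) (fun _ => by omega)
  have sr : ∀ y, -gy b n i < y → y < gy b n i - 1 → Stp D (w ∪ trF (-(-(n * Ht b))) (-(n * Ht b)) ω)
      (OJ b n M (CJ b c cl hb hd hc) c0 v D w ω A) (gx b n i) y := fun y k1 k2 =>
    stp_right hb hd hn hc hcr hi k1 k2
  have col : ∀ y, -gy b n i ≤ y → y < gy b n i → _ := fun y k1 k2 =>
    cols hb hd hn hc hω O hi (y := y) k1 k2
  constructor
  · intro hpq
    have c4' : cw b c cl false i = !p := by rw [c4]; cases p <;> cases q <;> simp_all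
    have h1 := half_low (M := M) hb hd hn hc he hcr hω R O hi hY c2 c4'
      (fun y k1 k2 => hD y k1 (by omega) (by omega))
    refine h1.trans (mark_low hpq (sl Y (by omega) (by omega)) (sr Y (by omega) (by omega))
      (sl (Y + 1) (by omega) (by omega)) (sr (Y + 1) (by omega) (by omega)) d1 d2
      (hD (Y + 1) (by omega) (by omega) (by omega)).1 (hD (Y + 1) (by omega) (by omega) (by omega)).2
      ?_ ?_ ?_)
    · rw [(col Y (by omega) (by omega)).2 d2]
      cases decide (0 ≤ Y) <;> simp [c3, c4]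
    · rw [(col (Y + 1) (by omega) (by omega)).1 (hD (Y + 1) (by omega) (by omega) (by omega)).1,
        decide_eq_true (by omega), c1]
      cases p <;> simp
    · rw [(col (Y + 1) (by omega) (by omega)).2 (hD (Y + 1) (by omega) (by omega) (by omega)).2,
        decide_eq_true (by omega), c3]
  · intro hpq
    have h1 := half_up (M := M) hb hd hn hc he hcr hω R O hi hY c1 (by rw [c3, hpq]; simp)
      (fun y k1 k2 => hD y (by omega) k2 (by omega))
    refine h1.symm.trans (mark_up hpq (sl Y (by omega) (by omega)) (sr Y (by omega) (by omega))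
      (sl (Y - 1) (by omega) (by omega)) (sr (Y - 1) (by omega) (by omega)) d1 d2
      (hD (Y - 1) (by omega) (by omega) (by omega)).1 (hD (Y - 1) (by omega) (by omega) (by omega)).2
      ?_ ?_ ?_)
    · rw [(col Y (by omega) (by omega)).2 d2]
      cases decide (0 ≤ Y) <;> simp [c3, c4]
    · rw [(col (Y - 1) (by omega) (by omega)).1 (hD (Y - 1) (by omega) (by omega) (by omega)).1,
        decide_eq_false (by omega), c2]
    · rw [(col (Y - 1) (by omega) (by omega)).2 (hD (Y - 1) (by omega) (by omega) (by omega)).2,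
        decide_eq_false (by omega), c4]

end arcs

end world

end Pool.Agent.H94.W
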