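import Mathlib
import Pool.Agent.H94.W.JWrld
import Pool.Agent.H21.W.JNames

set_option autoImplicit false
open Finset

/-! # The names of the room of the junction box in the world; the second corner of a mark

`WJ` : a world of the junction box with its room. `P_none`, `P_kn`, `P_gapU`, `P_gapL` : the names in the world.
`dead_not` : the other corner `f1`, `f2` of a mark is not visited. `rf_iff` : `RF` is the connection with the name. -/

namespace Pool.Agent.H94.W

open Pool.Agent.H75.Perc Pool.Agent.H75.TwoArm Pool.Agent.H13.W Pool.Agent.H33.Q1 Pool.Agent.H99.W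
open Pool.Agent.H6.W Pool.Agent.H21.W Pool.Agent.H20.W Pool.Agent.H45.W Pool.Agent.H61.W
open Pool.Agent.H54.W (CD)
open Pool.Agent.H25.W (Na Nm crn MkF mem_MkF)

/-! ### Ends -/

section ends
variable {Λ D : Set (ℤ × ℤ)} {w : Finset (ℤ × ℤ)} {c d e : ℤ × ℤ}

lemma isEnd_dead (he : od e) (h1 : Pool.Agent.H45.W.sq c e) (hΛ : e ∉ Λ) : IsEnd (SG Λ D w) c := by
  apply isEnd_of_notMem
  rcases (lab_iff c e).2 ⟨he, h1⟩ with h | h
  · exact Or.inl (h ▸ hΛ)
  · exact Or.inr (h ▸ hΛ)

/-- the west or east side of a deleted tile is an end -/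
lemma isEnd_del (he : od e) (hD : e ∈ D) (h1 : c = eW e ∨ c = eE e) : IsEnd (SG Λ D w) c := by
  rintro a b ⟨e1, he1, h1'⟩ ⟨e2, he2, h2'⟩
  have hs : Pool.Agent.H45.W.sq c e := by
    rcases h1 with rfl | rfl
    · exact sq_eW _
    · exact sq_eE _
  have key : ∀ e1 a, TJ D w e1 c a → e1 = ot c e := by
    intro e1 a h
    obtain ⟨k1, k2, -⟩ := TJ.sqs h
    rcases lab_cases' he hs k1 k2 with k | k
    · exfalso
      rw [k] at h
      rcases h1 with rfl | rfl
      · exact not_TJ_eW hD h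
      · exact not_TJ_eE hD h
    · exact k
  have e3 := key e1 a h1'
  have e4 := key e2 b h2'
  subst e3
  rw [← e4] at h1'
  exact h1'.unique h2'

end ends

variable {b : JBox} {δ σ : ℝ} {n : ℤ} {c : Bool → ℕ → Bool} {base : Bool} {M : Finset (Bool × ℕ)} {v : ℤ × ℤ}
  {D : Set (ℤ × ℤ)} {w ω : Finset (ℤ × ℤ)} {A : Set (ℤ × ℤ)} {i : ℕ} {q : Bool × ℕ}

/-- the room of a world -/
abbrev CW (b : JBox) (c : Bool → ℕ → Bool) (base : Bool) (M : Finset (Bool × ℕ)) (v : ℤ × ℤ) (hb : b.Ok δ σ)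
    (hd : δ ≤ 1) (hc : c true 0 = c false 0) : CD := CJ b c (colM base M (some v.2)) hb hd hc

/-- the moving end in the coordinates of the room -/
abbrev vW (b : JBox) (n : ℤ) (v : ℤ × ℤ) : ℤ × ℤ := (v.1, v.2 + n * Ht b)

/-- **A world of the junction box with its room.** -/
structure WJ (hb : b.Ok δ σ) (hd : δ ≤ 1) (hc : c true 0 = c false 0) (n : ℤ) (base : Bool)
    (M : Finset (Bool × ℕ)) (v : ℤ × ℤ) (D : Set (ℤ × ℤ)) (w : Finset (ℤ × ℤ)) : Prop where
  n8 : 8 ≤ n
  n2 : n % 2 = 0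
  hM : ∀ q ∈ M, q.2 < b.K
  in0 : InR b n v.1 v.2
  in1 : InR b n (v.1 - 1) v.2
  in2 : InR b n v.1 (v.2 - 1)
  in3 : InR b n v.1 (v.2 + 1)
  room : RoomIn (CW b c base M v hb hd hc) n (-(n * Ht b)) (crz (c0M base M) (vW b n v).2) (vW b n v).1
    (vW b n v).2 (Lam b n M) D w
  out : JWO b n c (colM base M (some v.2)) D w
  vD : lt v ∈ D

section

variable {hb : b.Ok δ σ} {hd : δ ≤ 1} {hc : c true 0 = c false 0} (W : WJ hb hd hc n base M v D w)

include W

lemma WJ.rows : -(n * Ht b) < v.2 ∧ v.2 + 1 < n * Ht b := by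
  have hn : 0 < n := by have := W.n8; omega
  have h1 := ((inR_iff hb hd hn).1 W.in2).1
  have h2 := ((inR_iff hb hd hn).1 W.in3).1
  have r1 := (dst_rows hn).1 h1
  have r2 := (dst_rows hn).1 h2
  omega

/-- **the room graph of a world** -/
theorem WJ.rmA (hω : ω ⊆ ER (CW b c base M v hb hd hc) n) :
    RmA (CW b c base M v hb hd hc) (c0M base M) n (vW b n v) ω
      (Pool.Agent.H29.W.Inn (CW b c base M v hb hd hc) n (crz (c0M base M) (vW b n v).2) (vW b n v).1 (vW b n v).2
        (c0M base M) ω) := by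
  have hn : 0 < n := by have := W.n8; omega
  have hr := W.rows
  obtain ⟨h1, h2, h3⟩ := (inR_iff hb hd hn).1 W.in0
  refine rmA_of W.n8 W.n2 ?_ ?_ ?_ ?_ hω
  · show 0 < v.2 + n * Ht b
    omega
  · show v.2 + n * Ht b + 1 < n * (2 * Ht b)
    have : n * (2 * Ht b) = n * Ht b + n * Ht b := by ring
    omega
  · show n * AJ b ((v.2 + n * Ht b) / n) ≤ v.1
    have e : (v.2 + n * Ht b) / n - Ht b = v.2 / n := by
      rw [Int.add_mul_ediv_left _ _ hn.ne']; ring
    unfold AJ
    rw [e]; exact h2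
  · show v.1 ≤ n * b.X
    omega

end

/-! ### The names in the world -/

section names

variable {hb : b.Ok δ σ} {hd : δ ≤ 1} {hc : c true 0 = c false 0}

/-- the named corners of the world -/
abbrev PJ (b : JBox) (c : Bool → ℕ → Bool) (base : Bool) (M : Finset (Bool × ℕ)) (v : ℤ × ℤ) (hb : b.Ok δ σ)
    (hd : δ ≤ 1) (hc : c true 0 = c false 0) (n : ℤ) :
    Na (CW b c base M v hb hd hc) (c0M base M) → ℤ × ℤ :=
  pW (CW b c base M v hb hd hc) (c0M base M) n (-(n * Ht b)) (vW b n v)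

lemma P_none : PJ b c base M v hb hd hc n none = zc v := by
  show tr (-(-(n * Ht b))) (-(n * Ht b)) (eW (lt (v.1, v.2 + n * Ht b))) = zc v
  rw [← Pool.Agent.H45.W.eW_tr, tr_lt]
  unfold zc
  congr 2
  ring_nf

lemma P_kn {k : Nm (CW b c base M v hb hd hc) (c0M base M)} (hk : k.1 = kn b q) (hq : q.2 < b.K) :
    PJ b c base M v hb hd hc n (some k) = f1 b n q ∨ PJ b c base M v hb hd hc n (some k) = f2 b n q := by
  have := nmJ_mark (n := n) (c := c) (u := (colM base M (some v.2)).u) (l := (colM base M (some v.2)).l)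
    (c0 := c0M base M) hb hd hc hq
  rw [← hk] at this
  exact this

lemma P_gapU {k : Nm (CW b c base M v hb hd hc) (c0M base M)} (hk : k.1 = gapU b i) (hi : i < nP b) {p : Bool}
    (hp : c true i = !p) : PJ b c base M v hb hd hc n (some k) = eU p (gx b n i) (gy b n i) := by
  have := nmJ_gapU (n := n) (c := c) (u := (colM base M (some v.2)).u) (l := (colM base M (some v.2)).l)
    (c0 := c0M base M) hb hd hc hi
  rw [← hk] at this
  refine this.trans ?_
  rw [hp]
  cases p <;> rfl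

lemma P_gapL {k : Nm (CW b c base M v hb hd hc) (c0M base M)} (hk : k.1 = gapL b i) (hi : i < nP b) {p : Bool}
    (hp : cw b c (colM base M (some v.2)) false (i + 1) = p) :
    PJ b c base M v hb hd hc n (some k) = eL p (gx b n i) (-gy b n i) := by
  have := nmJ_gapL (n := n) (c := c) (u := (colM base M (some v.2)).u) (l := (colM base M (some v.2)).l)
    (c0 := c0M base M) hb hd hc hi
  rw [← hk] at this
  refine this.trans ?_
  unfold cw at hp
  rw [if_neg (by simp)] at hp
  rw [hp]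
  cases p <;> rfl

/-- the row of a corner -/
def rw2 (c : ℤ × ℤ) : ℤ := c.2 - c.1

lemma rw2_sdp (X Y : ℤ) (d : Fin 4) : 2 * Y - 1 ≤ rw2 (sdp X Y d) ∧ rw2 (sdp X Y d) ≤ 2 * Y + 1 := by
  unfold rw2 sdp
  split_ifs <;> (unfold lt; first | unfold eW | unfold eS) <;> simp only <;> omega

lemma rw2_f {g : ℤ × ℤ} (hg : g = f1 b n q ∨ g = f2 b n q) :
    2 * ((kn b q - Ht b) * n) - 1 ≤ rw2 g ∧ rw2 g ≤ 2 * ((kn b q - Ht b) * n) + 1 := by
  obtain ⟨s, i⟩ := q
  cases s
  · have e : (kn b (false, i) - Ht b) * n = -((b.H + i + 1) * n) := by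
      unfold kn; rw [if_neg (by simp)]; ring
    rw [e]
    rcases hg with rfl | rfl
    · unfold f1 dgt cpt rw2
      simp only [Bool.false_eq_true, if_false]
      unfold eE lt
      simp only
      omega
    · unfold f2 dgt cpt rw2
      simp only [Bool.false_eq_true, if_false]
      unfold eN lt
      simp only
      omega
  · have e : (kn b (true, i) - Ht b) * n = (b.H + i + 1) * n := by
      unfold kn; rw [if_pos rfl]; ring
    rw [e]
    rcases hg with rfl | rfl
    · unfold f1 dgt cpt rw2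
      simp only [if_true]
      unfold eE lt
      simp only
      omega
    · unfold f2 dgt cpt rw2
      simp only [if_true]
      unfold eS lt
      simp only
      omega

/-- the row of a mark -/
lemma rw2_P (hM : ∀ q ∈ M, q.2 < b.K) (k : Nm (CW b c base M v hb hd hc) (c0M base M)) :
    2 * ((k.1 - Ht b) * n) - 1 ≤ rw2 (PJ b c base M v hb hd hc n (some k)) ∧
      rw2 (PJ b c base M v hb hd hc n (some k)) ≤ 2 * ((k.1 - Ht b) * n) + 1 := by
  have hHt := Ht_pos hb
  have hHt' : Ht b = b.H + b.K := rfl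
  have hth := thick hb hd
  have hk := (mem_MkF _ _).1 k.2
  have rng : 0 ≤ k.1 ∧ k.1 ≤ 2 * Ht b := by
    rcases (Mk_J hb hd hc hM k.1).1 hk with ⟨i, h1, h2, -⟩ | ⟨i, h1, h2, -⟩ | ⟨q, h1, h2⟩
    · unfold gapU at h2
      omega
    · unfold gapL at h2
      omega
    · have := hM q h1
      rw [h2]
      unfold kn
      split_ifs <;> omega
  have e : PJ b c base M v hb hd hc n (some k) = sdp (n * qx (CW b c base M v hb hd hc) k.1)
      ((k.1 - Ht b) * n) (wd (CW b c base M v hb hd hc) (c0M base M) k.1) := by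
    show tr (-(-(n * Ht b))) (-(n * Ht b)) (nm _ _ n k.1) = _
    unfold nm
    rw [sdp_tr]
    congr 1
    have : qy (CW b c base M v hb hd hc) k.1 = k.1 := by
      unfold qy
      rw [if_neg (by omega), if_neg (by
        have : (CW b c base M v hb hd hc).H = 2 * Ht b := rfl
        omega)]
    rw [this]
    ring
  rw [e]
  exact rw2_sdp _ _ _

end names

section main

variable {hb : b.Ok δ σ} {hd : δ ≤ 1} {hc : c true 0 = c false 0} (W : WJ hb hd hc n base M v D w)

lemma dgt_out (hb : b.Ok δ σ) (hn : 0 < n) (_hq : q.2 < b.K) {x y : ℤ} (h : (x, y) = dgt b n q) :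
    ¬ InQ b n x y := by
  have hx : x = b.st q.2 * n - 1 := congrArg Prod.fst h
  have hy := congrArg Prod.snd h
  have hi : dst (y / n) = b.H + q.2 + 1 := by
    unfold dgt cpt at hy
    simp only at hy
    split_ifs at hy with hs
    · have : y / n = b.H + q.2 + 1 := by rw [hy, Int.mul_ediv_cancel _ hn.ne']
      rw [this, dst_pos (by omega)]
    · have : y / n = -(b.H + q.2 + 1) - 1 := by
        rw [hy, show -(((b.H : ℤ) + q.2 + 1) * n) - 1 = (n - 1) + n * (-(b.H + q.2 + 1) - 1) by ring,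
          Int.add_mul_ediv_left _ _ hn.ne', Int.ediv_eq_zero_of_lt (by omega) (by omega), zero_add]
      rw [this, dst_npos (by omega)]
      ring
  rw [inQ_iff hb hn, hi, if_neg (by omega)]
  rintro ⟨h1, -, h2⟩
  have hHt : Ht b = b.H + b.K := rfl
  have h3 := hb.st_mono q.2 (by omega)
  have h4 : ((b.H : ℤ) + q.2 + 1 - b.H).toNat = q.2 + 1 := by omega
  rw [h4, hx] at h2
  have h5 : n * b.st q.2 ≤ n * b.st (q.2 + 1) := mul_le_mul_of_nonneg_left h3.le hn.le
  rw [mul_comm n (b.st q.2)] at h5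
  omega

lemma dgt_not (hb : b.Ok δ σ) (hn : 0 < n) (hq' : q.2 < b.K) (hq : q ∈ M) :
    lt (dgt b n q) ∉ Lam b n M := by
  rintro ⟨x, y, h1, h2⟩
  have h3 := lt_inj h1
  rcases h2 with h2 | h2
  · exact dgt_out hb hn hq' h3.symm h2
  · exact h2.2 q hq h3.symm

lemma sq_f {g : ℤ × ℤ} (hg : g = f1 b n q ∨ g = f2 b n q) : Pool.Agent.H45.W.sq g (lt (dgt b n q)) := by
  rcases hg with rfl | rfl
  · exact sq_eE _
  · unfold f2
    split_ifs
    · exact sq_eS _
    · exact sq_eN _

include W in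
/-- **the second corner of a mark is not visited** -/
theorem WJ.dead_not (R : RmA (CW b c base M v hb hd hc) (c0M base M) n (vW b n v) ω A) (hq : q ∈ M)
    {k : Nm (CW b c base M v hb hd hc) (c0M base M)} (hk : k.1 = kn b q) {g : ℤ × ℤ}
    (hg : g = f1 b n q ∨ g = f2 b n q) (hne : g ≠ PJ b c base M v hb hd hc n (some k)) :
    g ∉ IW (-(n * Ht b)) A := by
  intro hI
  have hn : 8 ≤ n := W.n8
  have hnot := dgt_not (n := n) hb (by omega) (W.hM q hq) hq
  have hs := sq_f hg
  set e := lt (dgt b n q) with he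
  have ho : od e := lt_odd _
  obtain ⟨a, ha⟩ := R.ext _ hI (tr (-(n * Ht b)) (-(-(n * Ht b))) e)
    (by unfold od tr at *; simp only; omega)
    (by unfold Pool.Agent.H45.W.sq tr at *; simp only; omega)
    (fun h3 => hnot (W.room.part_sub (by
      unfold RoomIn.part
      rw [mem_trS]
      have : tr (- -(-(n * Ht b))) (-(-(n * Ht b))) e = tr (-(n * Ht b)) (-(-(n * Ht b))) e := by
        rw [neg_neg]
      rw [this]; exact h3)))
  have ha' : g = PJ b c base M v hb hd hc n a := by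
    show g = pW _ _ _ _ _ _
    unfold pW
    rw [ha, tr_forth]
  cases a with
  | none =>
    rw [P_none] at ha'
    have m1 : lt v ∈ Lam b n M := ⟨v.1, v.2, rfl, Or.inl W.in0.1⟩
    have m2 : lt (v.1 - 1, v.2) ∈ Lam b n M := ⟨_, _, rfl, Or.inl W.in1.1⟩
    have s1 : Pool.Agent.H45.W.sq (zc v) (lt v) := sq_eW _
    rw [ha'] at hs
    rcases lab_cases' (lt_odd v) s1 ho hs with k1 | k1
    · exact hnot (k1 ▸ m1)
    · have : ot (zc v) (lt v) = lt (v.1 - 1, v.2) := by
        show ot (eW (lt v)) (lt v) = _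
        rw [ot_eW]
        unfold lf lt
        refine Prod.ext ?_ ?_ <;> simp only <;> ring
      rw [this] at k1
      exact hnot (k1 ▸ m2)
  | some k' =>
    have h1 := rw2_P (n := n) W.hM k'
    have h2 := rw2_f hg
    rw [← ha'] at h1
    have h3 : k'.1 = k.1 := by
      rw [hk]
      by_contra h
      rcases lt_or_gt_of_ne h with h | h
      · have : (k'.1 - Ht b + 1) * n ≤ (kn b q - Ht b) * n := mul_le_mul_of_nonneg_right (by omega) (by omega)
        rw [add_mul] at this
        omega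
      · have : (kn b q - Ht b + 1) * n ≤ (k'.1 - Ht b) * n := mul_le_mul_of_nonneg_right (by omega) (by omega)
        rw [add_mul] at this
        omega
    have h4 : k' = k := Subtype.ext h3
    rw [h4] at ha'
    exact hne ha'

/-- the world -/
abbrev GJ (b : JBox) (n : ℤ) (M : Finset (Bool × ℕ)) (D : Set (ℤ × ℤ)) (w ω : Finset (ℤ × ℤ)) :
    SimpleGraph (ℤ × ℤ) := WG (Lam b n M) D (-(n * Ht b)) w ω

/-- the room graph in the world -/
abbrev RJ (b : JBox) (c : Bool → ℕ → Bool) (base : Bool) (M : Finset (Bool × ℕ)) (v : ℤ × ℤ) (hb : b.Ok δ σ)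
    (hd : δ ≤ 1) (hc : c true 0 = c false 0) (n : ℤ) (D : Set (ℤ × ℤ)) (w ω : Finset (ℤ × ℤ)) :
    SimpleGraph (ℤ × ℤ) :=
  RG (CW b c base M v hb hd hc) (c0M base M) n (-(n * Ht b)) (vW b n v) D w ω

/-- the outside -/
abbrev OW (b : JBox) (c : Bool → ℕ → Bool) (base : Bool) (M : Finset (Bool × ℕ)) (v : ℤ × ℤ) (hb : b.Ok δ σ)
    (hd : δ ≤ 1) (hc : c true 0 = c false 0) (n : ℤ) (D : Set (ℤ × ℤ)) (w ω : Finset (ℤ × ℤ))
    (A : Set (ℤ × ℤ)) : SimpleGraph (ℤ × ℤ) :=
  OJ b n M (CW b c base M v hb hd hc) (c0M base M) (vW b n v) D w ω A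

/-- chains of links of the room graph and of `m` -/
abbrev ChJ (b : JBox) (c : Bool → ℕ → Bool) (base : Bool) (M : Finset (Bool × ℕ)) (v : ℤ × ℤ) (hb : b.Ok δ σ)
    (hd : δ ≤ 1) (hc : c true 0 = c false 0) (n : ℤ) (ω : Finset (ℤ × ℤ))
    (m : Na (CW b c base M v hb hd hc) (c0M base M) → Na (CW b c base M v hb hd hc) (c0M base M)) :
    Na (CW b c base M v hb hd hc) (c0M base M) → Na (CW b c base M v hb hd hc) (c0M base M) → Prop :=
  Ch (GR (CW b c base M v hb hd hc) (c0M base M) n (vW b n v) ω)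
    (crn (CW b c base M v hb hd hc) (c0M base M) n (vW b n v)) m

variable {m : Na (CW b c base M v hb hd hc) (c0M base M) → Na (CW b c base M v hb hd hc) (c0M base M)}

/-- an end which is neither visited nor the outside end of a name -/
theorem Pas.not_out2 {α N : Type*} {G R : SimpleGraph α} {I : Set α} {p : N → α} {m : N → N}
    (H : Pas G R I p m) {a : N} {c : α} (hc : c ∉ I) (he : IsEnd G c)
    (h : ∀ b, m b = b → (∀ d, ¬ (OG G R I).Adj (p b) d) ∨ ∃ e, e ∉ I ∧ IsEnd G e ∧
      (OG G R I).Reachable (p b) e ∧ e ≠ c) : ¬ G.Reachable (p a) c := by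
  refine H.not_out hc he fun b hb hr => ?_
  have hne : p b ≠ c := fun h' => hc (h' ▸ H.mem b)
  rcases h b hb with h1 | ⟨e, h1, h2, h3, h4⟩
  · obtain ⟨d, hd⟩ := Pool.Agent.H29.W.exists_adj_of_reach hr.symm hne.symm
    exact h1 _ hd
  · have h5 : p b ≠ e := fun h' => h1 (h' ▸ H.mem b)
    rcases ends_two (OG_deg H.deg) (H.isEnd_name b) (OG_end h2) (OG_end he) h3 hr h5 with h6 | h6
    · exact hne h6.symm
    · exact h4 h6.symm

include W in
/-- **the mark `q` in the world is the name `kn q`** -/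
theorem WJ.rf_iff (hω : ω ⊆ ER (CW b c base M v hb hd hc) n)
    (R : RmA (CW b c base M v hb hd hc) (c0M base M) n (vW b n v) ω A)
    (H : Pas (GJ b n M D w ω) (RJ b c base M v hb hd hc n D w ω) (IW (-(n * Ht b)) A)
      (PJ b c base M v hb hd hc n) m) (hq : q ∈ M)
    {k : Nm (CW b c base M v hb hd hc) (c0M base M)} (hk : k.1 = kn b q)
    (fx : ∀ a, m a = a → (∀ d, ¬ (OW b c base M v hb hd hc n D w ω A).Adj (PJ b c base M v hb hd hc n a) d) ∨
      ∃ e, e ∉ IW (-(n * Ht b)) A ∧ IsEnd (GJ b n M D w ω) e ∧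
      (OW b c base M v hb hd hc n D w ω A).Reachable (PJ b c base M v hb hd hc n a) e ∧
      e ≠ f1 b n q ∧ e ≠ f2 b n q)
    (a : Na (CW b c base M v hb hd hc) (c0M base M)) :
    RF b n (GJ b n M D w ω) (PJ b c base M v hb hd hc n a) q ↔ ChJ b c base M v hb hd hc n ω m a (some k) := by
  have h1 := ch_iff (m := m) (a := a) (b := some k) W.room hω
  rw [← H.reach] at h1
  have dead : ∀ g, (g = f1 b n q ∨ g = f2 b n q) → (GJ b n M D w ω).Reachable (PJ b c base M v hb hd hc n a) g →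
      g = PJ b c base M v hb hd hc n (some k) := by
    intro g hg hr
    by_contra hne
    refine H.not_out2 (W.dead_not R hq hk hg hne)
      (isEnd_dead (lt_odd _) (sq_f hg) (dgt_not hb (by have := W.n8; omega) (W.hM q hq) hq)) ?_ hr
    intro a' ha'
    rcases fx a' ha' with h2 | ⟨e, h2, h3, h4, h5, h6⟩
    · exact Or.inl h2
    · refine Or.inr ⟨e, h2, h3, h4, ?_⟩
      rcases hg with rfl | rfl
      · exact h5
      · exact h6
  refine Iff.trans ?_ h1
  constructor
  · rintro (h2 | h2)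
    · rw [← dead _ (Or.inl rfl) h2]; exact h2
    · rw [← dead _ (Or.inr rfl) h2]; exact h2
  · intro h2
    rcases P_kn (n := n) hk (W.hM q hq) with h3 | h3
    · left; rw [← h3]; exact h2
    · right; rw [← h3]; exact h2

end main

end Pool.Agent.H94.W
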