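import Mathlib
import Pool.Agent.H94.W.JMk
import Pool.Agent.H61.W.JX
import Pool.Agent.H71.W.JGeo

set_option autoImplicit false
open Finset

/-! # J4: the pointwise key of the `X` worlds

`room_margin` : around the lattice points of a compact part of the room all tiles up to the distance 3 are tiles of
the room. `wjX` : the X world for fixed colours of the plates as a world with room. `keyX : KeyX σ`. -/

namespace Pool.Agent.H94.W

open Pool.Agent.H75.Perc Pool.Agent.H75.TwoArm Pool.Agent.H13.W Pool.Agent.H33.Q1 Pool.Agent.H99.W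
open Pool.Agent.H6.W Pool.Agent.H21.W Pool.Agent.H20.W Pool.Agent.H45.W Pool.Agent.H61.W
open Pool.Agent.H54.W (CD)
open Pool.Agent.H25.W (Na Nm crn MkF mem_MkF)
open Pool.Agent.Q1.M4 (lat)

variable {b : JBox} {δ σ : ℝ} {h : ℕ}

/-- **Room with a margin.** -/
theorem room_margin (hb : b.Ok δ σ) {K : Set ℂ} (hK : K ⊆ Ur b) (hKc : IsCompact K) :
    ∃ h0 : ℕ, ∀ h : ℕ, h0 ≤ h → ∀ v : ℤ × ℤ, lat v / ((2 * h * b.H : ℝ) : ℂ) ∈ K → ∀ u : ℤ × ℤ,
      |u.1 - v.1| ≤ 3 → |u.2 - v.2| ≤ 3 → InR b (2 * h) u.1 u.2 := by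
  obtain ⟨ρ, hρ, hsub⟩ := hKc.exists_thickening_subset_open (show IsOpen (Ur b) from isOpen_interior) hK
  refine ⟨⌈6 / ρ⌉₊ + 1, fun h hh v hv u h1 h2 => ?_⟩
  have hH : (1 : ℝ) ≤ b.H := by exact_mod_cast hb.H0
  have hh0 : 0 < h := by omega
  have hh' : (0 : ℝ) < h := by exact_mod_cast hh0
  have hR : (0 : ℝ) < 2 * h * b.H := by positivity
  have hbig : 6 / ρ < h := by
    have h3 : (6 / ρ) ≤ ⌈6 / ρ⌉₊ := Nat.le_ceil _
    have h4 : ((⌈6 / ρ⌉₊ + 1 : ℕ) : ℝ) ≤ h := by exact_mod_cast hh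
    push_cast at h4
    linarith
  rw [div_lt_iff₀ hρ] at hbig
  have hρR : 6 < ρ * (2 * h * b.H) := by nlinarith
  refine Pool.Agent.H71.W.InR_of_mem hb hh0 (hsub ?_)
  rw [Metric.mem_thickening_iff]
  refine ⟨_, hv, ?_⟩
  rw [Complex.dist_eq, ← sub_div]
  have e1 : ‖(lat u - lat v) / ((2 * h * b.H : ℝ) : ℂ)‖ = ‖lat u - lat v‖ / (2 * h * b.H) := by
    rw [norm_div, Complex.norm_real, Real.norm_of_nonneg hR.le]
  rw [e1, div_lt_iff₀ hR]
  have e2 : lat u - lat v = ⟨((u.1 - v.1 : ℤ) : ℝ), ((u.2 - v.2 : ℤ) : ℝ)⟩ := by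
    apply Complex.ext <;> simp [lat]
  rw [e2]
  refine lt_of_le_of_lt (Complex.norm_le_abs_re_add_abs_im _) ?_
  simp only
  have h3 : |((u.1 - v.1 : ℤ) : ℝ)| ≤ 3 := by exact_mod_cast h1
  have h4 : |((u.2 - v.2 : ℤ) : ℝ)| ≤ 3 := by exact_mod_cast h2
  linarith

section X

variable {w o : Bool} {cl : Fin (nP b) → Bool} {M : Finset (Bool × ℕ)} {v : ℤ × ℤ}

/-- **the X world with its room** -/
theorem wjX (hb : b.Ok δ σ) (hd : δ ≤ 1) (hm : b.m ≤ nP b) (hh : 4 ≤ h) (hM : ∀ q ∈ M, q.2 < b.K)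
    (hv : ∀ u : ℤ × ℤ, |u.1 - v.1| ≤ 3 → |u.2 - v.2| ≤ 3 → InR b (2 * h) u.1 u.2) :
    WJ hb hd (cX_zero (b := b) (o := o) (cl := cl)) (2 * h) (bs w) M v (lt '' strD v)
      (wX b h w M v.2 o cl) := by
  have hn : (0 : ℤ) < 2 * h := by omega
  have i0 := hv v (by simp) (by simp)
  have i1 := hv (v.1 - 1, v.2) (by simp) (by simp)
  have i2 := hv (v.1, v.2 - 1) (by simp) (by simp)
  have i3 := hv (v.1, v.2 + 1) (by simp) (by simp)
  have r1 := (dst_rows hn).1 ((inR_iff hb hd hn).1 i2).1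
  have r2 := (dst_rows hn).1 ((inR_iff hb hd hn).1 i3).1
  simp only at r1 r2
  refine ⟨by omega, by omega, hM, i0, i1, i2, i3, ?_, ?_, ?_⟩
  · have := roomIn_X (x0 := v.1) (r := v.2) (o := o) (cl := cl) hb hd w hh hm hM (by omega) (by omega)
    rw [cr_crz] at this
    exact this
  · refine ⟨fun x y j hQ hj _ => ?_, fun x y hL _ => ?_⟩
    · exact wX_plate hb w (by omega) hQ hj
    · exact wX_outer hb hd w (by omega) hm hL
  · exact ⟨v, ⟨rfl, le_rfl⟩, rfl⟩

/-- the X world as a world with room -/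
lemma ggX_eq (hb : b.Ok δ σ) (hd : δ ≤ 1) (hh : 0 < h) {ω : Finset (ℤ × ℤ)}
    (hω : ω ⊆ ER (CX b w o cl M hb hd) (2 * h)) :
    GG b (2 * h) M (colM (bs w) M (some v.2)) (strD v) (cfg b h o (shR b h ω ∪ plt b h cl)) =
      GJ b (2 * h) M (lt '' strD v) (wX b h w M v.2 o cl) ω := by
  have h1 := trF_sub_E1 (u := (colM (bs w) M (some 0)).u) (l := (colM (bs w) M (some 0)).l) hb hd
    (cX_zero (b := b) (o := o) (cl := cl)) hh hω
  have e : shR b h ω = trF (-(-(2 * h * Ht b))) (-(2 * h * Ht b)) ω := by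
    unfold shR; rw [neg_neg]
  rw [← e] at h1
  show SG _ _ _ = SG _ _ _
  rw [cfg_union hb hh h1, ← e]
  congr 1
  unfold wX
  ext t
  simp only [mem_union]
  tauto

/-- the matching of the marks of the X worlds as a map -/
def mX (b : JBox) (k : ℤ) : ℤ := if Ht b - b.H < k ∧ k < Ht b + b.H then 2 * Ht b - k else k

/-- the colours at the gaps -/
def gX (b : JBox) (w o : Bool) (cl : Fin (nP b) → Bool) (M : Finset (Bool × ℕ)) (i : ℕ) : Bool :=
  Pool.Agent.H61.W.cf b (pc b o cl) (colM (bs w) M (some 0)).u i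

lemma cwX (hM3 : M.card = 3) {r : ℤ} (t : Bool) (i : ℕ) :
    cw b (cX b o cl) (colM (bs w) M (some r)) t i = gX b w o cl M i := by
  have efoot : (colM (bs w) M (some r)).l 0 = (colM (bs w) M (some r)).u 0 := by
    rw [colM_foot, hM3]
    cases (colM (bs w) M (some r)).u 0 <;> rfl
  unfold cw gX Pool.Agent.H61.W.cf
  split_ifs with h1 h2
  · rfl
  · rfl
  · exact efoot

variable {ω : Finset (ℤ × ℤ)} {A : Set (ℤ × ℤ)}

lemma invX (hb : b.Ok δ σ) (hd : δ ≤ 1) (hM3 : M.card = 3) (hM : ∀ q ∈ M, q.2 < b.K) :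
    Inv (CW b (cX b o cl) (bs w) M v hb hd cX_zero) (c0M (bs w) M) (mX b) where
  mm k hk := by
    have hk' := (MkX_iff (w := w) (o := o) (cl := cl) hb hd hM3 hM k).1 hk
    refine (MkX_iff (w := w) (o := o) (cl := cl) hb hd hM3 hM _).2 ?_
    unfold mX
    rcases hk' with hk' | ⟨p, hp, rfl⟩
    · rw [if_pos (hk'.range hb hd).1]
      exact Or.inl hk'.refl
    · rw [if_neg (kn_range hb p).1]
      exact Or.inr ⟨p, hp, rfl⟩
  inv k _ := by
    unfold mX
    split_ifs <;> omega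

section pas

variable (hb : b.Ok δ σ) (hd : δ ≤ 1) (hM3 : M.card = 3)
  (W : WJ hb hd (cX_zero (b := b) (o := o) (cl := cl)) (2 * h) (bs w) M v (lt '' strD v) (wX b h w M v.2 o cl))
  (hω : ω ⊆ ER (CW b (cX b o cl) (bs w) M v hb hd cX_zero) (2 * h))
  (R : RmA (CW b (cX b o cl) (bs w) M v hb hd cX_zero) (c0M (bs w) M) (2 * h) (vW b (2 * h) v) ω A)

include hM3 W hω R

omit hM3 hω R in
/-- no deleted tile at the gaps -/
lemma delX {i : ℕ} (hi : i < nP b) : ∀ y, -gy b (2 * h) i ≤ y → y < gy b (2 * h) i →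
    lt (gx b (2 * h) i - 1, y) ∉ lt '' strD v ∧ lt (gx b (2 * h) i, y) ∉ lt '' strD v := by
  intro y h1 h2
  have hn : (0 : ℤ) < 2 * h := by have := W.n8; omega
  have hM : (0 : ℤ) < b.M := by exact_mod_cast hb.M0
  have hMn : 0 < b.M * (2 * (h : ℤ)) := by positivity
  constructor
  · rw [mem_str (x0 := v.1) (r := v.2)]
    rintro ⟨rfl, h3⟩
    have := gap_far hb hd hn hi h1 h2 W.in0
    omega
  · rw [mem_str (x0 := v.1) (r := v.2)]
    rintro ⟨rfl, h3⟩
    have := gap_far hb hd hn hi h1 h2 W.in0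
    omega

/-- **the arc of a gap in the X world** -/
lemma arcX {i : ℕ} (hi : i < nP b) (hne : gX b w o cl M i ≠ gX b w o cl M (i + 1))
    {k k' : Nm (CW b (cX b o cl) (bs w) M v hb hd cX_zero) (c0M (bs w) M)} (hk : k.1 = gapU b i)
    (hk' : k'.1 = gapL b i) :
    (OW b (cX b o cl) (bs w) M v hb hd cX_zero (2 * h) (lt '' strD v) (wX b h w M v.2 o cl) ω A).Reachable
      (PJ b (cX b o cl) (bs w) M v hb hd cX_zero (2 * h) (some k'))
      (PJ b (cX b o cl) (bs w) M v hb hd cX_zero (2 * h) (some k)) := by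
  have hx : gX b w o cl M i = !gX b w o cl M (i + 1) := by
    revert hne
    cases gX b w o cl M i <;> cases gX b w o cl M (i + 1) <;> simp
  have e1 : cX b o cl true i = !gX b w o cl M (i + 1) := by
    rw [← hx, ← cwX (cl := cl) hM3 (r := v.2) true i, cw_lt hi]
  rw [P_gapU hk hi e1, P_gapL hk' hi (cwX hM3 false (i + 1))]
  refine arc_nat hb hd W.n8 cX_zero W.n2 (cr_crz _) hω R W.out hi (cwX hM3 true (i + 1))
    (cwX hM3 false (i + 1)) ?_ ?_ (delX hb hd W hi)
  · rw [cwX hM3, hx]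
  · rw [cwX hM3, hx]

/-- a name which is not matched has no outside step -/
lemma fixX (a : Na (CW b (cX b o cl) (bs w) M v hb hd cX_zero) (c0M (bs w) M))
    (ha : thm (CW b (cX b o cl) (bs w) M v hb hd cX_zero) (c0M (bs w) M) (mX b) a = a) :
    ∀ d, ¬ (OW b (cX b o cl) (bs w) M v hb hd cX_zero (2 * h) (lt '' strD v) (wX b h w M v.2 o cl) ω A).Adj
      (PJ b (cX b o cl) (bs w) M v hb hd cX_zero (2 * h) a) d := by
  have hn : (0 : ℤ) < 2 * h := by have := W.n8; omega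
  cases a with
  | none =>
    refine fix_of W.room hω R (e := lt v) (lt_odd v) ?_ ?_
    · show Pool.Agent.H45.W.sq (PJ b (cX b o cl) (bs w) M v hb hd cX_zero (2 * h) none) _
      rw [P_none]; exact sq_eW _
    · intro d _
      show ¬ TJ _ _ _ (PJ b (cX b o cl) (bs w) M v hb hd cX_zero (2 * h) none) _
      rw [P_none]; exact not_TJ_eW W.vD
  | some k =>
    rcases (MkX_iff (w := w) (o := o) (cl := cl) hb hd hM3 W.hM k.1).1 ((mem_MkF _ _).1 k.2) with hk | ⟨q, hq, hk⟩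
    · exfalso
      rw [thm_some (invX hb hd hM3 W.hM)] at ha
      simp only [Option.some.injEq] at ha
      have h1 : mX b k.1 = k.1 := congrArg Subtype.val ha
      have h2 := hk.range hb hd
      unfold mX at h1
      rw [if_pos h2.1] at h1
      omega
    · refine fix_of W.room hω R (e := lt (dgt b (2 * h) q)) (lt_odd _) ?_ ?_
      · exact sq_f (P_kn hk (W.hM q hq))
      · intro d hd' _
        exact dgt_not hb hn (W.hM q hq) hq hd'

/-- **Room and outside of the X world.** -/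
theorem pasX : Pas (GJ b (2 * h) M (lt '' strD v) (wX b h w M v.2 o cl) ω)
    (RJ b (cX b o cl) (bs w) M v hb hd cX_zero (2 * h) (lt '' strD v) (wX b h w M v.2 o cl) ω)
    (IW (-(2 * h * Ht b)) A) (PJ b (cX b o cl) (bs w) M v hb hd cX_zero (2 * h))
    (thm (CW b (cX b o cl) (bs w) M v hb hd cX_zero) (c0M (bs w) M) (mX b)) := by
  refine pas_of W.room hω R ?_ (fun a ha => Or.inl (fixX hb hd hM3 W hω R a ha))
  intro a ha
  cases a with
  | none => exact absurd rfl ha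
  | some k =>
    have hI := invX (v := v) (w := w) (o := o) (cl := cl) hb hd hM3 W.hM
    rw [thm_some hI]
    rcases (MkX_iff (w := w) (o := o) (cl := cl) hb hd hM3 W.hM k.1).1 ((mem_MkF _ _).1 k.2) with
      hk | ⟨q, hq, hk⟩
    · have hr := hk.range hb hd
      have e : mX b k.1 = 2 * Ht b - k.1 := by unfold mX; rw [if_pos hr.1]
      obtain ⟨i, hi, h1, h2⟩ := hk
      rcases h1 with h1 | h1
      · refine (arcX hb hd hM3 W hω R hi h2 h1 ?_).symm
        show mX b k.1 = _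
        rw [e, h1]; unfold gapU gapL; ring
      · refine arcX hb hd hM3 W hω R hi h2 ?_ h1
        show mX b k.1 = _
        rw [e, h1]; unfold gapU gapL; ring
    · exfalso
      apply ha
      rw [thm_some hI]
      congr 1
      apply Subtype.ext
      show mX b k.1 = k.1
      unfold mX
      rw [hk, if_neg (kn_range hb q).1]

end pas

/-- **The key of the X worlds.** -/
theorem keyX (σ : ℝ) : KeyX σ := by
  intro b δ hb hd hm w o cl M hM3 hM q hq hs K hK hKc
  obtain ⟨h0, H0⟩ := room_margin hb hK hKc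
  refine ⟨max h0 4, fun h hh v hv j ω hω => ?_⟩
  have hh0 : h0 ≤ h := (le_max_left _ _).trans hh
  have hh4 : 4 ≤ h := (le_max_right _ _).trans hh
  have W := wjX (w := w) (o := o) (cl := cl) hb hd hm hh4 hM (H0 h hh0 v hv)
  have hω' : ω ⊆ ER (CW b (cX b o cl) (bs w) M v hb hd cX_zero) (2 * h) := hω
  have R := W.rmA hω'
  have P := pasX hb hd hM3 W hω' R
  have hqj : q j ∈ M := by
    rw [hq]; fin_cases j <;> simp
  have hmk : kn b (q j) ∈ MkF (CW b (cX b o cl) (bs w) M v hb hd cX_zero) (c0M (bs w) M) :=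
    (mem_MkF _ _).2 ((MkX_iff (w := w) (o := o) (cl := cl) hb hd hM3 hM _).2 (Or.inr ⟨_, hqj, rfl⟩))
  have h1 := W.rf_iff hω' R P hqj (k := ⟨kn b (q j), hmk⟩) rfl
    (fun a ha => Or.inl (fixX hb hd hM3 W hω' R a ha)) none
  have h2 := arc_reach (C := CW b (cX b o cl) (bs w) M v hb hd cX_zero) (c0 := c0M (bs w) M) (n := 2 * h)
    (v := vW b (2 * h) v) (ω := ω) R.inj (invX (v := v) (w := w) (o := o) (cl := cl) hb hd hM3 hM)
    (a := none) (b := some ⟨kn b (q j), hmk⟩)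
  rw [P_none] at h1
  rw [ggX_eq hb hd (by omega) hω]
  exact h1.trans h2.symm

end X

end Pool.Agent.H94.W
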