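import Mathlib
import Pool.Agent.H94.W.JKeyX
import Pool.Agent.H25.W.JY4
import Pool.Agent.H37.W.JCol

set_option autoImplicit false
open Finset

/-! # J4: the pointwise key of the `Y` worlds

`wjY` : the Y world for fixed colours of the plates as a world with room. `pasY` : room and outside. `keyY : KeyY σ`
(the columns of the deleted row off the gaps: `H37/W/JCol`). -/

namespace Pool.Agent.H94.W

open Pool.Agent.H75.Perc Pool.Agent.H75.TwoArm Pool.Agent.H13.W Pool.Agent.H33.Q1 Pool.Agent.H99.W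
open Pool.Agent.H6.W Pool.Agent.H21.W Pool.Agent.H20.W Pool.Agent.H45.W Pool.Agent.H61.W
open Pool.Agent.H54.W (CD)
open Pool.Agent.H25.W (Na Nm crn MkF mem_MkF KeyY GMY GM nmY mk1 mmY CY c0Y)
open Pool.Agent.Q1.M4 (lat)

variable {b : JBox} {δ σ : ℝ} {h k : ℕ} {w s o : Bool} {cl : Fin (nP b) → Bool} {M : Finset (Bool × ℕ)}
  {v : ℤ × ℤ} {x1 : ℤ} {ω : Finset (ℤ × ℤ)} {A : Set (ℤ × ℤ)}

/-- **The gap with the mark**: the side of the last deleted tile, if the strand passes it -/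
theorem arc_mark2 {n : ℤ} {c : Bool → ℕ → Bool} {cl : Cl} {c0 : Bool} {D : Set (ℤ × ℤ)} {w : Finset (ℤ × ℤ)}
    {i : ℕ} (hb : b.Ok δ σ) (hd : δ ≤ 1) (hn : 8 ≤ n) (hc : c true 0 = c false 0) (he : n % 2 = 0)
    (hcr : (fun y => cl.cr (y - n * Ht b)) = crz c0 v.2) (hω : ω ⊆ ER (CJ b c cl hb hd hc) n)
    (R : RmA (CJ b c cl hb hd hc) c0 n v ω A) (O : JWO b n c cl D w) (hi : i < nP b) {p q : Bool} {Y : ℤ}
    (hY : Y = 0 ∨ Y = -1) (c1 : cw b c cl true (i + 1) = !p) (c2 : cw b c cl false (i + 1) = p)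
    (c3 : cw b c cl true i = q) (c4 : cw b c cl false i = q) (d1 : lt (gx b n i - 1, Y) ∈ D)
    (ht : ladt p (gx b n i) Y = true)
    (hD : ∀ y, -gy b n i ≤ y → y < gy b n i → y ≠ Y → lt (gx b n i - 1, y) ∉ D ∧ lt (gx b n i, y) ∉ D) :
    (p ≠ q → (OJ b n M (CJ b c cl hb hd hc) c0 v D w ω A).Reachable (eL p (gx b n i) (-gy b n i))
      (eS (lt (gx b n i - 1, Y)))) ∧
    (p = q → (OJ b n M (CJ b c cl hb hd hc) c0 v D w ω A).Reachable (eU (!p) (gx b n i) (gy b n i))
      (eS (lt (gx b n i - 1, Y)))) := by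
  have hg := gy_pos (n := n) hb hd (by omega) hi
  constructor
  · intro hpq
    have c4' : cw b c cl false i = !p := by
      rw [c4]
      cases p <;> cases q <;> first | rfl | exact absurd rfl hpq
    have h1 := half_low (M := M) hb hd hn hc he hcr hω R O hi hY c2 c4'
      (fun y k1 k2 => hD y k1 (by omega) (by omega))
    rw [ht] at h1
    exact h1
  · intro hpq
    have h1 := half_up (M := M) hb hd hn hc he hcr hω R O hi hY c1 (by rw [c3, hpq]; simp)
      (fun y k1 k2 => hD y (by omega) k2 (by omega))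
    rw [ladt_succ, ladt_not, Bool.not_not, ht] at h1
    refine h1.symm.trans ?_
    have t1 := TJ_del (w := w ∪ trF (-(-(n * Ht b))) (-(n * Ht b)) ω) d1
    rw [eN_lt] at t1
    exact (stp_left (M := M) hb hd hn hc hcr hi (y := Y) (by omega) (by omega) (fun _ => by omega)
      (fun _ => by omega) _ _ t1.symm).reachable

/-- deleted tiles of the Y world -/
abbrev DY (v : ℤ × ℤ) (s : Bool) (x1 : ℤ) : Set (ℤ × ℤ) := lt '' (strD v ∪ slD s x1)

lemma mem_DY {x y : ℤ} : lt (x, y) ∈ DY v s x1 ↔ (y = v.2 ∧ v.1 ≤ x) ∨ (y = Yr s ∧ x < x1) := by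
  constructor
  · rintro ⟨p, h1, h2⟩
    have := lt_inj h2
    subst this
    exact h1
  · exact fun h => ⟨(x, y), h, rfl⟩

/-- **the Y world with its room** -/
theorem wjY (hb : b.Ok δ σ) (hd : δ ≤ 1) (hm : b.m ≤ nP b) (hh : 4 ≤ h) (hk : 1 ≤ k) (hM : ∀ q ∈ M, q.2 < b.K)
    (hx1 : x1 = -(k * b.M * (2 * h)))
    (hv : ∀ u : ℤ × ℤ, |u.1 - v.1| ≤ 3 → |u.2 - v.2| ≤ 3 → InR b (2 * h) u.1 u.2) :
    WJ hb hd (cY_zero (b := b) (o := o) (cl := cl) (s := s) hk) (2 * h) (bsP w s) M v (DY v s x1)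
      (wY b h w s x1 M v.2 o cl) := by
  have hn : (0 : ℤ) < 2 * h := by omega
  have i0 := hv v (by simp) (by simp)
  have i1 := hv (v.1 - 1, v.2) (by simp) (by simp)
  have i2 := hv (v.1, v.2 - 1) (by simp) (by simp)
  have i3 := hv (v.1, v.2 + 1) (by simp) (by simp)
  have r1 := (dst_rows hn).1 ((inR_iff hb hd hn).1 i2).1
  have r2 := (dst_rows hn).1 ((inR_iff hb hd hn).1 i3).1
  simp only at r1 r2
  refine ⟨by omega, by omega, hM, i0, i1, i2, i3, ?_, ?_, ?_⟩
  · have := roomIn_Y (x0 := v.1) (r := v.2) (o := o) (cl := cl) (s := s) hb hd w hh hm hk hM (by omega)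
      (by omega) hx1
    rw [cr_crz] at this
    exact this
  · refine ⟨fun x y j hQ hj hD => ?_, fun x y hL _ => ?_⟩
    · exact wY_plate hb w (by omega) hx1 hQ (fun h' => hD (mem_DY.2 (Or.inr h'))) hj
    · exact wY_outer hb hd w (by omega) hm hL
  · exact ⟨v, Or.inl ⟨rfl, le_rfl⟩, rfl⟩

/-- the Y world as a world with room -/
lemma gyY_eq {c3 c4 : Bool × ℕ} (hb : b.Ok δ σ) (hd : δ ≤ 1) (hh : 0 < h) (hk : 1 ≤ k)
    (hω : ω ⊆ ER (CW b (cY b o cl s k) (bsP w s) {c3, c4} v hb hd (cY_zero hk)) (2 * h)) :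
    GY b h w s x1 c3 c4 v o (shR b h ω ∪ plt b h cl) =
      GJ b (2 * h) {c3, c4} (DY v s x1) (wY b h w s x1 {c3, c4} v.2 o cl) ω := by
  have h1 := trF_sub_E1 (u := (colM (bsP w s) {c3, c4} (some v.2)).u)
    (l := (colM (bsP w s) {c3, c4} (some v.2)).l) hb hd
    (cY_zero (b := b) (o := o) (cl := cl) (s := s) hk) hh hω
  have e : shR b h ω = trF (-(-(2 * h * Ht b))) (-(2 * h * Ht b)) ω := by
    unfold shR; rw [neg_neg]
  rw [← e] at h1
  have := gY_eq (x0 := v.1) (r := v.2) (o := o) (cl := cl) (s := s) (x1 := x1) hb c3 c4 w hh h1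
  refine this.trans ?_
  rw [e]
  rfl

/-! ### Colours, marks -/

lemma cwY_true (hM : M.card = 2) (hk : k ≤ nP b) {r : ℤ} {i : ℕ} (hi : i ≤ nP b) :
    cw b (cY b o cl s k) (colM (bsP w s) M (some r)) true i = (cfX b w o cl i ^^ (s && decide (k ≤ i))) := by
  have := cfY_true (b := b) (o := o) (cl := cl) (s := s) (r := r) w hM hk i
  rw [min_eq_left hi] at this
  exact this

lemma cwY_false (hM : M.card = 2) (hk : k ≤ nP b) {r : ℤ} {i : ℕ} (hi : i ≤ nP b) :
    cw b (cY b o cl s k) (colM (bsP w s) M (some r)) false i = (cfX b w o cl i ^^ (!s && decide (k ≤ i))) := by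
  have := cfY_false (b := b) (o := o) (cl := cl) (s := s) (r := r) w hM hk i
  rw [min_eq_left hi] at this
  exact this

lemma cfX_P {i : ℕ} (hi : i < b.m) (hm : b.m ≤ nP b) : cfX b w o cl i = o := by
  unfold cfX cPl
  rw [if_pos (by omega), if_pos hi]

/-- **List of the marks of the Y worlds** -/
lemma mkY (hb : b.Ok δ σ) (hd : δ ≤ 1) (hk : 1 ≤ k) (hkm : k < b.m) (hm : b.m ≤ nP b) (hM2 : M.card = 2)
    (hM : ∀ q ∈ M, q.2 < b.K) (j : ℤ) :
    Mk (CW b (cY b o cl s k) (bsP w s) M v hb hd (cY_zero hk)) (c0M (bsP w s) M) j ↔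
      (∃ i < nP b, i ≠ k - 1 ∧ (j = gapU b i ∨ j = gapL b i) ∧ cfX b w o cl i ≠ cfX b w o cl (i + 1)) ∨
      j = mk1 b s k ∨ ∃ q ∈ M, j = kn b q := by
  have := MkY_iff (r := v.2) (o := o) (cl := cl) (s := s) hb hd w hk (by omega) hM2 hM j
  rw [bnk_s w hkm hm] at this
  exact this

lemma gap_range (hb : b.Ok δ σ) (hd : δ ≤ 1) {i : ℕ} (hi : i < nP b) :
    (Ht b - b.H < gapU b i ∧ gapU b i < Ht b + b.H ∧ Ht b < gapU b i) ∧
    (Ht b - b.H < gapL b i ∧ gapL b i < Ht b + b.H ∧ gapL b i < Ht b) := by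
  have hth := thick hb hd
  have hτ : (0 : ℤ) < b.τ := by exact_mod_cast hb.τ0
  unfold gapU gapL
  omega

lemma gap_ne_mk1 (hb : b.Ok δ σ) {i : ℕ} (hi : i ≠ k - 1) : gapU b i ≠ mk1 b s k ∧ gapL b i ≠ mk1 b s k := by
  have hτ : (0 : ℤ) < b.τ := by exact_mod_cast hb.τ0
  unfold mk1 gapU gapL
  constructor <;> split_ifs <;> omega

lemma mmY_gap (hb : b.Ok δ σ) (hd : δ ≤ 1) {i : ℕ} (hi : i < nP b) (hne : i ≠ k - 1) :
    mmY b s k (gapU b i) = gapL b i ∧ mmY b s k (gapL b i) = gapU b i := by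
  obtain ⟨r1, r2⟩ := gap_range hb hd hi
  obtain ⟨n1, n2⟩ := gap_ne_mk1 (s := s) hb hne
  unfold mmY
  rw [if_pos ⟨r1.1, r1.2.1, n1⟩, if_pos ⟨r2.1, r2.2.1, n2⟩]
  unfold gapU gapL
  constructor <;> ring

lemma mmY_mk1 : mmY b s k (mk1 b s k) = mk1 b s k := by
  unfold mmY
  rw [if_neg (by simp)]

lemma mmY_kn (hb : b.Ok δ σ) (q : Bool × ℕ) : mmY b s k (kn b q) = kn b q := by
  have := (kn_range hb q).1
  unfold mmY
  rw [if_neg (by tauto)]

lemma invY (hb : b.Ok δ σ) (hd : δ ≤ 1) (hk : 1 ≤ k) (hkm : k < b.m) (hm : b.m ≤ nP b) (hM2 : M.card = 2)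
    (hM : ∀ q ∈ M, q.2 < b.K) :
    Inv (CW b (cY b o cl s k) (bsP w s) M v hb hd (cY_zero hk)) (c0M (bsP w s) M) (mmY b s k) where
  mm j hj := by
    rw [mkY hb hd hk hkm hm hM2 hM] at hj ⊢
    rcases hj with ⟨i, h1, h2, h3 | h3, h4⟩ | h1 | ⟨q, h1, h2⟩
    · rw [h3, (mmY_gap hb hd h1 h2).1]
      exact Or.inl ⟨i, h1, h2, Or.inr rfl, h4⟩
    · rw [h3, (mmY_gap hb hd h1 h2).2]
      exact Or.inl ⟨i, h1, h2, Or.inl rfl, h4⟩
    · rw [h1, mmY_mk1]
      exact Or.inr (Or.inl rfl)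
    · rw [h2, mmY_kn hb]
      exact Or.inr (Or.inr ⟨q, h1, rfl⟩)
  inv j hj := by
    rw [mkY hb hd hk hkm hm hM2 hM] at hj
    rcases hj with ⟨i, h1, h2, h3 | h3, h4⟩ | h1 | ⟨q, h1, h2⟩
    · rw [h3, (mmY_gap hb hd h1 h2).1, (mmY_gap hb hd h1 h2).2]
    · rw [h3, (mmY_gap hb hd h1 h2).2, (mmY_gap hb hd h1 h2).1]
    · rw [h1, mmY_mk1, mmY_mk1]
    · rw [h2, mmY_kn hb, mmY_kn hb]

/-- the abscissa of a gap and the mark -/
lemma gx_x1 (hb : b.Ok δ σ) (hh : 0 < h) (hx1 : x1 = -(k * b.M * (2 * h))) (i : ℕ) :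
    (k ≤ i → gx b (2 * h) i + b.M * (2 * h) ≤ x1) ∧ (i + 1 = k → gx b (2 * h) i = x1) ∧
    (i + 1 < k → x1 + b.M * (2 * h) ≤ gx b (2 * h) i) := by
  have hM : (0 : ℤ) < b.M := by exact_mod_cast hb.M0
  have hMn : (0 : ℤ) < b.M * (2 * h) := by positivity
  unfold gx
  rw [hx1]
  refine ⟨fun h1 => ?_, fun h1 => ?_, fun h1 => ?_⟩
  · have : (k : ℤ) * (b.M * (2 * h)) ≤ i * (b.M * (2 * h)) := mul_le_mul_of_nonneg_right (by omega) hMn.le
    linarith
  · have : (k : ℤ) = i + 1 := by omega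
    rw [this]
  · have : ((i : ℤ) + 2) * (b.M * (2 * h)) ≤ k * (b.M * (2 * h)) := mul_le_mul_of_nonneg_right (by omega) hMn.le
    linarith

section pas

variable (hb : b.Ok δ σ) (hd : δ ≤ 1) (hk : 1 ≤ k) (hkm : k < b.m) (hm : b.m ≤ nP b) (hM2 : M.card = 2)
  (hx1 : x1 = -(k * b.M * (2 * h)))
  (W : WJ hb hd (cY_zero (b := b) (o := o) (cl := cl) (s := s) hk) (2 * h) (bsP w s) M v (DY v s x1)
    (wY b h w s x1 M v.2 o cl))
  (hω : ω ⊆ ER (CW b (cY b o cl s k) (bsP w s) M v hb hd (cY_zero hk)) (2 * h))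
  (R : RmA (CW b (cY b o cl s k) (bsP w s) M v hb hd (cY_zero hk)) (c0M (bsP w s) M) (2 * h)
    (vW b (2 * h) v) ω A)

lemma Yr_cases (s : Bool) : Yr s = 0 ∨ Yr s = -1 := by
  cases s
  · exact Or.inr rfl
  · exact Or.inl rfl

include W in
/-- the deleted tiles at a gap -/
lemma delY {i : ℕ} (hi : i < nP b) {y : ℤ} (h1 : -gy b (2 * h) i ≤ y) (h2 : y < gy b (2 * h) i) :
    (lt (gx b (2 * h) i - 1, y) ∈ DY v s x1 ↔ y = Yr s ∧ gx b (2 * h) i - 1 < x1) ∧
    (lt (gx b (2 * h) i, y) ∈ DY v s x1 ↔ y = Yr s ∧ gx b (2 * h) i < x1) := by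
  have hn : (0 : ℤ) < 2 * h := by have := W.n8; omega
  have hM : (0 : ℤ) < b.M := by exact_mod_cast hb.M0
  have hMn : 0 < b.M * (2 * (h : ℤ)) := by positivity
  constructor
  · rw [mem_DY, or_iff_right]
    rintro ⟨rfl, h3⟩
    have := gap_far hb hd hn hi h1 h2 W.in0
    omega
  · rw [mem_DY, or_iff_right]
    rintro ⟨rfl, h3⟩
    have := gap_far hb hd hn hi h1 h2 W.in0
    omega

include hkm hm hM2 hx1 W hω R

/-- **the arcs of the gaps of the Y world**, and the side of the deleted row on the line behind the mark -/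
lemma arcY {i : ℕ} (hi : i < nP b) (hik : i ≠ k - 1) (hne : cfX b w o cl i ≠ cfX b w o cl (i + 1))
    {j j' : Nm (CW b (cY b o cl s k) (bsP w s) M v hb hd (cY_zero hk)) (c0M (bsP w s) M)}
    (hj : j.1 = gapU b i) (hj' : j'.1 = gapL b i) :
    (OW b (cY b o cl s k) (bsP w s) M v hb hd (cY_zero hk) (2 * h) (DY v s x1)
      (wY b h w s x1 M v.2 o cl) ω A).Reachable
      (PJ b (cY b o cl s k) (bsP w s) M v hb hd (cY_zero hk) (2 * h) (some j'))
      (PJ b (cY b o cl s k) (bsP w s) M v hb hd (cY_zero hk) (2 * h) (some j)) ∧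
    (k ≤ i → (OW b (cY b o cl s k) (bsP w s) M v hb hd (cY_zero hk) (2 * h) (DY v s x1)
      (wY b h w s x1 M v.2 o cl) ω A).Reachable
      (PJ b (cY b o cl s k) (bsP w s) M v hb hd (cY_zero hk) (2 * h) (some j'))
      (lad (gx b (2 * h) i) (Yr s) (ladt (cw b (cY b o cl s k) (colM (bsP w s) M (some v.2)) false (i + 1))
        (gx b (2 * h) i) (Yr s)))) := by
  have hn : (0 : ℤ) < 2 * h := by have := W.n8; omega
  have hMn : (0 : ℤ) < b.M * (2 * (h : ℤ)) := by
    have hM : (0 : ℤ) < b.M := by exact_mod_cast hb.M0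
    positivity
  have hg := gy_pos (n := 2 * h) hb hd hn hi
  have hn8 := W.n8
  obtain ⟨g1, g2, g3⟩ := gx_x1 hb (h := h) (by omega) hx1 i
  have t0 := cwY_true (b := b) (o := o) (cl := cl) (s := s) (w := w) (r := v.2) hM2
    (show k ≤ nP b by omega) (i := i) hi.le
  have t1 := cwY_true (b := b) (o := o) (cl := cl) (s := s) (w := w) (r := v.2) hM2
    (show k ≤ nP b by omega) (i := i + 1) hi
  have f0 := cwY_false (b := b) (o := o) (cl := cl) (s := s) (w := w) (r := v.2) hM2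
    (show k ≤ nP b by omega) (i := i) hi.le
  have f1 := cwY_false (b := b) (o := o) (cl := cl) (s := s) (w := w) (r := v.2) hM2
    (show k ≤ nP b by omega) (i := i + 1) hi
  have hx : cfX b w o cl i = !cfX b w o cl (i + 1) := by
    revert hne
    cases cfX b w o cl i <;> cases cfX b w o cl (i + 1) <;> simp
  rw [hx] at t0 f0
  rw [P_gapL hj' hi rfl]
  have e1 : cY b o cl s k true i = cw b (cY b o cl s k) (colM (bsP w s) M (some v.2)) true i :=
    (cw_lt hi true).symm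
  rcases Nat.lt_or_ge i k with hki | hki
  · -- in front of the mark
    have hki' : i + 1 < k := by omega
    rw [decide_eq_false (by omega)] at t0 f0 t1 f1
    simp only [Bool.and_false, Bool.xor_false] at t0 f0 t1 f1
    refine ⟨?_, fun h' => absurd h' (by omega)⟩
    rw [P_gapU hj hi (p := cfX b w o cl (i + 1)) (by rw [e1, t0]), f1]
    refine arc_nat hb hd hn8 (cY_zero hk) W.n2 (cr_crz _) hω R W.out hi t1 f1 t0 f0 ?_
    intro y h1 h2
    obtain ⟨d1, d2⟩ := delY hb hd hk W hi h1 h2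
    rw [d1, d2]
    have := g3 hki'
    omega
  · have hgx := g1 hki
    rw [decide_eq_true (by omega)] at t0 f0 t1 f1
    simp only [Bool.and_true] at t0 f0 t1 f1
    have c1 : cw b (cY b o cl s k) (colM (bsP w s) M (some v.2)) true (i + 1) =
        !cw b (cY b o cl s k) (colM (bsP w s) M (some v.2)) false (i + 1) := by
      rw [t1, f1]
      cases cfX b w o cl (i + 1) <;> cases s <;> rfl
    have c3 : cw b (cY b o cl s k) (colM (bsP w s) M (some v.2)) true i =
        cw b (cY b o cl s k) (colM (bsP w s) M (some v.2)) false (i + 1) := by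
      rw [t0, f1]
      cases cfX b w o cl (i + 1) <;> cases s <;> rfl
    have c4 : cw b (cY b o cl s k) (colM (bsP w s) M (some v.2)) false i =
        !cw b (cY b o cl s k) (colM (bsP w s) M (some v.2)) false (i + 1) := by
      rw [f0, f1]
      cases cfX b w o cl (i + 1) <;> cases s <;> rfl
    have hY := Yr_cases s
    obtain ⟨d1, d2⟩ := delY (v := v) (s := s) (x1 := x1) hb hd hk W hi (y := Yr s) (by omega) (by omega)
    have := arc_del (M := M) (c0 := c0M (bsP w s) M) (v := vW b (2 * h) v) hb hd hn8 (cY_zero hk) W.n2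
      (cr_crz _) hω R W.out hi hY c1 rfl c3 c4 (d1.2 ⟨rfl, by omega⟩) (d2.2 ⟨rfl, by omega⟩) ?_
    · rw [P_gapU hj hi (p := !cw b (cY b o cl s k) (colM (bsP w s) M (some v.2)) false (i + 1))
        (by rw [e1, c3, Bool.not_not])]
      exact ⟨this.2, fun _ => this.1⟩
    · intro y h1 h2 hy
      obtain ⟨d1, d2⟩ := delY hb hd hk W hi h1 h2
      rw [d1, d2]
      exact ⟨fun h' => hy h'.1, fun h' => hy h'.1⟩

/-- the strand of the mark of the Y world -/
lemma markY {j : Nm (CW b (cY b o cl s k) (bsP w s) M v hb hd (cY_zero hk)) (c0M (bsP w s) M)}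
    (hj : j.1 = mk1 b s k) :
    (OW b (cY b o cl s k) (bsP w s) M v hb hd (cY_zero hk) (2 * h) (DY v s x1)
      (wY b h w s x1 M v.2 o cl) ω A).Reachable
      (PJ b (cY b o cl s k) (bsP w s) M v hb hd (cY_zero hk) (2 * h) (some j)) (mc s x1) ∧
    (ladt (cw b (cY b o cl s k) (colM (bsP w s) M (some v.2)) false k) x1 (Yr s) = true →
      (OW b (cY b o cl s k) (bsP w s) M v hb hd (cY_zero hk) (2 * h) (DY v s x1)
      (wY b h w s x1 M v.2 o cl) ω A).Reachable
      (PJ b (cY b o cl s k) (bsP w s) M v hb hd (cY_zero hk) (2 * h) (some j)) (eS (lt (x1 - 1, Yr s)))) := by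
  have hn : (0 : ℤ) < 2 * h := by have := W.n8; omega
  have hi : k - 1 < nP b := by omega
  have hg := gy_pos (n := 2 * h) hb hd hn hi
  have hn8 := W.n8
  obtain ⟨i, rfl⟩ : ∃ i, k = i + 1 := ⟨k - 1, by omega⟩
  rw [Nat.add_sub_cancel] at hi hg
  have hgx := (gx_x1 hb (h := h) (by omega) hx1 i).2.1 rfl
  have t0 := cwY_true (b := b) (o := o) (cl := cl) (s := s) (w := w) (r := v.2) hM2
    (show i + 1 ≤ nP b by omega) (i := i) hi.le
  have t1 := cwY_true (b := b) (o := o) (cl := cl) (s := s) (w := w) (r := v.2) hM2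
    (show i + 1 ≤ nP b by omega) (i := i + 1) hi
  have f0 := cwY_false (b := b) (o := o) (cl := cl) (s := s) (w := w) (r := v.2) hM2
    (show i + 1 ≤ nP b by omega) (i := i) hi.le
  have f1 := cwY_false (b := b) (o := o) (cl := cl) (s := s) (w := w) (r := v.2) hM2
    (show i + 1 ≤ nP b by omega) (i := i + 1) hi
  rw [cfX_P (by omega) hm, decide_eq_false (by omega)] at t0 f0
  rw [cfX_P (by omega) hm, decide_eq_true (by omega)] at t1 f1
  simp only [Bool.and_true, Bool.and_false, Bool.xor_false] at t0 f0 t1 f1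
  have hY := Yr_cases s
  obtain ⟨d1, d2⟩ := delY (v := v) (s := s) (x1 := x1) hb hd hk W hi (y := Yr s) (by omega) (by omega)
  have d1' := d1.2 ⟨rfl, by omega⟩
  have hD : ∀ y, -gy b (2 * h) i ≤ y → y < gy b (2 * h) i → y ≠ Yr s →
      lt (gx b (2 * h) i - 1, y) ∉ DY v s x1 ∧ lt (gx b (2 * h) i, y) ∉ DY v s x1 := by
    intro y h1 h2 hy
    obtain ⟨d1, d2⟩ := delY hb hd hk W hi h1 h2
    rw [d1, d2]
    exact ⟨fun h' => hy h'.1, fun h' => hy h'.1⟩
  have c1 : cw b (cY b o cl s (i + 1)) (colM (bsP w s) M (some v.2)) true (i + 1) =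
      !(cw b (cY b o cl s (i + 1)) (colM (bsP w s) M (some v.2)) false (i + 1)) := by
    rw [t1, f1]
    cases o <;> cases s <;> rfl
  have a1 := arc_mark (M := M) (c0 := c0M (bsP w s) M) (v := vW b (2 * h) v) hb hd hn8 (cY_zero hk) W.n2
    (cr_crz _) hω R W.out hi hY c1 rfl t0 f0 d1' (fun h' => by have := (d2.1 h').2; omega) hD
  have a2 := fun ht => arc_mark2 (M := M) (c0 := c0M (bsP w s) M) (v := vW b (2 * h) v) hb hd hn8
    (cY_zero hk) W.n2 (cr_crz _) hω R W.out hi hY c1 rfl t0 f0 d1' ht hD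
  rw [f1] at a1 a2 ⊢
  rw [hgx] at a1 a2
  have e1 : cY b o cl s (i + 1) true i = cw b (cY b o cl s (i + 1)) (colM (bsP w s) M (some v.2)) true i :=
    (cw_lt hi true).symm
  cases s
  · have hj' : j.1 = gapL b i := hj
    rw [P_gapL hj' hi f1, hgx]
    have hne : (o ^^ !false) ≠ o := by cases o <;> simp
    exact ⟨a1.1 hne, fun ht => (a2 ht).1 hne⟩
  · have hj' : j.1 = gapU b i := hj
    have hne : (o ^^ !true) = o := by cases o <;> simp
    rw [hne] at a1 a2 ⊢
    rw [P_gapU hj' hi (p := !o) (by rw [e1, t0, Bool.not_not]), hgx]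
    exact ⟨a1.2 rfl, fun ht => (a2 ht).2 rfl⟩

omit hM2 hω in
/-- the end of the deleted row is not visited -/
lemma mc_not : mc s x1 ∉ IW (-(2 * h * Ht b)) A := by
  intro hI
  have hn8 := W.n8
  have hn : (0 : ℤ) < 2 * h := by omega
  have hM : (0 : ℤ) < b.M := by exact_mod_cast hb.M0
  have hMn : 2 ≤ b.M * (2 * (h : ℤ)) := by nlinarith
  have hi : k - 1 < nP b := by omega
  have hg := gy_pos (n := 2 * h) hb hd hn hi
  have hgx := (gx_x1 hb (h := h) (by omega) hx1 (k - 1)).2.1 (by omega)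
  obtain ⟨x, y, h1, h2⟩ := IW_pt hb hd hn8 (cY_zero hk) R hI
  have h3 := h2.near (x := x1) (y := Yr s) rfl (sq_eW _)
  have hY := Yr_cases s
  have := gap_far hb hd hn hi (y := y) (by omega) (by omega) h1
  omega

omit hω hkm hm hM2 R hx1 in
lemma mc_end : IsEnd (GJ b (2 * h) M (DY v s x1) (wY b h w s x1 M v.2 o cl) ω) (mc s x1) :=
  isEnd_del (e := lt (x1 - 1, Yr s)) (lt_odd _) (mem_DY.2 (Or.inr ⟨rfl, by omega⟩))
    (Or.inr (by rw [eE_lt, sub_add_cancel]; rfl))

omit hω hkm hm hM2 R hx1 in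
/-- the corners of the marks are far from the deleted row -/
lemma f_row {q : Bool × ℕ} {g : ℤ × ℤ} (hg : g = f1 b (2 * h) q ∨ g = f2 b (2 * h) q) :
    rw2 g < -8 ∨ 8 < rw2 g := by
  have hn8 := W.n8
  have hH : (0 : ℤ) < b.H := by exact_mod_cast hb.H0
  have h1 := rw2_f hg
  rcases (show kn b q - Ht b ≤ -1 ∨ 1 ≤ kn b q - Ht b by unfold kn; split_ifs <;> omega) with h2 | h2
  · left
    have : (kn b q - Ht b) * (2 * h) ≤ -1 * (2 * h) := mul_le_mul_of_nonneg_right h2 (by omega)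
    omega
  · right
    have : 1 * (2 * (h : ℤ)) ≤ (kn b q - Ht b) * (2 * h) := mul_le_mul_of_nonneg_right h2 (by omega)
    omega

/-- the names which are not matched -/
lemma fixY (a : Na (CW b (cY b o cl s k) (bsP w s) M v hb hd (cY_zero hk)) (c0M (bsP w s) M))
    (ha : thm (CW b (cY b o cl s k) (bsP w s) M v hb hd (cY_zero hk)) (c0M (bsP w s) M) (mmY b s k) a = a) :
    (∀ d, ¬ (OW b (cY b o cl s k) (bsP w s) M v hb hd (cY_zero hk) (2 * h) (DY v s x1)
      (wY b h w s x1 M v.2 o cl) ω A).Adj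
      (PJ b (cY b o cl s k) (bsP w s) M v hb hd (cY_zero hk) (2 * h) a) d) ∨
    ∃ e, e ∉ IW (-(2 * h * Ht b)) A ∧
      IsEnd (GJ b (2 * h) M (DY v s x1) (wY b h w s x1 M v.2 o cl) ω) e ∧
      (OW b (cY b o cl s k) (bsP w s) M v hb hd (cY_zero hk) (2 * h) (DY v s x1)
      (wY b h w s x1 M v.2 o cl) ω A).Reachable
      (PJ b (cY b o cl s k) (bsP w s) M v hb hd (cY_zero hk) (2 * h) a) e ∧ rw2 e = 2 * Yr s + 1 := by
  have hn : (0 : ℤ) < 2 * h := by have := W.n8; omega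
  cases a with
  | none =>
    left
    refine fix_of W.room hω R (e := lt v) (lt_odd v) ?_ ?_
    · show Pool.Agent.H45.W.sq (PJ b (cY b o cl s k) (bsP w s) M v hb hd (cY_zero hk) (2 * h) none) _
      rw [P_none]; exact sq_eW _
    · intro d _
      show ¬ TJ _ _ _ (PJ b (cY b o cl s k) (bsP w s) M v hb hd (cY_zero hk) (2 * h) none) _
      rw [P_none]; exact not_TJ_eW W.vD
  | some j =>
    rcases (mkY hb hd hk hkm hm hM2 W.hM j.1).1 ((mem_MkF _ _).1 j.2) with ⟨i, h1, h2, h3, h4⟩ | h1 | ⟨q, hq, hj⟩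
    · exfalso
      rw [thm_some (invY hb hd hk hkm hm hM2 W.hM)] at ha
      simp only [Option.some.injEq] at ha
      have h5 : mmY b s k j.1 = j.1 := congrArg Subtype.val ha
      obtain ⟨r1, r2⟩ := gap_range hb hd h1
      obtain ⟨m1, m2⟩ := mmY_gap (s := s) hb hd h1 h2
      rcases h3 with h3 | h3
      · rw [h3, m1] at h5; omega
      · rw [h3, m2] at h5; omega
    · right
      refine ⟨mc s x1, mc_not hb hd hk hkm hm hx1 W R, mc_end hb hd hk W,
        (markY hb hd hk hkm hm hM2 hx1 W hω R h1).1, ?_⟩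
      unfold rw2 mc eW lt
      simp only
      ring
    · left
      refine fix_of W.room hω R (e := lt (dgt b (2 * h) q)) (lt_odd _) ?_ ?_
      · exact sq_f (P_kn hj (W.hM q hq))
      · intro d hd' _
        exact dgt_not hb hn (W.hM q hq) hq hd'

/-- **Room and outside of the Y world.** -/
theorem pasY : Pas (GJ b (2 * h) M (DY v s x1) (wY b h w s x1 M v.2 o cl) ω)
    (RJ b (cY b o cl s k) (bsP w s) M v hb hd (cY_zero hk) (2 * h) (DY v s x1)
      (wY b h w s x1 M v.2 o cl) ω) (IW (-(2 * h * Ht b)) A)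
    (PJ b (cY b o cl s k) (bsP w s) M v hb hd (cY_zero hk) (2 * h))
    (thm (CW b (cY b o cl s k) (bsP w s) M v hb hd (cY_zero hk)) (c0M (bsP w s) M) (mmY b s k)) := by
  refine pas_of W.room hω R ?_ (fun a ha => ?_)
  · intro a ha
    cases a with
    | none => exact absurd rfl ha
    | some j =>
      have hI := invY (v := v) (w := w) (o := o) (cl := cl) (s := s) hb hd hk hkm hm hM2 W.hM
      rw [thm_some hI]
      rcases (mkY hb hd hk hkm hm hM2 W.hM j.1).1 ((mem_MkF _ _).1 j.2) with ⟨i, h1, h2, h3, h4⟩ | h1 | ⟨q, hq, hj⟩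
      · obtain ⟨m1, m2⟩ := mmY_gap (s := s) hb hd h1 h2
        rcases h3 with h3 | h3
        · refine (arcY hb hd hk hkm hm hM2 hx1 W hω R h1 h2 h4 h3 ?_).1.symm
          show mmY b s k j.1 = _
          rw [h3, m1]
        · refine (arcY hb hd hk hkm hm hM2 hx1 W hω R h1 h2 h4 ?_ h3).1
          show mmY b s k j.1 = _
          rw [h3, m2]
      · exfalso
        apply ha
        rw [thm_some hI]
        congr 1
        apply Subtype.ext
        show mmY b s k j.1 = j.1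
        rw [h1, mmY_mk1]
      · exfalso
        apply ha
        rw [thm_some hI]
        congr 1
        apply Subtype.ext
        show mmY b s k j.1 = j.1
        rw [hj, mmY_kn hb]
  · rcases fixY hb hd hk hkm hm hM2 hx1 W hω R a ha with h1 | ⟨e, h1, h2, h3, -⟩
    · exact Or.inl h1
    · exact Or.inr ⟨e, h1, h2, h3⟩

/-- **`RF` in the Y world** -/
theorem rfY {q : Bool × ℕ} (hq : q ∈ M)
    {j : Nm (CW b (cY b o cl s k) (bsP w s) M v hb hd (cY_zero hk)) (c0M (bsP w s) M)}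
    (hj : j.1 = kn b q)
    (a : Na (CW b (cY b o cl s k) (bsP w s) M v hb hd (cY_zero hk)) (c0M (bsP w s) M)) :
    RF b (2 * h) (GJ b (2 * h) M (DY v s x1) (wY b h w s x1 M v.2 o cl) ω)
      (PJ b (cY b o cl s k) (bsP w s) M v hb hd (cY_zero hk) (2 * h) a) q ↔
      ChJ b (cY b o cl s k) (bsP w s) M v hb hd (cY_zero hk) (2 * h) ω
        (thm (CW b (cY b o cl s k) (bsP w s) M v hb hd (cY_zero hk)) (c0M (bsP w s) M) (mmY b s k)) a
        (some j) := by
  refine W.rf_iff hω R (pasY hb hd hk hkm hm hM2 hx1 W hω R) hq hj (fun a ha => ?_) a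
  rcases fixY hb hd hk hkm hm hM2 hx1 W hω R a ha with h1 | ⟨e, h1, h2, h3, h4⟩
  · exact Or.inl h1
  · refine Or.inr ⟨e, h1, h2, h3, ?_, ?_⟩
    · rintro rfl
      have := f_row hb hd hk W (q := q) (Or.inl rfl)
      have hY := Yr_cases s
      omega
    · rintro rfl
      have := f_row hb hd hk W (q := q) (Or.inr rfl)
      have hY := Yr_cases s
      omega

end pas

lemma closed_reach {G : SimpleGraph (ℤ × ℤ)} {K : Set (ℤ × ℤ)} (hc : ∀ c ∈ K, ∀ d, G.Adj c d → d ∈ K)
    {c d : ℤ × ℤ} (h : c ∈ K) (hr : G.Reachable c d) : d ∈ K := by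
  obtain ⟨p⟩ := hr
  induction p with
  | nil => exact h
  | cons h1 _ ih => exact ih (hc _ h _ h1)

lemma RF_congr {G : SimpleGraph (ℤ × ℤ)} {n : ℤ} {c d : ℤ × ℤ} {q : Bool × ℕ} (h : G.Reachable c d) :
    RF b n G c q ↔ RF b n G d q := by
  unfold RF
  exact or_congr ⟨fun h1 => h.symm.trans h1, fun h1 => h.trans h1⟩
    ⟨fun h1 => h.symm.trans h1, fun h1 => h.trans h1⟩

lemma rw2_sd {x y : ℤ} {g : ℤ × ℤ} (hg : Sd (lt (x, y)) g) : 2 * y ≤ rw2 g ∧ rw2 g ≤ 2 * y + 2 := by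
  rcases hg with rfl | rfl | rfl | rfl
  · unfold rw2 eW lt; simp only; omega
  · unfold rw2 eE lt; simp only; omega
  · unfold rw2 eS lt; simp only; omega
  · unfold rw2 eN lt; simp only; omega

/-- **The key of the Y worlds.** -/
theorem keyY (σ : ℝ) : KeyY σ := by
  intro b δ hb hd hm w s o cl k hk hkm c3 c4 n34 k3 k4 K hK hKc
  obtain ⟨h0, H0⟩ := room_margin hb hK hKc
  refine ⟨max h0 4, fun h hh v hv x1 hx1 ω hω => ?_⟩
  have hh0 : h0 ≤ h := (le_max_left _ _).trans hh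
  have hh4 : 4 ≤ h := (le_max_right _ _).trans hh
  have hM2 : ({c3, c4} : Finset (Bool × ℕ)).card = 2 := card_pair n34
  have hM : ∀ q ∈ ({c3, c4} : Finset (Bool × ℕ)), q.2 < b.K := by
    intro q hq
    simp only [mem_insert, mem_singleton] at hq
    rcases hq with rfl | rfl <;> assumption
  have W := wjY (w := w) (s := s) (o := o) (cl := cl) hb hd hm hh4 hk hM hx1 (H0 h hh0 v hv)
  have hω' : ω ⊆ ER (CW b (cY b o cl s k) (bsP w s) {c3, c4} v hb hd (cY_zero hk)) (2 * h) := hω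
  have R := W.rmA hω'
  have P := pasY hb hd hk hkm hm hM2 hx1 W hω' R
  have hmk := fun j => (mem_MkF (CW b (cY b o cl s k) (bsP w s) {c3, c4} v hb hd (cY_zero hk))
    (c0M (bsP w s) {c3, c4}) (k := j)).trans (mkY hb hd hk hkm hm hM2 hM j)
  have tr' : ∀ a a', (GMY b w s o cl c3 c4 hb hd hk h v ω).Reachable
      (crn (CW b (cY b o cl s k) (bsP w s) {c3, c4} v hb hd (cY_zero hk)) (c0M (bsP w s) {c3, c4})
        (2 * h) (vW b (2 * h) v) a)
      (crn (CW b (cY b o cl s k) (bsP w s) {c3, c4} v hb hd (cY_zero hk)) (c0M (bsP w s) {c3, c4})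
        (2 * h) (vW b (2 * h) v) a') ↔
      ChJ b (cY b o cl s k) (bsP w s) {c3, c4} v hb hd (cY_zero hk) (2 * h) ω
        (thm (CW b (cY b o cl s k) (bsP w s) {c3, c4} v hb hd (cY_zero hk)) (c0M (bsP w s) {c3, c4})
          (mmY b s k)) a a' := fun a a' =>
    arc_reach R.inj (invY (v := v) (w := w) (o := o) (cl := cl) (s := s) hb hd hk hkm hm hM2 hM)
  rw [gyY_eq hb hd (by omega) hk hω']
  have hm1 : mk1 b s k ∈ MkF (CW b (cY b o cl s k) (bsP w s) {c3, c4} v hb hd (cY_zero hk))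
      (c0M (bsP w s) {c3, c4}) := (hmk _).2 (Or.inr (Or.inl rfl))
  refine ⟨?_, ?_, ?_⟩
  · intro q hq
    have hq' : q ∈ ({c3, c4} : Finset (Bool × ℕ)) := by simpa using hq
    have hmq := (hmk (kn b q)).2 (Or.inr (Or.inr ⟨q, hq', rfl⟩))
    have h1 := rfY hb hd hk hkm hm hM2 hx1 W hω' R hq' (j := ⟨kn b q, hmq⟩) rfl none
    rw [P_none] at h1
    exact h1.trans (tr' none (some ⟨kn b q, hmq⟩)).symm
  · have h1 := (markY hb hd hk hkm hm hM2 hx1 W hω' R (j := ⟨mk1 b s k, hm1⟩) rfl).1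
    have h2 := P.reach_end (a := none) h1
    rw [ch_iff W.room hω', P_none] at h2
    exact h2.trans (tr' none (some ⟨mk1 b s k, hm1⟩)).symm
  · intro _ hnot
    -- the column of a gap
    set l := (colM (bsP w s) {c3, c4} (some v.2)).l with hl
    have hq3 : fst2 b c3 c4 ∈ ({c3, c4} : Finset (Bool × ℕ)) := by
      unfold fst2
      split_ifs <;> simp
    set x3 := fst2 b c3 c4 with hx3
    have hmq := (hmk (kn b x3)).2 (Or.inr (Or.inr ⟨x3, hq3, rfl⟩))
    have hRF := fun a => rfY hb hd hk hkm hm hM2 hx1 W hω' R hq3 (j := ⟨kn b x3, hmq⟩) rfl a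
    have hn8 := W.n8
    have hYr := Yr_cases s
    have hMn : (2 * (h : ℤ)) ≤ b.M * (2 * h) := by
      have : (1 : ℤ) ≤ b.M := by exact_mod_cast hb.M0
      nlinarith
    have jc : ∀ i, Pool.Agent.H37.W.jcol b h o cl s k l i = gx b (2 * h) i ∨
        Pool.Agent.H37.W.jcol b h o cl s k l i = gx b (2 * h) i - 1 := by
      intro i
      unfold Pool.Agent.H37.W.jcol gx
      split_ifs
      · exact Or.inr rfl
      · exact Or.inl rfl
    have act : ∀ i, k ≤ i → i < nP b → (Mk (CY b w s o cl {c3, c4} hb hd hk) (c0Y w s {c3, c4}) (gapU b i) ↔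
        cfX b w o cl i ≠ cfX b w o cl (i + 1)) := by
      intro i hki hi
      refine (mkY (v := v) hb hd hk hkm hm hM2 hM (gapU b i)).trans ?_
      obtain ⟨r1, r2⟩ := gap_range hb hd hi
      constructor
      · rintro (⟨i', h1, h2, h3 | h3, h4⟩ | h1 | ⟨q, hq, hj⟩)
        · have : i = i' := by unfold gapU at h3; omega
          rw [this]; exact h4
        · exfalso
          have := (gap_range hb hd h1).2
          omega
        · exfalso
          exact (gap_ne_mk1 (s := s) hb (show i ≠ k - 1 by omega)).1 h1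
        · exfalso
          have := (kn_range hb q).1
          rw [← hj] at this
          omega
      · exact fun h1 => Or.inl ⟨i, hi, by omega, Or.inl rfl, h1⟩
    have colA : ∀ i, k ≤ i → i < nP b → cfX b w o cl i ≠ cfX b w o cl (i + 1) →
        (RF b (2 * h) (GJ b (2 * h) {c3, c4} (DY v s x1) (wY b h w s x1 {c3, c4} v.2 o cl) ω)
          (eS (lt (Pool.Agent.H37.W.jcol b h o cl s k l i, Yr s))) x3 ↔
        (GMY b w s o cl c3 c4 hb hd hk h v ω).Reachable (nmY b w s o cl c3 c4 hb hd hk h (kn b x3))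
          (nmY b w s o cl c3 c4 hb hd hk h (gapU b i))) := by
      intro i hki hi hne
      have gU := (hmk (gapU b i)).2 (Or.inl ⟨i, hi, by omega, Or.inl rfl, hne⟩)
      have gL := (hmk (gapL b i)).2 (Or.inl ⟨i, hi, by omega, Or.inr rfl, hne⟩)
      obtain ⟨a1, a2⟩ := arcY hb hd hk hkm hm hM2 hx1 W hω' R hi (by omega) hne (j := ⟨gapU b i, gU⟩)
        (j' := ⟨gapL b i, gL⟩) rfl rfl
      have e1 : lad (gx b (2 * h) i) (Yr s) (ladt (cw b (cY b o cl s k)
          (colM (bsP w s) {c3, c4} (some v.2)) false (i + 1)) (gx b (2 * h) i) (Yr s)) =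
          eS (lt (Pool.Agent.H37.W.jcol b h o cl s k l i, Yr s)) := by
        have e2 : cw b (cY b o cl s k) (colM (bsP w s) {c3, c4} (some v.2)) false (i + 1) =
            Pool.Agent.H61.W.cf b (cY b o cl s k false) l (i + 1) := rfl
        have e3 : gx b (2 * h) i = -((i + 1) * b.M * (2 * h)) := rfl
        rw [e2, e3]
        unfold lad Pool.Agent.H37.W.jcol
        split_ifs <;> rfl
      have a3 := a2 hki
      rw [e1] at a3
      have h1 := RF_congr (b := b) (n := 2 * h) (q := x3) ((a3.symm.trans a1).mono OG_le)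
      rw [h1, hRF, ← tr']
      exact ⟨fun h => h.symm, fun h => h.symm⟩
    have colB : ladt (Pool.Agent.H61.W.cf b (cY b o cl s k false) l k) x1 (Yr s) = true →
        ¬ RF b (2 * h) (GJ b (2 * h) {c3, c4} (DY v s x1) (wY b h w s x1 {c3, c4} v.2 o cl) ω)
          (eS (lt (x1 - 1, Yr s))) x3 := by
      intro ht hr
      have a1 := (markY hb hd hk hkm hm hM2 hx1 W hω' R (j := ⟨mk1 b s k, hm1⟩) rfl).2 ht
      rw [← RF_congr (a1.mono OG_le), hRF, ← tr'] at hr
      exact hnot hr.symm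
    have colC : ∀ x, x < x1 → (∀ i, k ≤ i → i < nP b → cfX b w o cl i ≠ cfX b w o cl (i + 1) →
        x ≠ Pool.Agent.H37.W.jcol b h o cl s k l i) →
        ¬ RF b (2 * h) (GJ b (2 * h) {c3, c4} (DY v s x1) (wY b h w s x1 {c3, c4} v.2 o cl) ω)
          (eS (lt (x, Yr s))) x3 := by
      intro x hx hA
      by_cases hE : x = x1 - 1 ∧ ladt (Pool.Agent.H61.W.cf b (cY b o cl s k false) l k) x1 (Yr s) = true
      · rw [hE.1]; exact colB hE.2
      · intro hr
        have hsub := trF_sub_E1 (u := (colM (bsP w s) {c3, c4} (some v.2)).u)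
          (l := (colM (bsP w s) {c3, c4} (some v.2)).l) hb hd
          (cY_zero (b := b) (o := o) (cl := cl) (s := s) hk) (show 0 < h by omega) hω'
        obtain ⟨K', m1, m2, m3⟩ := Pool.Agent.H37.W.col_closed (w := w) (o := o) (cl := cl) (s := s)
          (x0 := v.1) (r := v.2) hb hd (show 0 < h by omega) hm hM2 hk hx1 hsub W.in0 hx
          (fun i hki hi hne => hA i hki hi (by
            have t0 := cwY_true (b := b) (o := o) (cl := cl) (s := s) (w := w) (r := v.2) hM2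
              (show k ≤ nP b by omega) (i := i) hi.le
            have t1 := cwY_true (b := b) (o := o) (cl := cl) (s := s) (w := w) (r := v.2) hM2
              (show k ≤ nP b by omega) (i := i + 1) hi
            rw [decide_eq_true (by omega)] at t0 t1
            have hne' : cw b (cY b o cl s k) (colM (bsP w s) {c3, c4} (some v.2)) true i ≠
                cw b (cY b o cl s k) (colM (bsP w s) {c3, c4} (some v.2)) true (i + 1) := hne
            rw [t0, t1] at hne'
            exact fun h' => hne' (by rw [h']))) hE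
        have far : ∀ g, (g = f1 b (2 * h) x3 ∨ g = f2 b (2 * h) x3) → g ∉ K' := by
          intro g hg hgK
          obtain ⟨x', y', q1, q2, q3⟩ := m3 g hgK
          have hf := f_row hb hd hk W (q := x3) hg
          rw [abs_le] at q1
          have hs := rw2_sd q3
          omega
        rcases hr with hr | hr
        · exact far _ (Or.inl rfl) (closed_reach m2 m1 hr)
        · exact far _ (Or.inr rfl) (closed_reach m2 m1 hr)
    have jlt : ∀ i, k ≤ i → Pool.Agent.H37.W.jcol b h o cl s k l i < x1 := by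
      intro i hki
      have := (gx_x1 hb (h := h) (by omega) hx1 i).1 hki
      rcases jc i with h1 | h1 <;> omega
    have jinj : ∀ i i', i < i' → Pool.Agent.H37.W.jcol b h o cl s k l i' <
        Pool.Agent.H37.W.jcol b h o cl s k l i := by
      intro i i' hii
      have : gx b (2 * h) i' + b.M * (2 * h) ≤ gx b (2 * h) i := by
        unfold gx
        have : ((i : ℤ) + 2) * (b.M * (2 * h)) ≤ (i' + 1) * (b.M * (2 * h)) :=
          mul_le_mul_of_nonneg_right (by omega) (by omega)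
        linarith
      rcases jc i with h1 | h1 <;> rcases jc i' with h2 | h2 <;> omega
    have hset : {x : ℤ | x < x1 ∧ RF b (2 * h)
        (GJ b (2 * h) {c3, c4} (DY v s x1) (wY b h w s x1 {c3, c4} v.2 o cl) ω)
        (eS (lt (x, Yr s))) x3} = Pool.Agent.H37.W.jcol b h o cl s k l '' {i : ℕ | k ≤ i ∧ i < nP b ∧
          Mk (CY b w s o cl {c3, c4} hb hd hk) (c0Y w s {c3, c4}) (gapU b i) ∧
          (GMY b w s o cl c3 c4 hb hd hk h v ω).Reachable (nmY b w s o cl c3 c4 hb hd hk h (kn b x3))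
            (nmY b w s o cl c3 c4 hb hd hk h (gapU b i))} := by
      ext x
      constructor
      · rintro ⟨hx, hr⟩
        by_contra hno
        refine colC x hx (fun i hki hi hne hxi => hno ⟨i, ⟨hki, hi, (act i hki hi).2 hne, ?_⟩, hxi.symm⟩) hr
        rw [← colA i hki hi hne, ← hxi]
        exact hr
      · rintro ⟨i, ⟨hki, hi, ha, hr⟩, rfl⟩
        exact ⟨jlt i hki, (colA i hki hi ((act i hki hi).1 ha)).2 hr⟩
    unfold cntY
    rw [← hx3, hset]
    refine Set.ncard_image_of_injOn ?_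
    intro i _ i' _ he
    rcases lt_trichotomy i i' with h1 | h1 | h1
    · have := jinj _ _ h1
      omega
    · exact h1
    · have := jinj _ _ h1
      omega

end Pool.Agent.H94.W
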