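import Mathlib
import Pool.Agent.H94.W.JYMid
import Pool.Agent.H71.W.JY6
import Pool.Agent.H16.W.JYUp

set_option autoImplicit false
open Finset

/-! # Route W, J6: `YOddS` holds

`gYmid` : 71's `GYmid`. `yOddS` : the odd row of the Y worlds. -/

namespace Pool.Agent.H94.W

open Pool.Agent.H61.W Pool.Agent.H6.W Pool.Agent.H16.W Pool.Agent.H71.W Pool.Agent.H87.Fld

/-- **The row behind the mark of `P` crosses the string.** -/
theorem gYmid : GYmid := fun _ _ _ _ _ _ N _ hM hc h1 h2 _ _ _ _ hq _ hq0 =>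
  gY_mid N hM hc h1 h2 hq hq0

/-- **`YOddS`.** -/
theorem yOddS {σ : ℝ} (hσ : 0 < σ) (hσ1 : σ ≤ 1) (w : Bool) {b b3 b4 : Bool × ℝ}
    (hbx : b.2 ∈ Set.Ioo (-σ) 0) (h34 : b3 ≠ b4) {x : ℝ} (hx : x < -σ) : YOddS σ w b b3 b4 x := by
  obtain ⟨kap, hk, hU⟩ := vYup
  exact yOddS_from hk hU gYmid hσ hσ1 w hbx h34 hx

end Pool.Agent.H94.W
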