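import Mathlib
import Pool.Agent.H13.W.Graph
import Pool.Agent.H33.Q1.Tile
import Pool.Agent.Q1.Env
import Pool.Agent.H44.W.CloseDef

set_option autoImplicit false
open Finset Filter Topology

/-! # The S-property: interface (B0)

Language of `H13/W/Graph.lean`: corners = sides of the tiles, labels = tiles, `SG Λ D w` = strand graph (open
labels `w`, deleted labels `D`). Tile frame: `lt (x, y)` = label of the unit square with lower left corner
`(x, y)`, `vs x y` its left side, `hs x y` its bottom side. The lattice point `(x, y)` is a vertex of the primal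
lattice iff `x + y` is even.

`Room` : rows `a y ≤ x < w`, `0 ≤ y < h`, `a` arbitrary, the right wall `x = w` is flat. Walls: at a wall of colour
`b` (`true` : wired) the strands turn round the lattice points `p` with `tpt p = b` (faces if wired). `col c` :
colour of the wall at the boundary side `c` (all walls except the right wall), `cR` : colour of the right wall
below the exit; above the exit it is `!cR` (colours in Z² labels). Colours change only at convex corners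
(`ColOK`); no condition on the parity of the corners.
`z = (x0, r)` : the row `r` is deleted for `x ≥ x0`; the interior end is the side `vs x0 r`.
Outside: `θ`, a noncrossing matching of the unpaired wall ends and of three far ends, the same for all `z`
(`Outs`); far ends `0, 1, 2` counterclockwise from the exit (exit = right wall = east).
`hh v = ∑ j, τ ^ j P(z is connected to the far end j)`.

`StA2` : **the S-property** (note 2100 (A2)): all limits of box averages are holomorphic, uniformly in everything.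
The conjugate functional (values `1, τ², τ`) is the complex conjugate. -/

noncomputable section

namespace Pool.Agent.H94.W

open Pool.Agent.H75.Perc Pool.Agent.H75.TwoArm
open Pool.Agent.H13.W (SG)
open Pool.Agent.H33.Q1 (lt tt)
open Pool.Agent.Q1 (w6)
open Pool.Agent.Q1.M4 (lat)
open Pool.Agent.H44.W (WLim)

/-! ### Sides -/

/-- left side of the tile `(x, y)` -/
def vs (x y : ℤ) : ℤ × ℤ := lt (x, y)

/-- bottom side of the tile `(x, y)` -/
def hs (x y : ℤ) : ℤ × ℤ := (x - y + 1, x + y + 1)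

/-- the side `c` ends at the lattice point `p` -/
def At (p c : ℤ × ℤ) : Prop :=
  c = vs p.1 p.2 ∨ c = vs p.1 (p.2 - 1) ∨ c = hs p.1 p.2 ∨ c = hs (p.1 - 1) p.2

/-- colour of the walls whose strands turn round the lattice point `p` -/
def tpt (p : ℤ × ℤ) : Bool := decide ((p.1 + p.2) % 2 = 1)

/-! ### Rooms -/

structure Room where
  a : ℤ → ℤ
  w : ℤ
  h : ℤ

namespace Room

variable (D : Room)

/-- the labels of the room -/
def E : Finset (ℤ × ℤ) := (Ico 0 D.h).biUnion fun y => (Ico (D.a y) D.w).image fun x => lt (x, y)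

/-- boundary sides -/
def bd (c : ℤ × ℤ) : Prop := ¬ (lab c ∈ D.E ↔ plab c ∈ D.E)

/-- sides of the right wall -/
def onR (c : ℤ × ℤ) : Prop := ∃ y, c = vs D.w y

open Classical in
/-- colours of the walls if the exit is in the row `r` -/
def cz (col : ℤ × ℤ → Bool) (cR : Bool) (r : ℤ) (c : ℤ × ℤ) : Bool :=
  if D.onR c then (if (tt c).2 < r then cR else !cR) else col c

/-- strand pieces at the walls; the last line: the exit does not disturb the wall -/
def wl (col : ℤ × ℤ → Bool) (cR : Bool) (r : ℤ) (c c' : ℤ × ℤ) : Prop :=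
  (D.bd c ∧ D.bd c' ∧ c ≠ c' ∧ c ≠ vs D.w r ∧ c' ≠ vs D.w r ∧
    ∃ p, At p c ∧ At p c' ∧ D.cz col cR r c = tpt p ∧ D.cz col cR r c' = tpt p) ∨
  (tpt (D.w, r) = cR ∧ ((c = vs D.w (r - 1) ∧ c' = vs D.w (r + 1)) ∨
    (c = vs D.w (r + 1) ∧ c' = vs D.w (r - 1))))

/-- the deleted half row of `v` -/
def Dz (v : ℤ × ℤ) : Set (ℤ × ℤ) := {e | ∃ x, v.1 ≤ x ∧ x < D.w ∧ e = lt (x, v.2)}

/-- strands of the room with its walls -/
def RG (col : ℤ × ℤ → Bool) (cR : Bool) (v : ℤ × ℤ) (ω : Finset (ℤ × ℤ)) : SimpleGraph (ℤ × ℤ) :=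
  SG (↑D.E) (D.Dz v) ω ⊔ SimpleGraph.fromRel (D.wl col cR v.2)

/-- **wall ends**: unpaired boundary sides -/
def WE (col : ℤ × ℤ → Bool) (cR : Bool) (r : ℤ) (c : ℤ × ℤ) : Prop :=
  D.bd c ∧ c ≠ vs D.w r ∧ ∀ c', ¬ D.wl col cR r c c'

/-- `p` is a convex corner of the room -/
def cvx (p : ℤ × ℤ) : Prop :=
  (D.E ∩ {lt p, lt (p.1 - 1, p.2), lt (p.1, p.2 - 1), lt (p.1 - 1, p.2 - 1)}).card = 1

open Classical in
/-- the colour changes only at convex corners; the right wall has one colour -/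
def ColOK (col : ℤ × ℤ → Bool) (cR : Bool) : Prop :=
  ∀ c c' p, D.bd c → D.bd c' → At p c → At p c' → ¬ D.cvx p →
    (if D.onR c then cR else col c) = if D.onR c' then cR else col c'

/-! ### Outsides with three far ends -/

open Classical in
/-- position of a boundary side, counterclockwise from the exit in the row `r` -/
def pos (r : ℤ) (c : ℤ × ℤ) : ℤ ×ₗ ℤ :=
  if D.onR c then (if r < (tt c).2 then toLex (-2 * D.h - 1, (tt c).2) else toLex (1, (tt c).2))
  else if (c.1 + c.2) % 2 = 1 then toLex (-2 * (tt c).2 - 1, 0)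
  else if c - (1, 0) ∈ D.E then toLex (-2 * (tt (c - (1, 0))).2, (tt (c - (1, 0))).1)
  else toLex (-2 * (tt (c - (1, 0))).2, -(tt (c - (1, 0))).1)

/-- positions of wall ends and far ends. The far ends `0, 1, 2` are counterclockwise from the exit, so as
points of the boundary of the outside they come after the wall ends, in the order `2, 1, 0`. -/
def posO (r : ℤ) : (ℤ × ℤ) ⊕ Fin 3 → ℤ ×ₗ ℤ
  | Sum.inl c => D.pos r c
  | Sum.inr i => toLex (2, -(i : ℤ))

/-- **Planar outsides**: `θ` is a noncrossing matching of the wall ends and three far ends. -/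
structure Outs (col : ℤ × ℤ → Bool) (cR : Bool) (r : ℤ) (θ : (ℤ × ℤ) ⊕ Fin 3 → (ℤ × ℤ) ⊕ Fin 3) :
    Prop where
  inv : ∀ x, θ (θ x) = x
  far : ∀ i, θ (Sum.inr i) ≠ Sum.inr i
  act : ∀ c, θ (Sum.inl c) ≠ Sum.inl c ↔ D.WE col cR r c
  nc : ∀ x y, θ x ≠ x → θ y ≠ y → ¬ (D.posO r x < D.posO r y ∧ D.posO r y < D.posO r (θ x) ∧
    D.posO r (θ x) < D.posO r (θ y))

/-- the room with its outside -/
def TG (col : ℤ × ℤ → Bool) (cR : Bool) (θ : (ℤ × ℤ) ⊕ Fin 3 → (ℤ × ℤ) ⊕ Fin 3) (v : ℤ × ℤ)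
    (ω : Finset (ℤ × ℤ)) : SimpleGraph ((ℤ × ℤ) ⊕ Fin 3) :=
  SimpleGraph.fromRel fun x y =>
    (∃ c c', x = Sum.inl c ∧ y = Sum.inl c' ∧ (D.RG col cR v ω).Adj c c') ∨ θ x = y

/-- probability that the interior end is connected to the far end `j` -/
def PP (col : ℤ × ℤ → Bool) (cR : Bool) (θ : (ℤ × ℤ) ⊕ Fin 3 → (ℤ × ℤ) ⊕ Fin 3) (v : ℤ × ℤ)
    (j : Fin 3) : ℝ :=
  Pr D.E fun ω => (D.TG col cR θ v ω).Reachable (Sum.inl (vs v.1 v.2)) (Sum.inr j)

/-- **The dislocation functional**; `w6 ^ 2 = τ = e^{2πi/3}`. -/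
def hh (col : ℤ × ℤ → Bool) (cR : Bool) (θ : (ℤ × ℤ) ⊕ Fin 3 → (ℤ × ℤ) ⊕ Fin 3) (v : ℤ × ℤ) : ℂ :=
  ∑ j : Fin 3, w6 ^ (2 * (j : ℕ)) * (D.PP col cR θ v j : ℂ)

end Room

/-! ### Macroscopic shapes -/

/-- Macroscopic rooms: `al i < re z < om` for `Y i < im z < Y (i + 1)`. -/
structure Shp where
  k : ℕ
  Y : ℕ → ℝ
  al : ℕ → ℝ
  om : ℝ
  k1 : 1 ≤ k
  Y0 : Y 0 = 0
  mono : ∀ i < k, Y i < Y (i + 1)
  lt : ∀ i < k, al i < om
  jump : ∀ i, i + 1 < k → al i ≠ al (i + 1)

/-- the open set -/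
def Shp.Om (S : Shp) : Set ℂ :=
  interior {z | ∃ i < S.k, z.im ∈ Set.Icc (S.Y i) (S.Y (i + 1)) ∧ z.re ∈ Set.Icc (S.al i) S.om}

/-- the rooms `D j` at scale `R j` have the macroscopic shape `S` -/
def Fits (S : Shp) (R : ℕ → ℝ) (U : Filter ℕ) (D : ℕ → Room) : Prop :=
  ∃ y A : ℕ → ℕ → ℤ, (∀ j, y j 0 = 0 ∧ y j S.k = (D j).h) ∧
    (∀ j, ∀ i < S.k, ∀ t, y j i ≤ t → t < y j (i + 1) → (D j).a t = A j i) ∧
    (∀ i ≤ S.k, Tendsto (fun j => (y j i : ℝ) / R j) U (𝓝 (S.Y i))) ∧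
    (∀ i < S.k, Tendsto (fun j => (A j i : ℝ) / R j) U (𝓝 (S.al i))) ∧
    Tendsto (fun j => ((D j).w : ℝ) / R j) U (𝓝 S.om)

/-- **The S-property** (A2). Rooms of a fixed macroscopic shape, colours and outsides arbitrary and depending on
`j` in any way. -/
def StA2 : Prop := ∀ (S : Shp) (R : ℕ → ℝ) (U : Ultrafilter ℕ), Tendsto R atTop atTop →
  (U : Filter ℕ) ≤ atTop → ∀ D : ℕ → Room, Fits S R U D → ∀ (col : ℕ → ℤ × ℤ → Bool) (cR : ℕ → Bool),
  (∀ j, (D j).ColOK (col j) (cR j)) → ∀ θ : ℕ → (ℤ × ℤ) ⊕ Fin 3 → (ℤ × ℤ) ⊕ Fin 3,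
  (∀ j r, 1 < r → r + 2 < (D j).h → (D j).Outs (col j) (cR j) r (θ j)) →
  ∃ g : ℂ → ℂ, DifferentiableOn ℂ g S.Om ∧ (∀ z ∈ S.Om, ‖g z‖ ≤ 1) ∧
    WLim R U S.Om (fun j v => (D j).hh (col j) (cR j) (θ j) v) g

end Pool.Agent.H94.W
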